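import Pool.Agent.VRJ.Alg

/-!
# VRJ-Jet: Taylor coefficients along curves

## Plan
`jet_map`: `Polynomial.mapAlgHom φ` maps the `aeval` to the `aeval` (`MvPolynomial.comp_aeval`,
`Polynomial.coeff_map`). `jet_zero`: for `k = 0` the arguments are constants `Polynomial.C (z l 0)`, the value
is the constant `Polynomial.C (aeval ..)`. `jet_add`, `jet_smul`: linearity. `jet_trunc`: for every
`K ≥ k` the coefficient of `τ ^ k` of `F (∑ i ≤ K, z l i τ ^ i)` is `jet F k z`: the coefficients of order `≤ k`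
of values at polynomials which agree modulo `τ ^ (k + 1)` agree (induction on `F`, or the quotient by
the ideal `(τ ^ (k + 1))`). `jet_congr`: the arguments are equal. `jet_mul`: `Polynomial.coeff_mul`
(`Finset.Nat.sum_antidiagonal_eq_sum_range_succ`) and `jet_trunc`. `jet_expand`: `F = ∑ m ∈ support, monomial m (coeff m F)`.
-/

namespace VRJ

open MvPolynomial

variable {R S : Type} [CommRing R] [Algebra ℂ R] [CommRing S] [Algebra ℂ S] {L : ℕ}

private theorem coeff_curve (l : Fin L) (K d : ℕ) (z : Fin L → ℕ → R) :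
    (∑ i ∈ Finset.range (K + 1), Polynomial.monomial i (z l i)).coeff d =
      if d ≤ K then z l d else 0 := by
  rw [Polynomial.finset_sum_coeff]
  simp only [Polynomial.coeff_monomial]
  rw [Finset.sum_ite_eq' (Finset.range (K + 1)) d]
  simp only [Finset.mem_range, Nat.lt_succ_iff]

theorem jet_map (φ : R →ₐ[ℂ] S) (F : MvPolynomial (Fin L) ℂ) (k : ℕ) (z : Fin L → ℕ → R) :
    φ (jet F k z) = jet F k fun l i => φ (z l i) := by
  unfold jet
  have h : Polynomial.mapAlgHom φ (aeval (fun l => ∑ i ∈ Finset.range (k + 1),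
      Polynomial.monomial i (z l i)) F : Polynomial R) =
      (aeval (fun l => ∑ i ∈ Finset.range (k + 1), Polynomial.monomial i (φ (z l i))) F :
        Polynomial S) := by
    rw [MvPolynomial.comp_aeval_apply]
    congr 2
    funext l
    rw [map_sum]
    refine Finset.sum_congr rfl fun i _ => ?_
    rw [Polynomial.coe_mapAlgHom, Polynomial.map_monomial]
    rfl
  rw [← h, Polynomial.coe_mapAlgHom, Polynomial.coeff_map]
  rfl

theorem jet_zero (F : MvPolynomial (Fin L) ℂ) (z : Fin L → ℕ → R) :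
    jet F 0 z = aeval (fun l => z l 0) F := by
  unfold jet
  have h : (aeval (fun l => ∑ i ∈ Finset.range (0 + 1), Polynomial.monomial i (z l i)) F :
      Polynomial R) = Polynomial.C (aeval (fun l => z l 0) F) := by
    have h1 : (Polynomial.CAlgHom : R →ₐ[ℂ] Polynomial R) (aeval (fun l => z l 0) F) =
        aeval (fun l => (Polynomial.CAlgHom : R →ₐ[ℂ] Polynomial R) (z l 0)) F :=
      MvPolynomial.comp_aeval_apply _ _ _
    have h2 : Polynomial.C (aeval (fun l => z l 0) F) =
        (Polynomial.CAlgHom : R →ₐ[ℂ] Polynomial R) (aeval (fun l => z l 0) F) := rfl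
    have h3 : (fun l => ∑ i ∈ Finset.range (0 + 1), Polynomial.monomial i (z l i)) =
        fun l => (Polynomial.CAlgHom : R →ₐ[ℂ] Polynomial R) (z l 0) := by
      funext l
      rw [zero_add, Finset.sum_range_one]
      rfl
    rw [h2, h1, h3]
  rw [h, Polynomial.coeff_C_zero]

theorem jet_add (F G : MvPolynomial (Fin L) ℂ) (k : ℕ) (z : Fin L → ℕ → R) :
    jet (F + G) k z = jet F k z + jet G k z := by
  unfold jet
  rw [map_add, Polynomial.coeff_add]

theorem jet_sum {ι : Type} (s : Finset ι) (F : ι → MvPolynomial (Fin L) ℂ) (k : ℕ)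
    (z : Fin L → ℕ → R) : jet (∑ i ∈ s, F i) k z = ∑ i ∈ s, jet (F i) k z := by
  unfold jet
  rw [map_sum, Polynomial.finset_sum_coeff]

theorem jet_C_mul (a : ℂ) (F : MvPolynomial (Fin L) ℂ) (k : ℕ) (z : Fin L → ℕ → R) :
    jet (C a * F) k z = a • jet F k z := by
  unfold jet
  rw [map_mul, MvPolynomial.aeval_C, ← Algebra.smul_def, Polynomial.coeff_smul]

theorem jet_C (a : ℂ) (k : ℕ) (z : Fin L → ℕ → R) :
    jet (C a : MvPolynomial (Fin L) ℂ) k z = if k = 0 then algebraMap ℂ R a else 0 := by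
  unfold jet
  rw [MvPolynomial.aeval_C, Polynomial.algebraMap_apply, Polynomial.coeff_C]

theorem jet_X (l : Fin L) (k : ℕ) (z : Fin L → ℕ → R) :
    jet (X l : MvPolynomial (Fin L) ℂ) k z = z l k := by
  unfold jet
  rw [MvPolynomial.aeval_X, coeff_curve, if_pos le_rfl]

/-- more terms of the curve do not change the Taylor coefficient -/
theorem jet_trunc (F : MvPolynomial (Fin L) ℂ) {k K : ℕ} (h : k ≤ K) (z : Fin L → ℕ → R) :
    (aeval (fun l => ∑ i ∈ Finset.range (K + 1), Polynomial.monomial i (z l i)) F :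
      Polynomial R).coeff k = jet F k z := by
  unfold jet
  obtain ⟨I, hI⟩ : ∃ I : Ideal (Polynomial R), I = Ideal.span {(Polynomial.X : Polynomial R) ^ (k + 1)} :=
    ⟨_, rfl⟩
  have h1 : Ideal.Quotient.mkₐ ℂ I (aeval (fun l => ∑ i ∈ Finset.range (K + 1),
      Polynomial.monomial i (z l i)) F) =
      Ideal.Quotient.mkₐ ℂ I (aeval (fun l => ∑ i ∈ Finset.range (k + 1),
      Polynomial.monomial i (z l i)) F) := by
    rw [MvPolynomial.comp_aeval_apply, MvPolynomial.comp_aeval_apply]
    congr 2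
    funext l
    rw [Ideal.Quotient.mkₐ_eq_mk, Ideal.Quotient.eq, hI, Ideal.mem_span_singleton,
      Polynomial.X_pow_dvd_iff]
    intro d hd
    rw [Polynomial.coeff_sub, coeff_curve, coeff_curve, if_pos (by omega), if_pos (by omega),
      sub_self]
  rw [Ideal.Quotient.mkₐ_eq_mk, Ideal.Quotient.eq, hI, Ideal.mem_span_singleton,
    Polynomial.X_pow_dvd_iff] at h1
  have h2 := h1 k (Nat.lt_succ_self k)
  rw [Polynomial.coeff_sub, sub_eq_zero] at h2
  exact h2

theorem jet_congr (F : MvPolynomial (Fin L) ℂ) {k : ℕ} {z z' : Fin L → ℕ → R}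
    (h : ∀ l, ∀ i ≤ k, z l i = z' l i) : jet F k z = jet F k z' := by
  unfold jet
  have h1 : (fun l => ∑ i ∈ Finset.range (k + 1), Polynomial.monomial i (z l i)) =
      fun l => ∑ i ∈ Finset.range (k + 1), Polynomial.monomial i (z' l i) := by
    funext l
    refine Finset.sum_congr rfl fun i hi => ?_
    rw [h l i (Nat.lt_succ_iff.1 (Finset.mem_range.1 hi))]
  rw [h1]

theorem jet_mul (F G : MvPolynomial (Fin L) ℂ) (k : ℕ) (z : Fin L → ℕ → R) :
    jet (F * G) k z = ∑ i ∈ Finset.range (k + 1), jet F i z * jet G (k - i) z := by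
  have h : jet (F * G) k z = ((aeval (fun l => ∑ i ∈ Finset.range (k + 1),
      Polynomial.monomial i (z l i)) F : Polynomial R) *
      (aeval (fun l => ∑ i ∈ Finset.range (k + 1),
      Polynomial.monomial i (z l i)) G : Polynomial R)).coeff k := by
    unfold jet
    rw [map_mul]
  rw [h, Polynomial.coeff_mul, Finset.Nat.sum_antidiagonal_eq_sum_range_succ
    (fun i j => (aeval (fun l => ∑ i ∈ Finset.range (k + 1),
      Polynomial.monomial i (z l i)) F : Polynomial R).coeff i *
      (aeval (fun l => ∑ i ∈ Finset.range (k + 1),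
      Polynomial.monomial i (z l i)) G : Polynomial R).coeff j)]
  refine Finset.sum_congr rfl fun i hi => ?_
  rw [jet_trunc F (Nat.lt_succ_iff.1 (Finset.mem_range.1 hi)), jet_trunc G (Nat.sub_le k i)]

/-- if `F` vanishes along the curve to order `k`, so does `F * G` -/
theorem jet_mul_zero {F : MvPolynomial (Fin L) ℂ} (G : MvPolynomial (Fin L) ℂ) {k : ℕ}
    {z : Fin L → ℕ → R} (h : ∀ j ≤ k, jet F j z = 0) : jet (F * G) k z = 0 := by
  rw [jet_mul]
  refine Finset.sum_eq_zero fun i hi => ?_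
  rw [h i (Nat.lt_succ_iff.1 (Finset.mem_range.1 hi)), zero_mul]

/-- the power of a polynomial which vanishes at the base point vanishes to the order of the
exponent -/
theorem jet_pow_zero {F : MvPolynomial (Fin L) ℂ} {r k : ℕ} (hk : k < r) {z : Fin L → ℕ → R}
    (h : aeval (fun l => z l 0) F = 0) : jet (F ^ r) k z = 0 := by
  have h0 : (aeval (fun l => ∑ i ∈ Finset.range (k + 1),
      Polynomial.monomial i (z l i)) F : Polynomial R).coeff 0 = 0 := by
    rw [jet_trunc F (Nat.zero_le k), jet_zero, h]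
  rw [← Polynomial.X_dvd_iff] at h0
  unfold jet
  rw [map_pow]
  exact (Polynomial.X_pow_dvd_iff.1 (pow_dvd_pow_of_dvd h0 r)) k hk

theorem jet_expand (F : MvPolynomial (Fin L) ℂ) (k : ℕ) (z : Fin L → ℕ → ℂ) :
    jet F k z = ∑ m ∈ F.support, coeff m F * jet (monomial m (1 : ℂ)) k z := by
  conv_lhs => rw [F.as_sum]
  rw [jet_sum]
  refine Finset.sum_congr rfl fun m _ => ?_
  rw [← smul_eq_mul, ← jet_C_mul, C_mul_monomial, mul_one]

end VRJ
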