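import Pool.Agent.VRJ.Alg

/-!
# VRJ-Indep: algebraically independent numbers over countable fields

## Plan
`field_ext`: the subfield generated by a countable field and a countable set is countable
(`Subfield.closure`, cardinality: e.g. `Subfield.cardinalMk_closure_le_max` or
`IntermediateField`/`Algebra.adjoin` versions).
`exists_indep`: take a transcendence basis `b : B → ℂ` of `ℂ` over `K`
(`exists_isTranscendenceBasis`). If `B` were countable then `ℂ` would be algebraic over the countable
ring `Algebra.adjoin K (range b)`, hence countable (`Algebra.IsAlgebraic.cardinalMk_le_max`), but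
`ℂ` is not countable. So `B` is infinite; compose with an injection `ι → B`.
-/

namespace VRJ

theorem field_ext (K : Subfield ℂ) (hK : (K : Set ℂ).Countable) (S : Set ℂ) (hS : S.Countable) :
    ∃ K' : Subfield ℂ, K ≤ K' ∧ S ⊆ K' ∧ (K' : Set ℂ).Countable := by
  refine ⟨Subfield.closure ((K : Set ℂ) ∪ S), ?_, ?_, ?_⟩
  · intro x hx
    exact Subfield.subset_closure (Or.inl hx)
  · intro x hx
    exact Subfield.subset_closure (Or.inr hx)
  · have h1 := Subfield.cardinalMk_closure_le_max ((K : Set ℂ) ∪ S)
    have h2 : Cardinal.mk ↥((K : Set ℂ) ∪ S) ≤ Cardinal.aleph0 :=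
      Cardinal.le_aleph0_iff_set_countable.mpr (hK.union hS)
    exact Cardinal.le_aleph0_iff_set_countable.mp (h1.trans (max_le h2 le_rfl))

theorem exists_indep (K : Subfield ℂ) (hK : (K : Set ℂ).Countable) (ι : Type) [Fintype ι] :
    ∃ a : ι → ℂ, AlgebraicIndependent K a := by
  obtain ⟨s, hs⟩ := exists_isTranscendenceBasis K ℂ
  have hKc : Cardinal.mk K ≤ Cardinal.aleph0 := Cardinal.le_aleph0_iff_set_countable.mpr hK
  have hinf : Infinite s := by
    by_contra hfin
    rw [not_infinite_iff_finite] at hfin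
    have h1 : Algebra.IsAlgebraic (Algebra.adjoin K (Set.range (Subtype.val : s → ℂ))) ℂ :=
      hs.isAlgebraic
    have h2 := Algebra.cardinalMk_adjoin_le K (Set.range (Subtype.val : s → ℂ))
    have h3 : Cardinal.mk (Set.range (Subtype.val : s → ℂ)) ≤ Cardinal.aleph0 :=
      Cardinal.le_aleph0_iff_set_countable.mpr (Set.countable_range _)
    have h4 : Cardinal.mk (Algebra.adjoin K (Set.range (Subtype.val : s → ℂ))) ≤
        Cardinal.aleph0 := h2.trans (max_le (max_le hKc h3) le_rfl)
    have h5 := Algebra.IsAlgebraic.cardinalMk_le_max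
      (Algebra.adjoin K (Set.range (Subtype.val : s → ℂ))) ℂ
    have h6 : Cardinal.mk ℂ ≤ Cardinal.aleph0 := h5.trans (max_le h4 le_rfl)
    rw [Cardinal.mk_complex] at h6
    exact absurd h6 (not_le.mpr Cardinal.aleph0_lt_continuum)
  obtain ⟨f⟩ : Nonempty (ι ↪ s) := by
    have f1 : ι ≃ Fin (Fintype.card ι) := Fintype.equivFin ι
    exact ⟨(f1.toEmbedding.trans Fin.valEmbedding).trans (Infinite.natEmbedding s)⟩
  exact ⟨(Subtype.val : s → ℂ) ∘ f, hs.1.comp f f.injective⟩

end VRJ
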