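import Pool.Agent.VRJ.Jet

/-!
# VRJ-AnsZ: answers of the oracle as values of polynomials
-/

namespace VRJ

open MvPolynomial

/-- the answer of order `0` is the value of the polynomial -/
theorem ans_zero (Φ : Orc) (w : List ℂ) {L : ℕ} (hL : w.length = L) (y : Fin L → ℂ)
    (hy : ∀ i : Fin L, w.getD i 0 = y i) : ans Φ 0 w = eval y (Φ L) := by
  subst hL
  have key : ∀ (M : ℕ) (hM : M = w.length), jet (Φ M) 0
      (fun l i => w.getD (l * (0 + 1) + i) 0) = eval y (Φ w.length) := by
    intro M hM
    subst hM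
    rw [jet_zero, aeval_eq_eval]
    congr 2
    funext l
    rw [← hy l]
    congr 1
    omega
  exact key _ (by simp)

/-- the answer to a query of given order and length is a polynomial function of the entries -/
theorem ans_poly (Φ : Orc) (k m : ℕ) : ∃ J : MvPolynomial (Fin m) ℂ, ∀ (u : List ℂ)
    (h : u.length = m), ans Φ k u = eval (fun i : Fin m => u.get (i.cast h.symm)) J := by
  refine ⟨jet (Φ (m / (k + 1))) k fun l i => if h : l * (k + 1) + i < m then
    (X ⟨l * (k + 1) + i, h⟩ : MvPolynomial (Fin m) ℂ) else 0, ?_⟩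
  intro u h
  subst h
  have h1 := jet_map (aeval (fun i : Fin u.length => u.get i) :
    MvPolynomial (Fin u.length) ℂ →ₐ[ℂ] ℂ) (Φ (u.length / (k + 1))) k
    (fun l i => if h : l * (k + 1) + i < u.length then
      (X ⟨l * (k + 1) + i, h⟩ : MvPolynomial (Fin u.length) ℂ) else 0)
  unfold ans
  rw [← aeval_eq_eval]
  refine Eq.trans ?_ h1.symm
  congr 1
  funext l i
  by_cases hl : (l : ℕ) * (k + 1) + i < u.length
  · rw [dif_pos hl, aeval_X, List.getD_eq_getElem?_getD, List.getElem?_eq_getElem hl]
    rfl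
  · rw [dif_neg hl, map_zero, List.getD_eq_getElem?_getD, List.getElem?_eq_none (by omega)]
    rfl

end VRJ
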