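import Pool.Agent.VRJ.ConDef

/-!
# VRJ-ConA: elementary properties of constructible sets of points

Boolean operations and preimages under polynomial maps, from the corresponding facts for constructible
sets of the spectrum of a polynomial ring.
-/

namespace VRJ

open MvPolynomial

theorem con_zero {m : ℕ} (f : MvPolynomial (Fin m) ℂ) : Con {z | eval z f = 0} := by
  refine ⟨(PrimeSpectrum.basicOpen f : Set (PrimeSpectrum (MvPolynomial (Fin m) ℂ)))ᶜ,
    Topology.isConstructible_compl.2 PrimeSpectrum.isConstructible_basicOpen, fun z => ?_⟩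
  rw [Set.mem_compl_iff, SetLike.mem_coe, PrimeSpectrum.mem_basicOpen, not_not, Set.mem_ofPred_eq]
  exact (RingHom.mem_ker (f := eval z)).symm

theorem con_compl {m : ℕ} {S : Set (Fin m → ℂ)} (h : Con S) : Con Sᶜ := by
  obtain ⟨T, hT, hS⟩ := h
  refine ⟨Tᶜ, Topology.isConstructible_compl.2 hT, fun z => ?_⟩
  rw [Set.mem_compl_iff, Set.mem_compl_iff, hS z]

theorem con_union {m : ℕ} {S S' : Set (Fin m → ℂ)} (h : Con S) (h' : Con S') : Con (S ∪ S') := by
  obtain ⟨T, hT, hS⟩ := h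
  obtain ⟨T', hT', hS'⟩ := h'
  refine ⟨T ∪ T', hT.union hT', fun z => ?_⟩
  rw [Set.mem_union, Set.mem_union, hS z, hS' z]

theorem con_inter {m : ℕ} {S S' : Set (Fin m → ℂ)} (h : Con S) (h' : Con S') : Con (S ∩ S') := by
  obtain ⟨T, hT, hS⟩ := h
  obtain ⟨T', hT', hS'⟩ := h'
  refine ⟨T ∩ T', hT.inter hT', fun z => ?_⟩
  rw [Set.mem_inter_iff, Set.mem_inter_iff, hS z, hS' z]

theorem con_univ {m : ℕ} : Con (Set.univ : Set (Fin m → ℂ)) :=
  ⟨Set.univ, Topology.IsConstructible.univ, fun z => by simp⟩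

theorem con_empty {m : ℕ} : Con (∅ : Set (Fin m → ℂ)) :=
  ⟨∅, Topology.IsConstructible.empty, fun z => by simp⟩

theorem con_list {m : ℕ} {α : Type} (l : List α) (S : α → Set (Fin m → ℂ))
    (h : ∀ o ∈ l, Con (S o)) : Con {z | ∃ o ∈ l, z ∈ S o} := by
  induction l with
  | nil =>
    have : {z | ∃ o ∈ ([] : List α), z ∈ S o} = (∅ : Set (Fin m → ℂ)) := by
      ext z; simp
    rw [this]
    exact con_empty
  | cons a l ih =>
    have : {z | ∃ o ∈ a :: l, z ∈ S o} = S a ∪ {z | ∃ o ∈ l, z ∈ S o} := by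
      ext z; simp
    rw [this]
    exact con_union (h a (by simp)) (ih fun o ho => h o (by simp [ho]))

theorem con_le {m : ℕ} (B : ℕ) (S : ℕ → Set (Fin m → ℂ)) (h : ∀ q ≤ B, Con (S q)) :
    Con {z | ∃ q ≤ B, z ∈ S q} := by
  have h1 := con_list (List.range (B + 1)) S fun o ho => h o (by
    rw [List.mem_range] at ho
    omega)
  have h2 : {z | ∃ q ≤ B, z ∈ S q} = {z | ∃ o ∈ List.range (B + 1), z ∈ S o} := by
    ext z
    simp only [Set.mem_ofPred_eq, List.mem_range, Nat.lt_succ_iff]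
  rw [h2]
  exact h1

/-- preimages under polynomial maps -/
theorem con_pre {m m' : ℕ} {S : Set (Fin m → ℂ)} (h : Con S)
    (p : Fin m → MvPolynomial (Fin m') ℂ) : Con {z : Fin m' → ℂ | (fun i => eval z (p i)) ∈ S} := by
  obtain ⟨T, hT, hS⟩ := h
  obtain ⟨D, rfl⟩ := PrimeSpectrum.exists_constructibleSetData_iff.2 hT
  let φ : MvPolynomial (Fin m) ℂ →+* MvPolynomial (Fin m') ℂ := (bind₁ p).toRingHom
  refine ⟨(D.map φ).toSet, (D.map φ).isConstructible_toSet, fun z => ?_⟩
  rw [PrimeSpectrum.ConstructibleSetData.toSet_map, Set.mem_preimage, Set.mem_ofPred_eq, hS]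
  have h1 : PrimeSpectrum.comap φ (spt z) = spt (fun i => eval z (p i)) := by
    apply PrimeSpectrum.ext
    ext f
    show φ f ∈ RingHom.ker (eval z) ↔ f ∈ RingHom.ker (eval fun i => eval z (p i))
    rw [RingHom.mem_ker, RingHom.mem_ker]
    have h2 : eval z (φ f) = eval (fun i => eval z (p i)) f := by
      show eval z (bind₁ p f) = _
      exact eval₂Hom_bind₁ (RingHom.id ℂ) z p f
    rw [h2]
  rw [h1]

end VRJ
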