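import Pool.Agent.VRJ.ConDef

/-!
# VRJ-ConProj: projections of constructible sets (Chevalley)
-/

namespace VRJ

open MvPolynomial

private theorem conProj_mem_spt {m : ℕ} (z : Fin m → ℂ) (p : MvPolynomial (Fin m) ℂ) :
    p ∈ (spt z).asIdeal ↔ eval z p = 0 := by
  show p ∈ RingHom.ker (eval z) ↔ _
  rw [RingHom.mem_ker]

private theorem conProj_spt_inj {m : ℕ} {z w : Fin m → ℂ} (h : spt z = spt w) : z = w := by
  funext i
  have h1 : (X i - C (z i) : MvPolynomial (Fin m) ℂ) ∈ (spt z).asIdeal := by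
    rw [conProj_mem_spt]; simp
  rw [h, conProj_mem_spt] at h1
  simp only [eval_sub, eval_X, eval_C] at h1
  exact (sub_eq_zero.mp h1).symm

private theorem conProj_comap {m q : ℕ} (w : Fin (m + q) → ℂ) :
    PrimeSpectrum.comap (rename (Fin.castAdd q) :
      MvPolynomial (Fin m) ℂ →ₐ[ℂ] MvPolynomial (Fin (m + q)) ℂ).toRingHom (spt w) =
      spt (fun i => w (Fin.castAdd q i)) := by
  ext p
  rw [PrimeSpectrum.comap_asIdeal, Ideal.mem_comap, conProj_mem_spt, conProj_mem_spt]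
  show eval w (rename (Fin.castAdd q) p) = 0 ↔ _
  rw [eval_rename]
  rfl

private theorem conProj_fp (m q : ℕ) : ((rename (Fin.castAdd q) :
      MvPolynomial (Fin m) ℂ →ₐ[ℂ] MvPolynomial (Fin (m + q)) ℂ).toRingHom).FinitePresentation := by
  refine RingHom.FinitePresentation.of_finiteType.mp ?_
  refine RingHom.FiniteType.of_comp_finiteType (f := (C : ℂ →+* MvPolynomial (Fin m) ℂ)) ?_
  have h1 : ((rename (Fin.castAdd q) :
      MvPolynomial (Fin m) ℂ →ₐ[ℂ] MvPolynomial (Fin (m + q)) ℂ).toRingHom).comp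
      (C : ℂ →+* MvPolynomial (Fin m) ℂ) = algebraMap ℂ (MvPolynomial (Fin (m + q)) ℂ) := by
    ext c
    · show coeff _ (rename (Fin.castAdd q) (C c)) = _
      rw [rename_C]
      rfl
  rw [h1]
  exact RingHom.finiteType_algebraMap.mpr inferInstance

/-- a closed point in a nonempty intersection of a constructible and a closed set -/
private theorem conProj_closed {R : Type*} [CommRing R] [IsJacobsonRing R]
    {T F : Set (PrimeSpectrum R)} (hT : Topology.IsConstructible T) (hF : IsClosed F)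
    {x : PrimeSpectrum R} (hxT : x ∈ T) (hxF : x ∈ F) :
    ∃ y ∈ T ∩ F, IsClosed ({y} : Set (PrimeSpectrum R)) := by
  obtain ⟨S, rfl⟩ := PrimeSpectrum.exists_constructibleSetData_iff.mpr hT
  rw [PrimeSpectrum.ConstructibleSetData.toSet, Set.mem_iUnion₂] at hxT
  obtain ⟨B, hB, hxB⟩ := hxT
  have hlc : IsLocallyClosed (B.toSet ∩ F) := by
    refine IsLocallyClosed.inter ?_ hF.isLocallyClosed
    rw [PrimeSpectrum.BasicConstructibleSetData.toSet, Set.sdiff_eq]
    exact (PrimeSpectrum.isClosed_zeroLocus _).isLocallyClosed.inter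
      (PrimeSpectrum.isClosed_zeroLocus _).isOpen_compl.isLocallyClosed
  obtain ⟨y, ⟨hy1, hy2⟩, hy3⟩ := nonempty_inter_closedPoints (Z := B.toSet ∩ F)
    ⟨x, hxB, hxF⟩ hlc
  refine ⟨y, ⟨?_, hy2⟩, hy3⟩
  rw [PrimeSpectrum.ConstructibleSetData.toSet, Set.mem_iUnion₂]
  exact ⟨B, hB, hy1⟩

private theorem conProj_closed_pt {m : ℕ} {y : PrimeSpectrum (MvPolynomial (Fin m) ℂ)}
    (hy : IsClosed ({y} : Set (PrimeSpectrum (MvPolynomial (Fin m) ℂ)))) :
    ∃ w : Fin m → ℂ, y = spt w := by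
  rw [PrimeSpectrum.isClosed_singleton_iff_isMaximal,
    MvPolynomial.isMaximal_iff_eq_vanishingIdeal_singleton] at hy
  obtain ⟨w, hw⟩ := hy
  refine ⟨w, ?_⟩
  ext p
  rw [conProj_mem_spt, hw, mem_vanishingIdeal_singleton_iff]
  rfl

private theorem conProj_spt_closed {m : ℕ} (z : Fin m → ℂ) :
    IsClosed ({spt z} : Set (PrimeSpectrum (MvPolynomial (Fin m) ℂ))) := by
  rw [PrimeSpectrum.isClosed_singleton_iff_isMaximal]
  exact RingHom.ker_isMaximal_of_surjective (eval z) (fun c => ⟨C c, by simp⟩)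

theorem con_proj {m q : ℕ} {S : Set (Fin (m + q) → ℂ)} (h : Con S) :
    Con {z : Fin m → ℂ | ∃ y : Fin q → ℂ, Fin.append z y ∈ S} := by
  obtain ⟨T, hT, hS⟩ := h
  refine ⟨PrimeSpectrum.comap (rename (Fin.castAdd q) :
      MvPolynomial (Fin m) ℂ →ₐ[ℂ] MvPolynomial (Fin (m + q)) ℂ).toRingHom '' T,
    PrimeSpectrum.isConstructible_comap_image (conProj_fp m q) hT, ?_⟩
  intro z
  constructor
  · rintro ⟨y, hy⟩
    refine ⟨spt (Fin.append z y), (hS _).mp hy, ?_⟩
    rw [conProj_comap]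
    congr 1
    funext i
    simp
  · rintro ⟨x, hxT, hx⟩
    have hF := (conProj_spt_closed z).preimage (PrimeSpectrum.continuous_comap
      (rename (Fin.castAdd q) :
        MvPolynomial (Fin m) ℂ →ₐ[ℂ] MvPolynomial (Fin (m + q)) ℂ).toRingHom)
    obtain ⟨y, ⟨hyT, hyF⟩, hy⟩ := conProj_closed hT hF hxT hx
    obtain ⟨w, rfl⟩ := conProj_closed_pt hy
    have h1 : spt (fun i => w (Fin.castAdd q i)) = spt z := by
      rw [← conProj_comap]; exact hyF
    have h2 := conProj_spt_inj h1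
    refine ⟨fun j => w (Fin.natAdd m j), ?_⟩
    rw [← h2, Fin.append_castAdd_natAdd]
    exact (hS _).mpr hyT

end VRJ
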