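import Pool.Agent.VRJ.Jet

/-!
# VRJ-Dcal: calculus of differentials

## Plan
Most of the proofs are those of `Pool/Agent/VRB/Dcal.lean` (copy and adapt): `dd` is additive,
`dd (x * y) = x • dd y + y • dd x`. `dd_jet`: by `jet_expand` and `dd_mul` it suffices that
`dd (jet (monomial m 1) k z)` is in the span: the set of polynomials `F` such that for all `k' ≤ k` the
differential `dd (jet F k' z)` is in the span of the `dd (z l i)`, `i ≤ k`, contains `1`, the `X l` (`jet_X`) and is closed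
under products (`jet_mul`); so it contains the monomials.
`dc` may be computed with any finite set of exponents containing the support. `dc_comb`: as in VRB
with `jet (monomial m 1) k z` instead of `∏ v, z v ^ m v` and `jet_expand`. `dc_low`: the coefficients of
`mono n p` are `0` or `1`. `dc_vanish`: exchange the sums.
-/

namespace VRJ

open MvPolynomial

theorem dd_add (x y : ℂ) : dd (x + y) = dd x + dd y := by
  exact map_add _ x y

theorem dd_sub (x y : ℂ) : dd (x - y) = dd x - dd y := by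
  exact map_sub _ x y

theorem dd_mul (x y : ℂ) : dd (x * y) = x • dd y + y • dd x := by
  exact Derivation.leibniz _ x y

theorem dd_zero : dd 0 = 0 := by
  exact map_zero _

theorem dd_one : dd 1 = 0 := by
  exact Derivation.map_one_eq_zero _

theorem dd_mem {K : Subfield ℂ} {x : ℂ} (h : x ∈ K) : dd x ∈ dK K := by
  exact Submodule.subset_span ⟨x, h, rfl⟩

theorem dK_mono {K K' : Subfield ℂ} (h : K ≤ K') : dK K ≤ dK K' := by
  apply Submodule.span_mono
  rintro _ ⟨x, hx, rfl⟩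
  exact ⟨x, h hx, rfl⟩

private theorem dcal_sum {ι : Type*} (s : Finset ι) (f : ι → ℂ) :
    dd (∑ i ∈ s, f i) = ∑ i ∈ s, dd (f i) := by
  exact map_sum _ f s

private theorem dcal_one {L : ℕ} (k : ℕ) (z : Fin L → ℕ → ℂ) (S : Submodule ℂ Om) :
    dd (jet (1 : MvPolynomial (Fin L) ℂ) k z) ∈ S := by
  rw [← map_one (C : ℂ →+* MvPolynomial (Fin L) ℂ), jet_C]
  split_ifs
  · rw [map_one, dd_one]
    exact S.zero_mem
  · rw [dd_zero]
    exact S.zero_mem

private theorem dcal_jmul {L : ℕ} {F G : MvPolynomial (Fin L) ℂ} {k : ℕ} {z : Fin L → ℕ → ℂ}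
    {S : Submodule ℂ Om} (hF : ∀ j ≤ k, dd (jet F j z) ∈ S) (hG : ∀ j ≤ k, dd (jet G j z) ∈ S) :
    ∀ j ≤ k, dd (jet (F * G) j z) ∈ S := by
  intro j hj
  rw [jet_mul, dcal_sum]
  apply Submodule.sum_mem
  intro i hi
  have hi' : i ≤ j := Nat.lt_succ_iff.1 (Finset.mem_range.1 hi)
  rw [dd_mul]
  exact S.add_mem (S.smul_mem _ (hG _ (le_trans (Nat.sub_le _ _) hj)))
    (S.smul_mem _ (hF _ (le_trans hi' hj)))

private theorem dcal_jpow {L : ℕ} {F : MvPolynomial (Fin L) ℂ} {k : ℕ} {z : Fin L → ℕ → ℂ}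
    {S : Submodule ℂ Om} (hF : ∀ j ≤ k, dd (jet F j z) ∈ S) (n : ℕ) :
    ∀ j ≤ k, dd (jet (F ^ n) j z) ∈ S := by
  induction n with
  | zero =>
    intro j _
    rw [pow_zero]
    exact dcal_one j z S
  | succ n ih =>
    rw [pow_succ]
    exact dcal_jmul ih hF

private theorem dcal_jprod {L : ℕ} {ι : Type*} (s : Finset ι) (F : ι → MvPolynomial (Fin L) ℂ)
    {k : ℕ} {z : Fin L → ℕ → ℂ} {S : Submodule ℂ Om}
    (hF : ∀ i ∈ s, ∀ j ≤ k, dd (jet (F i) j z) ∈ S) :
    ∀ j ≤ k, dd (jet (∏ i ∈ s, F i) j z) ∈ S := by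
  classical
  induction s using Finset.induction_on with
  | empty =>
    intro j _
    rw [Finset.prod_empty]
    exact dcal_one j z S
  | insert i s hi ih =>
    rw [Finset.prod_insert hi]
    exact dcal_jmul (hF i (Finset.mem_insert_self _ _))
      (ih fun j hj => hF j (Finset.mem_insert_of_mem hj))

private theorem dcal_jmono {L : ℕ} (m : Fin L →₀ ℕ) (k : ℕ) (z : Fin L → ℕ → ℂ) :
    dd (jet (monomial m (1 : ℂ)) k z) ∈
      Submodule.span ℂ (Set.range fun p : Fin L × Fin (k + 1) => dd (z p.1 p.2)) := by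
  have hm : (monomial m (1 : ℂ) : MvPolynomial (Fin L) ℂ) = ∏ i ∈ m.support, X i ^ m i := by
    rw [monomial_eq, map_one, one_mul, Finsupp.prod]
  rw [hm]
  refine dcal_jprod m.support _ (k := k) (fun i _ => dcal_jpow ?_ _) k le_rfl
  intro j hj
  rw [jet_X]
  exact Submodule.subset_span ⟨(i, ⟨j, Nat.lt_succ_iff.2 hj⟩), rfl⟩

/-- the differential of a Taylor coefficient -/
theorem dd_jet {L : ℕ} (F : MvPolynomial (Fin L) ℂ) (k : ℕ) (z : Fin L → ℕ → ℂ) :
    dd (jet F k z) - dc F k z ∈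
      Submodule.span ℂ (Set.range fun p : Fin L × Fin (k + 1) => dd (z p.1 p.2)) := by
  rw [jet_expand, dcal_sum, dc, ← Finset.sum_sub_distrib]
  apply Submodule.sum_mem
  intro m _
  rw [dd_mul, add_sub_cancel_right]
  apply Submodule.smul_mem
  exact dcal_jmono m k z

theorem dc_coefIn {L : ℕ} {K : Subfield ℂ} {F : MvPolynomial (Fin L) ℂ} (h : CoefIn K F) (k : ℕ)
    (z : Fin L → ℕ → ℂ) : dc F k z ∈ dK K := by
  apply Submodule.sum_mem
  intro m _
  exact Submodule.smul_mem _ _ (dd_mem (h m))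

private theorem dcal_sub {L : ℕ} (F : MvPolynomial (Fin L) ℂ) (k : ℕ) (z : Fin L → ℕ → ℂ)
    (T : Finset (Fin L →₀ ℕ)) (h : F.support ⊆ T) :
    dc F k z = ∑ m ∈ T, jet (monomial m (1 : ℂ)) k z • dd (coeff m F) := by
  rw [dc]
  apply Finset.sum_subset h
  intro m _ hm
  rw [notMem_support_iff.1 hm, dd_zero, smul_zero]

private theorem dcal_add {L : ℕ} (F G : MvPolynomial (Fin L) ℂ) (k : ℕ) (z : Fin L → ℕ → ℂ) :
    dc (F + G) k z = dc F k z + dc G k z := by
  classical
  rw [dcal_sub (F + G) k z (F.support ∪ G.support) support_add,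
    dcal_sub F k z (F.support ∪ G.support) Finset.subset_union_left,
    dcal_sub G k z (F.support ∪ G.support) Finset.subset_union_right, ← Finset.sum_add_distrib]
  refine Finset.sum_congr rfl fun m _ => ?_
  rw [coeff_add, dd_add, smul_add]

private theorem dcal_zero {L : ℕ} (k : ℕ) (z : Fin L → ℕ → ℂ) :
    dc (0 : MvPolynomial (Fin L) ℂ) k z = 0 := by
  simp [dc]

private theorem dcal_fsum {L : ℕ} {ι : Type*} (s : Finset ι) (F : ι → MvPolynomial (Fin L) ℂ)
    (k : ℕ) (z : Fin L → ℕ → ℂ) : dc (∑ i ∈ s, F i) k z = ∑ i ∈ s, dc (F i) k z := by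
  classical
  induction s using Finset.induction_on with
  | empty => simp [dcal_zero]
  | insert i s hi ih => rw [Finset.sum_insert hi, dcal_add, ih, Finset.sum_insert hi]

private theorem dcal_C_mul {L : ℕ} (a : ℂ) (g : MvPolynomial (Fin L) ℂ) (k : ℕ)
    (z : Fin L → ℕ → ℂ) : dc (C a * g) k z = jet g k z • dd a + a • dc g k z := by
  have hs : (C a * g).support ⊆ g.support := by
    intro m hm
    rw [mem_support_iff, coeff_C_mul] at hm
    rw [mem_support_iff]
    intro h0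
    exact hm (by rw [h0, mul_zero])
  rw [dcal_sub (C a * g) k z g.support hs, jet_expand g, dc, Finset.sum_smul,
    Finset.smul_sum, ← Finset.sum_add_distrib]
  refine Finset.sum_congr rfl fun m _ => ?_
  rw [coeff_C_mul, dd_mul, smul_add, smul_smul, smul_smul, smul_smul, add_comm,
    mul_comm (coeff m g), mul_comm a]

theorem dc_comb {L M : ℕ} {K : Subfield ℂ} (g : Fin M → MvPolynomial (Fin L) ℂ) (a : Fin M → ℂ)
    (hg : ∀ k, CoefIn K (g k)) (j : ℕ) (z : Fin L → ℕ → ℂ) :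
    dc (∑ k, C (a k) * g k) j z - ∑ k, jet (g k) j z • dd (a k) ∈ dK K := by
  rw [dcal_fsum, ← Finset.sum_sub_distrib]
  apply Submodule.sum_mem
  intro k _
  rw [dcal_C_mul, add_sub_cancel_left]
  exact Submodule.smul_mem _ _ (dc_coefIn (hg k) j z)

private theorem dcal_mono (n : ℕ) (p : Mon n) (k : ℕ) (z : Fin (6 * n + 1) → ℕ → ℂ) :
    dc (mono n p) k z = 0 := by
  have h : mono n p = MvPolynomial.map (algebraMap ℚ ℂ)
      ((∏ i : Fin n, X ⟨i, by omega⟩ ^ (p.1 i : ℕ)) *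
        ∏ i : Fin n, X ⟨n + i, by omega⟩ ^ (p.2 i : ℕ)) := by
    rw [mono, map_mul, map_prod, map_prod]
    simp only [map_pow, map_X]
  rw [dc]
  apply Finset.sum_eq_zero
  intro m _
  rw [h, coeff_map]
  have : dd (algebraMap ℚ ℂ (coeff m ((∏ i : Fin n, X ⟨i, by omega⟩ ^ (p.1 i : ℕ)) *
      ∏ i : Fin n, X ⟨n + i, by omega⟩ ^ (p.2 i : ℕ) : MvPolynomial (Fin (6 * n + 1)) ℚ))) = 0 :=
    Derivation.map_algebraMap _ _
  rw [this, smul_zero]

theorem dc_low {n : ℕ} (a : Mon n → ℂ) (j : ℕ) (z : Fin (6 * n + 1) → ℕ → ℂ) :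
    dc (∑ p, C (a p) * mono n p) j z = ∑ p, jet (mono n p) j z • dd (a p) := by
  rw [dcal_fsum]
  refine Finset.sum_congr rfl fun p _ => ?_
  rw [dcal_C_mul, dcal_mono, smul_zero, add_zero]

/-- a combination of Taylor coefficients which vanishes for all polynomials vanishes for the
differentials of the coefficients -/
theorem dc_vanish {L : ℕ} (F : MvPolynomial (Fin L) ℂ) {ι : Type} (s : Finset ι) (μ : ι → ℂ)
    (k : ι → ℕ) (z : ι → Fin L → ℕ → ℂ)
    (h : ∀ G : MvPolynomial (Fin L) ℂ, ∑ i ∈ s, μ i * jet G (k i) (z i) = 0) :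
    ∑ i ∈ s, μ i • dc F (k i) (z i) = 0 := by
  have h1 : ∀ i ∈ s, μ i • dc F (k i) (z i) =
      ∑ m ∈ F.support, (μ i * jet (monomial m (1 : ℂ)) (k i) (z i)) • dd (coeff m F) := by
    intro i _
    rw [dc, Finset.smul_sum]
    refine Finset.sum_congr rfl fun m _ => ?_
    rw [smul_smul]
  rw [Finset.sum_congr rfl h1, Finset.sum_comm]
  apply Finset.sum_eq_zero
  intro m _
  rw [← Finset.sum_smul, h, zero_smul]

end VRJ
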