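import Pool.Agent.VRJ.Dli
import Pool.Agent.VRJ.Dcal

/-!
# VRJ-GenTest: a generic polynomial does not vanish at `m + 1` points with `m` parameters

## Plan
As in `Pool/Agent/VRB/GenTest.lean` (copy and adapt): use the constant curves `z v 0 = y v`,
`z v i = 0` for `i > 0`, order `0`: `jet_zero`, `dd_jet`, `dc_comb`. The separation of the `m + 1` points follows
from the last property of `Gen` with `S` = the set of these points and `G` = the product of the linear
forms `X v - C (y' v)` over `y' ≠ y0`, which is not zero at `y0` and zero at the other points.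
-/

namespace VRJ

open MvPolynomial

/-- the constant curve -/
private def zc {L : ℕ} (y : Fin L → ℂ) : Fin L → ℕ → ℂ := fun v i => if i = 0 then y v else 0

private theorem zc_zero {L : ℕ} (y : Fin L → ℂ) : (fun v => zc y v 0) = y := by
  funext v
  simp [zc]

private theorem jet_zc {L : ℕ} (F : MvPolynomial (Fin L) ℂ) (y : Fin L → ℂ) :
    jet F 0 (zc y) = eval y F := by
  rw [jet_zero, zc_zero]
  rfl

/-- a polynomial which vanishes at all but one of finitely many points -/
private theorem exists_sep {L m : ℕ} (y : Fin (m + 1) → (Fin L → ℂ))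
    (hinj : Function.Injective y) (j0 : Fin (m + 1)) :
    ∃ G : MvPolynomial (Fin L) ℂ, eval (y j0) G ≠ 0 ∧ ∀ j, j ≠ j0 → eval (y j) G = 0 := by
  classical
  have h1 : ∀ j, j ≠ j0 → ∃ v, y j v ≠ y j0 v := by
    intro j hj
    by_contra hcon
    push Not at hcon
    exact hj (hinj (funext hcon))
  have h2 : ∀ j, ∃ P : MvPolynomial (Fin L) ℂ, j ≠ j0 → eval (y j0) P ≠ 0 ∧ eval (y j) P = 0 := by
    intro j
    by_cases hj : j = j0
    · exact ⟨0, fun h => absurd hj h⟩
    · obtain ⟨v, hv⟩ := h1 j hj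
      refine ⟨X v - C (y j v), fun _ => ⟨?_, ?_⟩⟩
      · rw [map_sub, eval_X, eval_C]
        exact sub_ne_zero.2 (fun h => hv h.symm)
      · rw [map_sub, eval_X, eval_C, sub_self]
  choose P hP using h2
  refine ⟨∏ j ∈ Finset.univ.erase j0, P j, ?_, ?_⟩
  · rw [map_prod]
    exact Finset.prod_ne_zero_iff.2 fun j hj => (hP j (Finset.ne_of_mem_erase hj)).1
  · intro j hj
    rw [map_prod]
    exact Finset.prod_eq_zero (Finset.mem_erase.2 ⟨hj, Finset.mem_univ j⟩) (hP j hj).2

theorem gen_test {K : Subfield ℂ} {L : ℕ} {Y : Set (Fin L → ℂ)} {R : ℕ}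
    {F : MvPolynomial (Fin L) ℂ} (h : Gen K Y R F) {m : ℕ} (z : Fin m → ℂ)
    (y : Fin (m + 1) → (Fin L → ℂ)) (hinj : Function.Injective y) (hY : ∀ j, y j ∉ Y)
    (hR : m + 1 ≤ R) (hc : ∀ j v, y j v ∈ K ∨ ∃ i, y j v = z i) : ∃ j, eval (y j) F ≠ 0 := by
  obtain ⟨M, g, a, hg, ha, hF, -, hsep⟩ := h
  by_contra hcon
  push Not at hcon
  -- the values of the linear part lie in the span of the parameters modulo `dK K`
  have hspan : ∀ j, Submodule.span ℂ
      (Set.range fun p : Fin L × Fin (0 + 1) => dd (zc (y j) p.1 p.2)) ≤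
      Submodule.span ℂ (Set.range fun i => dd (z i)) ⊔ dK K := by
    intro j
    rw [Submodule.span_le]
    rintro _ ⟨⟨v, i0⟩, rfl⟩
    have hv : zc (y j) v i0 = y j v := by
      have h0 : (i0 : ℕ) = 0 := by omega
      simp [zc, h0]
    change dd (zc (y j) v i0) ∈ _
    rw [hv]
    rcases hc j v with h1 | ⟨i, h1⟩
    · exact Submodule.mem_sup_right (dd_mem h1)
    · apply Submodule.mem_sup_left
      rw [h1]
      exact Submodule.subset_span ⟨i, rfl⟩
  have hW : ∀ j, ∑ k, eval (y j) (g k) • dd (a k) ∈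
      Submodule.span ℂ (Set.range fun i => dd (z i)) ⊔ dK K := by
    intro j
    have h1 := hspan j (dd_jet F 0 (zc (y j)))
    rw [jet_zc, hcon j, dd_zero, zero_sub] at h1
    have h2 : dc F 0 (zc (y j)) - ∑ k, eval (y j) (g k) • dd (a k) ∈
        Submodule.span ℂ (Set.range fun i => dd (z i)) ⊔ dK K := by
      have h5 := dc_comb g a hg 0 (zc (y j))
      simp only [jet_zc] at h5
      rw [hF]
      exact Submodule.mem_sup_right h5
    have h3 := Submodule.neg_mem _ (Submodule.add_mem _ h1 h2)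
    have h4 : -(-dc F 0 (zc (y j)) + (dc F 0 (zc (y j)) - ∑ k, eval (y j) (g k) • dd (a k))) =
        ∑ k, eval (y j) (g k) • dd (a k) := by
      abel
    rwa [h4] at h3
  have hA : ∀ j, ∃ (A : Fin m → ℂ) (r : Om), r ∈ dK K ∧
      ∑ k, eval (y j) (g k) • dd (a k) = ∑ i, A i • dd (z i) + r := by
    intro j
    obtain ⟨u, hu, r, hr, hur⟩ := Submodule.mem_sup.1 (hW j)
    obtain ⟨A, hA⟩ := (Submodule.mem_span_range_iff_exists_fun ℂ).1 hu
    exact ⟨A, r, hr, by rw [hA, hur]⟩
  choose A r hr hAr using hA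
  -- a nontrivial relation
  obtain ⟨c, hc0, hcne⟩ : ∃ c : Fin (m + 1) → ℂ, (∑ j, c j • A j = 0) ∧ c ≠ 0 := by
    have hker : LinearMap.ker (Fintype.linearCombination ℂ A) ≠ ⊥ := by
      apply LinearMap.ker_ne_bot_of_finrank_lt
      rw [Module.finrank_fin_fun, Module.finrank_fin_fun]
      exact Nat.lt_succ_self m
    obtain ⟨c, hc1, hc2⟩ := Submodule.exists_mem_ne_zero_of_ne_bot hker
    refine ⟨c, ?_, hc2⟩
    have h1 := LinearMap.mem_ker.1 hc1
    rwa [Fintype.linearCombination_apply] at h1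
  have hcA : ∀ i, ∑ j, c j * A j i = 0 := by
    intro i
    have h1 := congrFun hc0 i
    simpa [Finset.sum_apply] using h1
  have hmem : ∑ k, (∑ j, c j * eval (y j) (g k)) • dd (a k) ∈ dK K := by
    have h1 : ∑ k, (∑ j, c j * eval (y j) (g k)) • dd (a k) =
        ∑ j, c j • ∑ k, eval (y j) (g k) • dd (a k) := by
      simp only [Finset.sum_smul, Finset.smul_sum, smul_smul]
      exact Finset.sum_comm
    have h2 : ∑ j, c j • ∑ k, eval (y j) (g k) • dd (a k) = ∑ j, c j • r j := by
      have h3 : ∑ j, c j • ∑ i, A j i • dd (z i) = 0 := by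
        have h4 : ∑ j, c j • ∑ i, A j i • dd (z i) = ∑ i, (∑ j, c j * A j i) • dd (z i) := by
          simp only [Finset.sum_smul, Finset.smul_sum, smul_smul]
          exact Finset.sum_comm
        rw [h4]
        apply Finset.sum_eq_zero
        intro i _
        rw [hcA i, zero_smul]
      calc ∑ j, c j • ∑ k, eval (y j) (g k) • dd (a k)
          = ∑ j, (c j • ∑ i, A j i • dd (z i) + c j • r j) := by
            refine Finset.sum_congr rfl fun j _ => ?_
            rw [hAr j, smul_add]
        _ = ∑ j, c j • r j := by rw [Finset.sum_add_distrib, h3, zero_add]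
    rw [h1, h2]
    exact Submodule.sum_mem _ fun j _ => Submodule.smul_mem _ _ (hr j)
  have hrel : ∀ k, ∑ j, c j * eval (y j) (g k) = 0 := dli ha _ hmem
  apply hcne
  funext j0
  classical
  have hS : (Finset.univ.image y).card ≤ R :=
    le_trans Finset.card_image_le (by simpa using hR)
  obtain ⟨G, hG0, hG⟩ := exists_sep y hinj j0
  obtain ⟨l, hl⟩ := hsep (Finset.univ.image y) hS
    (by
      intro y' hy'
      obtain ⟨j, -, rfl⟩ := Finset.mem_image.1 hy'
      exact hY j) G
  have h1 : ∀ j, ∑ k, l k * eval (y j) (g k) = eval (y j) G := by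
    intro j
    have h5 := hl (zc (y j)) (by
      rw [zc_zero]
      exact Finset.mem_image_of_mem y (Finset.mem_univ j)) 0 (Nat.zero_le _)
    simpa only [jet_zc] using h5
  have h2 : ∑ j, c j * ∑ k, l k * eval (y j) (g k) = 0 := by
    have h3 : ∑ j, c j * ∑ k, l k * eval (y j) (g k) =
        ∑ k, l k * ∑ j, c j * eval (y j) (g k) := by
      simp only [Finset.mul_sum]
      rw [Finset.sum_comm]
      refine Finset.sum_congr rfl fun k _ => Finset.sum_congr rfl fun j _ => ?_
      ring
    rw [h3]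
    apply Finset.sum_eq_zero
    intro k _
    rw [hrel k, mul_zero]
  have h3 : ∑ j, c j * ∑ k, l k * eval (y j) (g k) = c j0 * eval (y j0) G := by
    rw [Finset.sum_eq_single j0]
    · rw [h1 j0]
    · intro j _ hj
      rw [h1 j, hG j hj, mul_zero]
    · intro hj
      exact absurd (Finset.mem_univ j0) hj
  rw [h3] at h2
  exact (mul_eq_zero.1 h2).resolve_right hG0

/-- a generic polynomial vanishes on its algebraic set -/
theorem gen_zero {K : Subfield ℂ} {L : ℕ} {Y : Set (Fin L → ℂ)} {R : ℕ}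
    {F : MvPolynomial (Fin L) ℂ} (h : Gen K Y R F) (hR : 0 < R) {y : Fin L → ℂ} (hy : y ∈ Y) :
    eval y F = 0 := by
  obtain ⟨M, g, a, -, -, hF, hv, -⟩ := h
  rw [hF, map_sum]
  apply Finset.sum_eq_zero
  intro k _
  have h1 := hv k (zc y) 0 hR (by rw [zc_zero]; exact hy)
  rw [jet_zc] at h1
  rw [map_mul, h1, mul_zero]

end VRJ
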