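import Pool.Agent.VRJ.YsetAlg
import Pool.Agent.VRJ.GenTest
import Pool.Agent.VRJ.AnsZ

/-!
# VRJ-Decide: the first nonzero answer decides

`L` = length of the query list, `m = mm e n`. The answer to the query number `r` is the value of `Φ L` at the
point `dpt r` with the coordinates `e, n, r, z, 0`; it is zero if `z ∈ wst (Kset Φ e n) r`. Let `i` be the least
number with `z ∉ chn i`. In block `i` the `m + 1` tests `r` of the parity of `i` do not all have answer `0`
(`gen_test`), and all the tests before block `i` and those of the other parity in block `i` have answer `0`.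
-/

namespace VRJ

open MvPolynomial

private theorem dec_ans_eq (Φ : Orc) (l : List ℂ) (L : ℕ) (y : Fin L → ℂ) (hl : l.length = L)
    (hy : ∀ i : Fin L, l[(i : ℕ)]? = some (y i)) : ans Φ 0 l = eval y (Φ L) := by
  refine ans_zero Φ l hl y fun i => ?_
  rw [List.getD_eq_getElem?_getD, hy i]
  rfl

/-- the point of the query -/
private noncomputable def dpt (e n d : ℕ) (z : Fin (mm e n) → ℂ) (r : ℕ) :
    Fin (3 + mm e n + d) → ℂ := fun v =>
  if (v : ℕ) = 0 then (e : ℂ) else if (v : ℕ) = 1 then (n : ℂ) else if (v : ℕ) = 2 then (r : ℂ)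
  else if h : (v : ℕ) - 3 < mm e n then z ⟨v - 3, h⟩ else 0

private theorem dec_ans (Φ : Orc) (e n d : ℕ) (z : Fin (mm e n) → ℂ) (r : ℕ) :
    ans Φ 0 (ql e n r (List.ofFn z) d) = eval (dpt e n d z r) (Φ (3 + mm e n + d)) := by
  refine dec_ans_eq Φ _ _ _ ?_ ?_
  · simp only [ql, List.length_cons, List.length_append, List.length_ofFn, List.length_replicate]
    omega
  · rintro ⟨v, hv⟩
    rcases v with _ | _ | _ | v
    · simp [ql, dpt]
    · simp [ql, dpt]
    · simp [ql, dpt]
    · simp only [ql, dpt, List.getElem?_cons_succ]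
      have h0 : ¬ v + 1 + 1 + 1 = 0 := by omega
      have h1 : ¬ v + 1 + 1 + 1 = 1 := by omega
      have h2 : ¬ v + 1 + 1 + 1 = 2 := by omega
      rw [if_neg h0, if_neg h1, if_neg h2, List.getElem?_append, List.length_ofFn]
      have e3 : v + 1 + 1 + 1 - 3 = v := by omega
      by_cases hvm : v < mm e n
      · rw [if_pos hvm, List.getElem?_ofFn, dif_pos hvm, dif_pos (by omega)]
        congr 2
      · rw [if_neg hvm, List.getElem?_replicate, if_pos (by omega), dif_neg (by omega)]

private theorem dec_mem (Φ : Orc) (e n d : ℕ) (z : Fin (mm e n) → ℂ) (r : ℕ)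
    (he : e < 3 + mm e n + d) (hl : lb e n < 3 + mm e n + d) (hr : r < 3 + mm e n + d) :
    dpt e n d z r ∈ Yset (3 + mm e n + d) Φ ↔ z ∈ wst (Kset Φ e n) r := by
  constructor
  · rintro ⟨e', n', r', h, h1, h2, h3, h4, h5, h6, h7⟩
    have e4 : e = e' := by
      have : (e : ℂ) = (e' : ℂ) := by
        rw [← h4]
        simp [dpt]
      exact_mod_cast this
    have e5 : n = n' := by
      have : (n : ℂ) = (n' : ℂ) := by
        rw [← h5]
        simp [dpt]
      exact_mod_cast this
    have e6 : r = r' := by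
      have : (r : ℂ) = (r' : ℂ) := by
        rw [← h6]
        simp [dpt]
      exact_mod_cast this
    subst e4 e5 e6
    have e7 : (fun i : Fin (mm e n) => dpt e n d z r ⟨3 + i, by omega⟩) = z := by
      funext i
      simp only [dpt]
      rw [if_neg (by omega), if_neg (by omega), if_neg (by omega), dif_pos (by have := i.2; omega)]
      congr 1
      ext
      simp
    rw [e7] at h7
    exact h7
  · intro h
    refine ⟨e, n, r, by omega, hl, he, hr, ?_, ?_, ?_, ?_⟩
    · simp [dpt]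
    · simp [dpt]
    · simp [dpt]
    · have e7 : (fun i : Fin (mm e n) => dpt e n d z r ⟨3 + i, by omega⟩) = z := by
        funext i
        simp only [dpt]
        rw [if_neg (by omega), if_neg (by omega), if_neg (by omega), dif_pos (by have := i.2; omega)]
        congr 1
        ext
        simp
      rw [e7]
      exact h

private theorem dec_zero {A Φ : Orc} {K : ℕ → Subfield ℂ} (hT : Tower A Φ K (fun L => Yset L Φ))
    (L : ℕ) (h3 : L % 3 = 2) (y : Fin L → ℂ) (hy : y ∈ Yset L Φ) : eval y (Φ L) = 0 :=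
  gen_zero (hT.lev2 L h3) (by positivity) hy

theorem decide_kset {A Φ : Orc} {K : ℕ → Subfield ℂ} (hT : Tower A Φ K (fun L => Yset L Φ))
    (e n d : ℕ) (h3 : (3 + mm e n + d) % 3 = 2) (he : e < 3 + mm e n + d)
    (hl : lb e n < 3 + mm e n + d) (z : Fin (mm e n) → ℂ) :
    ∃ r, r < 3 + mm e n + d ∧ ans Φ 0 (ql e n r (List.ofFn z) d) ≠ 0 ∧
      (∀ r' < r, ans Φ 0 (ql e n r' (List.ofFn z) d) = 0) ∧ (z ∈ Kset Φ e n ↔ Odd r) := by
  classical
  obtain ⟨-, hanti, hempty, hspec⟩ := chn_spec Φ e n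
  have hex : ∃ i, z ∉ chn (Kset Φ e n) i := ⟨mm e n + 2, by rw [hempty]; exact Set.notMem_empty z⟩
  set i0 := Nat.find hex with hi0
  have hi1 : z ∉ chn (Kset Φ e n) i0 := Nat.find_spec hex
  have hi2 : ∀ j < i0, z ∈ chn (Kset Φ e n) j := by
    intro j hj
    have := Nat.find_min hex hj
    exact not_not.1 this
  have hi3 : i0 ≤ mm e n + 2 := Nat.find_min' hex (by rw [hempty]; exact Set.notMem_empty z)
  have hN : i0 * (2 * mm e n + 2) + (2 * mm e n + 2) ≤ 2 * (mm e n + 3) ^ 2 := by
    have h1 : i0 * (2 * mm e n + 2) ≤ (mm e n + 2) * (2 * mm e n + 2) := Nat.mul_le_mul_right _ hi3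
    nlinarith
  have hlb : 2 * (mm e n + 3) ^ 2 ≤ lb e n := by
    unfold lb
    omega
  -- the tests in block `i0` with the parity of `i0`
  have hpar : i0 * (2 * mm e n + 2) % 2 = 0 := by
    have : i0 * (2 * mm e n + 2) = 2 * (i0 * (mm e n + 1)) := by ring
    rw [this]
    omega
  have hrlt : ∀ j : Fin (mm e n + 1),
      i0 * (2 * mm e n + 2) + (2 * (j : ℕ) + i0 % 2) < i0 * (2 * mm e n + 2) + (2 * mm e n + 2) := by
    intro j
    have := j.2
    omega
  have hrL : ∀ j : Fin (mm e n + 1),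
      i0 * (2 * mm e n + 2) + (2 * (j : ℕ) + i0 % 2) < 3 + mm e n + d := by
    intro j
    have := hrlt j
    omega
  have htest : ∃ j : Fin (mm e n + 1), eval
      (dpt e n d z (i0 * (2 * mm e n + 2) + (2 * (j : ℕ) + i0 % 2))) (Φ (3 + mm e n + d)) ≠ 0 := by
    refine gen_test (hT.lev2 _ h3) z
      (fun j => dpt e n d z (i0 * (2 * mm e n + 2) + (2 * (j : ℕ) + i0 % 2))) ?_ ?_ ?_ ?_
    · intro j j' hjj
      have h1 : dpt e n d z (i0 * (2 * mm e n + 2) + (2 * (j : ℕ) + i0 % 2)) ⟨2, by omega⟩ =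
          dpt e n d z (i0 * (2 * mm e n + 2) + (2 * (j' : ℕ) + i0 % 2)) ⟨2, by omega⟩ :=
        congrFun hjj ⟨2, by omega⟩
      have hco : ∀ r : ℕ, dpt e n d z r ⟨2, by omega⟩ = (r : ℂ) := by
        intro r
        simp [dpt]
      rw [hco, hco] at h1
      have h2 : i0 * (2 * mm e n + 2) + (2 * (j : ℕ) + i0 % 2) =
          i0 * (2 * mm e n + 2) + (2 * (j' : ℕ) + i0 % 2) := by exact_mod_cast h1
      ext
      omega
    · intro j hj
      have h1 := (dec_mem Φ e n d z _ he hl (hrL j)).1 hj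
      have hdiv : (i0 * (2 * mm e n + 2) + (2 * (j : ℕ) + i0 % 2)) / (2 * mm e n + 2) = i0 := by
        rw [mul_comm, Nat.mul_add_div (by omega), Nat.div_eq_of_lt (by have := j.2; omega), add_zero]
      unfold wst at h1
      rw [hdiv, if_pos (by omega)] at h1
      exact hi1 h1
    · have : 3 + mm e n + d < 2 ^ (3 + mm e n + d) := Nat.lt_two_pow_self
      omega
    · intro j v
      simp only [dpt]
      split_ifs with a1 a2 a3 a4
      · exact Or.inl (natCast_mem _ _)
      · exact Or.inl (natCast_mem _ _)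
      · exact Or.inl (natCast_mem _ _)
      · exact Or.inr ⟨_, rfl⟩
      · exact Or.inl (zero_mem _)
  obtain ⟨j, hj⟩ := htest
  rw [← dec_ans] at hj
  have hex2 : ∃ r, ans Φ 0 (ql e n r (List.ofFn z) d) ≠ 0 := ⟨_, hj⟩
  set r := Nat.find hex2 with hr
  have hr1 : ans Φ 0 (ql e n r (List.ofFn z) d) ≠ 0 := Nat.find_spec hex2
  have hr2 : ∀ r' < r, ans Φ 0 (ql e n r' (List.ofFn z) d) = 0 := by
    intro r' hr'
    exact not_not.1 (Nat.find_min hex2 hr')
  have hr3 : r ≤ i0 * (2 * mm e n + 2) + (2 * (j : ℕ) + i0 % 2) := Nat.find_min' hex2 hj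
  have hrL' : r < 3 + mm e n + d := lt_of_le_of_lt hr3 (hrL j)
  have hz : z ∉ wst (Kset Φ e n) r := by
    intro hz
    apply hr1
    rw [dec_ans]
    exact dec_zero hT _ h3 _ ((dec_mem Φ e n d z r he hl hrL').2 hz)
  refine ⟨r, hrL', hr1, hr2, ?_⟩
  rw [hspec i0 z hi1 hi2]
  -- the block of `r` is `i0`
  have hb : r / (2 * mm e n + 2) ≤ i0 := by
    have h1 := hrlt j
    rw [← Nat.lt_succ_iff, Nat.div_lt_iff_lt_mul (by omega)]
    have h2 : i0.succ * (2 * mm e n + 2) = i0 * (2 * mm e n + 2) + (2 * mm e n + 2) :=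
      Nat.succ_mul _ _
    omega
  unfold wst at hz
  by_cases hp : r % 2 = (r / (2 * mm e n + 2)) % 2
  · rw [if_pos hp] at hz
    have hbe : r / (2 * mm e n + 2) = i0 := by
      by_contra hne
      exact hz (hi2 _ (lt_of_le_of_ne hb hne))
    rw [hbe] at hp
    rw [Nat.odd_iff, Nat.odd_iff, hp]
  · exfalso
    rw [if_neg hp] at hz
    by_cases h0 : r / (2 * mm e n + 2) = 0
    · rw [if_pos h0] at hz
      exact hz (Set.mem_univ z)
    · rw [if_neg h0] at hz
      exact hz (hi2 _ (lt_of_lt_of_le (Nat.sub_one_lt h0) hb))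

end VRJ
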