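import Mathlib

/-!
# Definitions for project VRJ (MP_50b9ba_lc): arithmetic circuits and BSS machines over the complex
numbers with polynomial oracles, whose Taylor coefficients along curves may be asked for

An oracle `Φ : Orc` is a sequence of complex polynomials, `Φ L` has `L` variables. `jet F k z` is the
coefficient of `τ ^ k` of `F (z 0, .., z (L - 1))`, where the `l`-th argument is the polynomial
`z l 0 + z l 1 * τ + .. + z l k * τ ^ k`. For `k = 0` this is the value of `F` at the point `z l 0`.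

* Machines: while programs `Prog ℂ` for finitely many stacks of complex numbers, constants
  arbitrary, operations `+, -, *, /`, tests for zero and for emptiness, and oracle calls `ask i j`.
  `Run Φ p σ σ' t`: the program `p` transforms the state `σ` into the state `σ'` in time `t`. `InP`,
  `InNP`: the classes `P`, `NP` of the Blum-Shub-Smale model relative to `Φ`.
* Circuits: `Comp Φ s f`: the polynomial `f` is computed by a circuit of size at most `s` with
  operations `+, -, *`, arbitrary complex constants and gates for the polynomials `Φ L` and their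
  Taylor coefficients along curves. `InVP`, `InVNP`: Valiant's classes relative to `Φ`.
-/

namespace VRJ

/-- polynomial oracles: `Φ L` is a polynomial in `L` variables -/
abbrev Orc : Type := ∀ L : ℕ, MvPolynomial (Fin L) ℂ

/-- the coefficient of `τ ^ k` of the value of `F` at the polynomials `∑ i ≤ k, z l i * τ ^ i` -/
noncomputable def jet {R : Type} [CommRing R] [Algebra ℂ R] {L : ℕ} (F : MvPolynomial (Fin L) ℂ)
    (k : ℕ) (z : Fin L → ℕ → R) : R :=
  (MvPolynomial.aeval (fun l => ∑ i ∈ Finset.range (k + 1), Polynomial.monomial i (z l i)) F :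
    Polynomial R).coeff k

/-- programs of a machine with stacks; `α` is the type of the constants -/
inductive Prog (α : Type) : Type
  /-- push the constant `c` on stack `i` -/
  | push (i : ℕ) (c : α) : Prog α
  /-- remove the top of stack `i` -/
  | pop (i : ℕ) : Prog α
  /-- push the top of stack `i` on stack `j` -/
  | copy (i j : ℕ) : Prog α
  /-- replace the two top entries `x`, `y` of stack `i` by `x + y` -/
  | add (i : ℕ) : Prog α
  /-- replace the two top entries `x`, `y` of stack `i` by `x - y` -/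
  | sub (i : ℕ) : Prog α
  /-- replace the two top entries `x`, `y` of stack `i` by `x * y` -/
  | mul (i : ℕ) : Prog α
  /-- replace the two top entries `x`, `y` of stack `i` by `x / y` (by `0` if `y = 0`) -/
  | div (i : ℕ) : Prog α
  /-- oracle call: the content of stack `i` is replaced by the Taylor coefficient of order `k` of the
  oracle along the curve which it describes, where `k` is the length of stack `j` -/
  | ask (i j : ℕ) : Prog α
  /-- first `p`, then `q` -/
  | seq (p q : Prog α) : Prog α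
  /-- if the top of stack `i` is `0` then `p` else `q` -/
  | ifz (i : ℕ) (p q : Prog α) : Prog α
  /-- if stack `i` is empty then `p` else `q` -/
  | ifn (i : ℕ) (p q : Prog α) : Prog α
  /-- while stack `i` is not empty do `p` -/
  | loop (i : ℕ) (p : Prog α) : Prog α

/-- states: the contents of the stacks (the head of the list is the top) -/
abbrev St : Type := ℕ → List ℂ

/-- replace the content of stack `i` -/
def upd (σ : St) (i : ℕ) (l : List ℂ) : St := fun j => if j = i then l else σ j

/-- apply a binary operation to the two top entries -/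
def bin (op : ℂ → ℂ → ℂ) : List ℂ → List ℂ
  | x :: y :: l => op x y :: l
  | l => l

/-- the answer of the oracle to a query of order `k`: the list `w` consists of blocks of length
`k + 1`, the coefficients of polynomials in `τ`; the number of blocks is `L`; the answer is the
coefficient of `τ ^ k` of `Φ L` at these polynomials; for `k = 0`: the value of `Φ |w|` at `w` -/
noncomputable def ans (Φ : Orc) (k : ℕ) (w : List ℂ) : ℂ :=
  jet (Φ (w.length / (k + 1))) k fun l i => w.getD (l * (k + 1) + i) 0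

/-- `Run Φ p σ σ' t`: program `p` transforms the state `σ` into `σ'` in time `t` -/
inductive Run (Φ : Orc) : Prog ℂ → St → St → ℕ → Prop
  | push (i : ℕ) (c : ℂ) (σ : St) : Run Φ (.push i c) σ (upd σ i (c :: σ i)) 1
  | pop (i : ℕ) (σ : St) : Run Φ (.pop i) σ (upd σ i (σ i).tail) 1
  | copy (i j : ℕ) (σ : St) : Run Φ (.copy i j) σ (upd σ j ((σ i).take 1 ++ σ j)) 1
  | add (i : ℕ) (σ : St) : Run Φ (.add i) σ (upd σ i (bin (fun x y => x + y) (σ i))) 1
  | sub (i : ℕ) (σ : St) : Run Φ (.sub i) σ (upd σ i (bin (fun x y => x - y) (σ i))) 1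
  | mul (i : ℕ) (σ : St) : Run Φ (.mul i) σ (upd σ i (bin (fun x y => x * y) (σ i))) 1
  | div (i : ℕ) (σ : St) : Run Φ (.div i) σ (upd σ i (bin (fun x y => x / y) (σ i))) 1
  | ask (i j : ℕ) (σ : St) : Run Φ (.ask i j) σ (upd σ i [ans Φ (σ j).length (σ i)])
      ((σ i).length + (σ j).length + 1)
  | seq {p q : Prog ℂ} {σ σ' σ'' : St} {t t' : ℕ} :
      Run Φ p σ σ' t → Run Φ q σ' σ'' t' → Run Φ (.seq p q) σ σ'' (t + t')
  | ifz_true {i : ℕ} {p q : Prog ℂ} {σ σ' : St} {t : ℕ} :
      (σ i).head? = some 0 → Run Φ p σ σ' t → Run Φ (.ifz i p q) σ σ' (t + 1)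
  | ifz_false {i : ℕ} {p q : Prog ℂ} {σ σ' : St} {t : ℕ} :
      (σ i).head? ≠ some 0 → Run Φ q σ σ' t → Run Φ (.ifz i p q) σ σ' (t + 1)
  | ifn_true {i : ℕ} {p q : Prog ℂ} {σ σ' : St} {t : ℕ} :
      σ i = [] → Run Φ p σ σ' t → Run Φ (.ifn i p q) σ σ' (t + 1)
  | ifn_false {i : ℕ} {p q : Prog ℂ} {σ σ' : St} {t : ℕ} :
      σ i ≠ [] → Run Φ q σ σ' t → Run Φ (.ifn i p q) σ σ' (t + 1)
  | loop_nil {i : ℕ} {p : Prog ℂ} {σ : St} : σ i = [] → Run Φ (.loop i p) σ σ 1
  | loop_cons {i : ℕ} {p : Prog ℂ} {σ σ' σ'' : St} {t t' : ℕ} :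
      σ i ≠ [] → Run Φ p σ σ' t → Run Φ (.loop i p) σ' σ'' t' →
        Run Φ (.loop i p) σ σ'' (t + t' + 1)

/-- the initial state with input `x` on stack `0` and `y` on stack `1` -/
def inp (x y : List ℂ) : St := fun i => if i = 0 then x else if i = 1 then y else []

/-- accepting states: the top of stack `0` is `1` -/
def Acc (σ : St) : Prop := (σ 0).head? = some 1

/-- the class `P` over the complex numbers relative to `Φ` -/
def InP (Φ : Orc) (A : Set (List ℂ)) : Prop :=
  ∃ (p : Prog ℂ) (k : ℕ), ∀ x : List ℂ, ∃ (σ : St) (t : ℕ),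
    Run Φ p (inp x []) σ t ∧ t ≤ (x.length + 2) ^ k ∧ (Acc σ ↔ x ∈ A)

/-- the class `NP` over the complex numbers relative to `Φ` -/
def InNP (Φ : Orc) (A : Set (List ℂ)) : Prop :=
  ∃ (p : Prog ℂ) (k : ℕ),
    (∀ x y : List ℂ, ∃ (σ : St) (t : ℕ),
      Run Φ p (inp x y) σ t ∧ t ≤ (x.length + y.length + 2) ^ k) ∧
    ∀ x : List ℂ, x ∈ A ↔ ∃ (y : List ℂ) (σ : St) (t : ℕ),
      y.length ≤ (x.length + 2) ^ k ∧ Run Φ p (inp x y) σ t ∧ Acc σ

open MvPolynomial in
/-- `f` is computed by an arithmetic circuit with at most `s` gates (variables and constants are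
gates), which may use gates for the polynomials `Φ L` and their Taylor coefficients of order `k`
along curves given by `L * (k + 1)` gates, where `(L + 1) * (k + 1) ≤ s` -/
def Comp (Φ : Orc) (s : ℕ) (f : MvPolynomial ℕ ℂ) : Prop :=
  ∃ g : Fin s → MvPolynomial ℕ ℂ, (∃ i, g i = f) ∧ ∀ i,
    (∃ c : ℂ, g i = C c) ∨ (∃ v : ℕ, g i = X v) ∨
    (∃ j k, j < i ∧ k < i ∧ (g i = g j + g k ∨ g i = g j - g k ∨ g i = g j * g k)) ∨
    (∃ (L k : ℕ) (w : Fin L → ℕ → Fin s), (L + 1) * (k + 1) ≤ s ∧ (∀ l, ∀ r ≤ k, w l r < i) ∧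
      g i = jet (Φ L) k fun l r => g (w l r))

/-- families of polynomials with polynomially bounded degrees and numbers of variables -/
def PFam (f : ℕ → MvPolynomial ℕ ℂ) : Prop :=
  ∃ k : ℕ, ∀ n, (f n).totalDegree ≤ (n + 2) ^ k ∧ ∀ v ∈ (f n).vars, v < (n + 2) ^ k

/-- Valiant's class `VP` relative to `Φ` -/
def InVP (Φ : Orc) (f : ℕ → MvPolynomial ℕ ℂ) : Prop :=
  PFam f ∧ ∃ k : ℕ, ∀ n, Comp Φ ((n + 2) ^ k) (f n)

open MvPolynomial in
/-- keep the variables `X v` with `v < a` and substitute the bits `e` for the next `b` variables -/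
noncomputable def bits (a b : ℕ) (e : Fin b → Bool) : ℕ → MvPolynomial ℕ ℂ := fun v =>
  if v < a then X v else if h : v - a < b then (if e ⟨v - a, h⟩ then 1 else 0) else 0

/-- Valiant's class `VNP` relative to `Φ`: exponential sums of families in `VP` -/
def InVNP (Φ : Orc) (f : ℕ → MvPolynomial ℕ ℂ) : Prop :=
  PFam f ∧ ∃ (g : ℕ → MvPolynomial ℕ ℂ) (a b : ℕ → ℕ), InVP Φ g ∧
    (∃ k : ℕ, ∀ n, a n ≤ (n + 2) ^ k ∧ b n ≤ (n + 2) ^ k) ∧
    ∀ n, f n = ∑ e : Fin (b n) → Bool, MvPolynomial.bind₁ (bits (a n) (b n) e) (g n)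

end VRJ
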