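import Pool.Agent.VRJ.Alg

/-!
# VRJ-Dli: differentials of algebraically independent numbers

## Plan
`dli`: it suffices to show that the differentials `D K ℂ (a i)` in `Ω[ℂ⁄K]` are linearly independent
over `ℂ`: the linear map `KaehlerDifferential.map ℚ K ℂ ℂ : Ω[ℂ⁄ℚ] → Ω[ℂ⁄K]` sends `dd x` to
`D K ℂ x` and `dK K` to `0` (`Derivation.map_algebraMap`). Extend `a` to a transcendence basis
`b : B → ℂ` of `ℂ` over `K` (`exists_isTranscendenceBasis_superset` or
`AlgebraicIndependent.exists...`). Let `S = MvPolynomial B K`, an algebra structure `S → ℂ` by `aeval b`;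
`ℂ` is formally etale over `S`: `Frac S = FractionRing S` is a localization
(`Algebra.FormallyEtale.of_isLocalization`), `ℂ` is algebraic over `FractionRing S` (characteristic
zero, so separable, `Algebra.FormallyEtale.of_isSeparable`), and `Algebra.FormallyEtale.comp`. By
`KaehlerDifferential.isBaseChange_of_formallyEtale` (or `tensorKaehlerEquivOfFormallyEtale`) the
images of the basis `KaehlerDifferential.mvPolynomialBasis` (`D (X i)`) are a basis of `Ω[ℂ⁄K]`
(`IsBaseChange.basis`, `Module.Basis.baseChange`). Alternatively: construct derivations of `ℂ` over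
`K` dual to `b`.
-/

namespace VRJ

open scoped IntermediateField.algebraAdjoinAdjoin in
private theorem etale (K : Subfield ℂ) {β : Type} (b : β → ℂ) (hb : IsTranscendenceBasis K b) :
    Algebra.FormallyEtale (Algebra.adjoin K (Set.range b)) ℂ := by
  have h1 : Algebra.FormallyEtale (Algebra.adjoin K (Set.range b))
      (IntermediateField.adjoin K (Set.range b)) :=
    Algebra.FormallyEtale.of_isLocalization (nonZeroDivisors (Algebra.adjoin K (Set.range b)))
  have h2 : Algebra.IsAlgebraic (IntermediateField.adjoin K (Set.range b)) ℂ := hb.isAlgebraic_field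
  have h3 : Algebra.FormallyEtale (IntermediateField.adjoin K (Set.range b)) ℂ :=
    Algebra.FormallyEtale.of_isSeparable _ _
  exact Algebra.FormallyEtale.comp _ (IntermediateField.adjoin K (Set.range b)) ℂ

/-- the partial derivative with respect to an element of a transcendence basis -/
private noncomputable def dS (K : Subfield ℂ) {β : Type} (b : β → ℂ)
    (hb : AlgebraicIndependent K b) (i : β) : Derivation K (Algebra.adjoin K (Set.range b)) ℂ :=
  Derivation.mk' ((MvPolynomial.aeval b).toLinearMap ∘ₗ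
    (MvPolynomial.pderiv i : Derivation K (MvPolynomial β K) _).toLinearMap ∘ₗ
      hb.repr.toLinearMap) (by
    intro x y
    have h : ∀ z : Algebra.adjoin K (Set.range b), MvPolynomial.aeval b (hb.repr z) = (z : ℂ) :=
      hb.aeval_repr
    show MvPolynomial.aeval b (MvPolynomial.pderiv i (hb.repr (x * y))) =
      x • MvPolynomial.aeval b (MvPolynomial.pderiv i (hb.repr y)) +
        y • MvPolynomial.aeval b (MvPolynomial.pderiv i (hb.repr x))
    rw [map_mul, Derivation.leibniz, map_add, smul_eq_mul, smul_eq_mul, map_mul, map_mul, h, h]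
    rfl)

private theorem dS_apply (K : Subfield ℂ) {β : Type} [DecidableEq β] (b : β → ℂ)
    (hb : AlgebraicIndependent K b) (i j : β) :
    dS K b hb i ⟨b j, Algebra.subset_adjoin ⟨j, rfl⟩⟩ = if j = i then 1 else 0 := by
  have h1 : hb.repr ⟨b j, Algebra.subset_adjoin ⟨j, rfl⟩⟩ = MvPolynomial.X j := by
    apply hb
    rw [hb.aeval_repr, MvPolynomial.aeval_X]
  show MvPolynomial.aeval b (MvPolynomial.pderiv i (hb.repr ⟨b j, _⟩)) = _
  rw [h1, MvPolynomial.pderiv_X]
  by_cases h : j = i
  · rw [if_pos h, h, Pi.single_eq_same, map_one]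
  · rw [if_neg h, Pi.single_eq_of_ne h, map_zero]

private theorem exists_der (K : Subfield ℂ) {β : Type} [DecidableEq β] (b : β → ℂ)
    (hb : IsTranscendenceBasis K b) (i : β) :
    ∃ D : Derivation K ℂ ℂ, ∀ j, D (b j) = if j = i then 1 else 0 := by
  haveI := etale K b hb
  have hbc := KaehlerDifferential.isBaseChange_of_formallyEtale K
    (Algebra.adjoin K (Set.range b)) ℂ
  refine ⟨(hbc.lift (dS K b hb.1 i).liftKaehlerDifferential).compDer
    (KaehlerDifferential.D K ℂ), fun j => ?_⟩
  rw [← dS_apply K b hb.1 i j]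
  have h1 : KaehlerDifferential.D K ℂ (b j) =
      KaehlerDifferential.map K K (Algebra.adjoin K (Set.range b)) ℂ
        (KaehlerDifferential.D K (Algebra.adjoin K (Set.range b))
          ⟨b j, Algebra.subset_adjoin ⟨j, rfl⟩⟩) := by
    rw [KaehlerDifferential.map_D]
    rfl
  show hbc.lift (dS K b hb.1 i).liftKaehlerDifferential (KaehlerDifferential.D K ℂ (b j)) = _
  rw [h1, hbc.lift_eq, Derivation.liftKaehlerDifferential_comp_D]

theorem dli {K : Subfield ℂ} {ι : Type} [Fintype ι] {a : ι → ℂ} (h : AlgebraicIndependent K a)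
    (c : ι → ℂ) (hc : ∑ i, c i • dd (a i) ∈ dK K) (i : ι) : c i = 0 := by
  classical
  obtain ⟨t, hst, ht⟩ := exists_isTranscendenceBasis_superset (R := K) (s := Set.range a)
    h.coe_range
  have hmem : ∀ j, a j ∈ t := fun j => hst ⟨j, rfl⟩
  obtain ⟨D, hD⟩ := exists_der K ((↑) : t → ℂ) ht ⟨a i, hmem i⟩
  have hDa : ∀ j, D (a j) = if j = i then 1 else 0 := by
    intro j
    have h1 := hD ⟨a j, hmem j⟩
    rw [show D (a j) = D ((⟨a j, hmem j⟩ : t) : ℂ) from rfl, h1]
    by_cases hj : j = i
    · rw [if_pos hj, if_pos (by rw [hj])]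
    · rw [if_neg hj, if_neg]
      intro h2
      exact hj (h.injective (congrArg Subtype.val h2))
  let Φ : Om →ₗ[ℂ] ℂ := (D.restrictScalars ℚ).liftKaehlerDifferential
  have hΦ : ∀ x, Φ (dd x) = D x := fun x =>
    Derivation.liftKaehlerDifferential_comp_D (D.restrictScalars ℚ) x
  have hK : dK K ≤ LinearMap.ker Φ := by
    unfold dK
    rw [Submodule.span_le]
    rintro _ ⟨x, hx, rfl⟩
    show Φ (dd x) = 0
    rw [hΦ]
    exact D.map_algebraMap (⟨x, hx⟩ : K)
  have h3 : Φ (∑ j, c j • dd (a j)) = 0 := hK hc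
  rw [map_sum] at h3
  simp only [map_smul, hΦ, hDa, smul_eq_mul, mul_ite, mul_one, mul_zero] at h3
  rw [Finset.sum_ite_eq' Finset.univ i, if_pos (Finset.mem_univ i)] at h3
  exact h3

end VRJ
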