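import Mathlib

/-!
# VRJ-Irr: the polynomial `X n - f` is irreducible if `f` does not contain `X n`
-/

namespace VRJ

open MvPolynomial

private theorem aeval_fix (n : ℕ) (f g : MvPolynomial ℕ ℂ) (hf : n ∉ f.vars) :
    aeval (fun v : ℕ => if v = n then g else X v) f = f := by
  have h1 : aeval (fun v : ℕ => if v = n then g else X v) f =
      aeval (X : ℕ → MvPolynomial ℕ ℂ) f := by
    refine eval₂Hom_congr' rfl ?_ rfl
    intro i hi _
    have : i ≠ n := by
      rintro rfl
      exact hf hi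
    simp [this]
  rw [h1, aeval_X_left_apply]

theorem irr_sub (n : ℕ) (f : MvPolynomial ℕ ℂ) (hf : n ∉ f.vars) :
    Irreducible (X n - f : MvPolynomial ℕ ℂ) := by
  let φ : MvPolynomial ℕ ℂ →ₐ[ℂ] MvPolynomial ℕ ℂ :=
    aeval (fun v : ℕ => if v = n then X n + f else X v)
  let ψ : MvPolynomial ℕ ℂ →ₐ[ℂ] MvPolynomial ℕ ℂ :=
    aeval (fun v : ℕ => if v = n then X n - f else X v)
  have hφf : φ f = f := aeval_fix n f _ hf
  have hψf : ψ f = f := aeval_fix n f _ hf
  have hφX : ∀ v, φ (X v) = if v = n then X n + f else X v := fun v => by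
    simp [φ]
  have hψX : ∀ v, ψ (X v) = if v = n then X n - f else X v := fun v => by
    simp [ψ]
  have h1 : φ.comp ψ = AlgHom.id ℂ _ := by
    ext v : 1
    rw [AlgHom.comp_apply, hψX]
    split_ifs with h
    · subst h
      rw [map_sub, hφX, if_pos rfl, hφf]
      simp
    · rw [hφX, if_neg h]
      rfl
  have h2 : ψ.comp φ = AlgHom.id ℂ _ := by
    ext v : 1
    rw [AlgHom.comp_apply, hφX]
    split_ifs with h
    · subst h
      rw [map_add, hψX, if_pos rfl, hψf]
      simp
    · rw [hψX, if_neg h]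
      rfl
  let e : MvPolynomial ℕ ℂ ≃ₐ[ℂ] MvPolynomial ℕ ℂ := AlgEquiv.ofAlgHom φ ψ h1 h2
  have he : e (X n - f) = X n := by
    change φ (X n - f) = X n
    rw [map_sub, hφX, if_pos rfl, hφf]
    ring
  have h3 : Irreducible (e (X n - f)) := by
    rw [he]
    exact (X_prime (i := n)).irreducible
  exact (MulEquiv.irreducible_iff (e : MvPolynomial ℕ ℂ ≃* MvPolynomial ℕ ℂ)).1 h3

end VRJ
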