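import Pool.Agent.VRJ.LbLev

/-!
# VRJ-Lower: the lower bound

The values of the exponential sum at `s + 1` Boolean points have linearly independent differentials
modulo the queries (`lb_lev`), but a circuit of size `s` has at most `s` constants (`lb_run`).
-/

namespace VRJ

open MvPolynomial

private theorem exists_exp (k : ℕ) :
    ∃ n : ℕ, ((n + 2) ^ k) ^ 2 * ((n + 2) ^ k + 1) < 2 ^ n := by
  have h := tendsto_pow_const_div_const_pow_of_one_lt (3 * k) (by norm_num : (1 : ℝ) < 2)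
  have h1 := (h.eventually (gt_mem_nhds (by norm_num : (0 : ℝ) < 1 / 8))).and
    (Filter.eventually_ge_atTop 2)
  obtain ⟨m, hm, hm2⟩ := h1.exists
  refine ⟨m - 2, ?_⟩
  obtain ⟨n, rfl⟩ := Nat.exists_eq_add_of_le' hm2
  rw [Nat.add_sub_cancel]
  rw [div_lt_iff₀ (by positivity)] at hm
  have h2 : (((n + 2 : ℕ) : ℝ)) ^ (3 * k) * 8 < 2 ^ (n + 2) := by linarith
  have h3 : (n + 2) ^ (3 * k) * 8 < 2 ^ (n + 2) := by exact_mod_cast h2
  have h4 : 1 ≤ (n + 2) ^ k := Nat.one_le_pow _ _ (by omega)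
  have h5 : (n + 2) ^ (3 * k) = ((n + 2) ^ k) ^ 3 := by
    rw [mul_comm, pow_mul]
  have h6 : 2 ^ (n + 2) = 4 * 2 ^ n := by
    rw [pow_add]
    ring
  rw [h5, h6] at h3
  have h7 : ((n + 2) ^ k) ^ 2 * ((n + 2) ^ k + 1) ≤ 2 * ((n + 2) ^ k) ^ 3 := by
    have h8 : ((n + 2) ^ k) ^ 3 = ((n + 2) ^ k) ^ 2 * (n + 2) ^ k := by ring
    rw [h8]
    calc ((n + 2) ^ k) ^ 2 * ((n + 2) ^ k + 1) ≤ ((n + 2) ^ k) ^ 2 * (2 * (n + 2) ^ k) :=
          Nat.mul_le_mul_left _ (by omega)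
      _ = 2 * (((n + 2) ^ k) ^ 2 * (n + 2) ^ k) := by ring
  omega

theorem lower {A Φ : Orc} {K : ℕ → Subfield ℂ} {Y : ∀ L, Set (Fin L → ℂ)} (hT : Tower A Φ K Y)
    {n s : ℕ} (hs : s ^ 2 * (s + 1) < 2 ^ n) : ¬ Comp Φ s (fam Φ n) := by
  classical
  intro hf
  have h1 : s + 1 ≤ 2 ^ n := by
    rcases Nat.eq_zero_or_pos s with h | h
    · subst h
      exact Nat.one_le_two_pow
    · have h2 : 1 ≤ s ^ 2 := Nat.one_le_pow _ _ h
      nlinarith
  obtain ⟨N, -, hN⟩ : ∃ N : Finset (Fin n → Bool), N ⊆ Finset.univ ∧ N.card = s + 1 := by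
    apply Finset.exists_subset_card_eq
    rw [Finset.card_univ]
    simpa using h1
  have hY : ∀ L, L % 3 = 2 → ∀ (z : Fin L → ℕ → ℂ) (j : ℕ), j < 2 ^ L →
      (fun l => z l 0) ∈ Y L → jet (Φ L) j z = 0 := by
    intro L hL z j hj hz
    obtain ⟨M, g, a, -, -, hF, hv, -⟩ := hT.lev2 L hL
    rw [hF, jet_sum]
    apply Finset.sum_eq_zero
    intro k _
    rw [jet_C_mul, hv k z j hj hz, smul_zero]
  obtain ⟨C, Q, hC, hQ, hx⟩ := lb_run hY hf N
  have hQ' : ∑ q ∈ Q, (q.2.1 + 1) < 2 ^ n := by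
    rw [hN] at hQ
    calc ∑ q ∈ Q, (q.2.1 + 1) ≤ (s + 1) * s * s := hQ
      _ = s ^ 2 * (s + 1) := by ring
      _ < 2 ^ n := hs
  set S : Submodule ℂ Om := Submodule.span ℂ (qv Φ Y '' (Q : Set _)) with hS
  set v : N → Om ⧸ S := fun x => S.mkQ (dd (eval (pv (x : Fin n → Bool)) (fam Φ n))) with hv
  have hli : LinearIndependent ℂ v := by
    rw [Fintype.linearIndependent_iff]
    intro c hc x
    have h2 : ∑ x ∈ N, (if hx : x ∈ N then c ⟨x, hx⟩ else 0) • dd (eval (pv x) (fam Φ n)) ∈ S := by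
      rw [← Submodule.Quotient.mk_eq_zero, ← Submodule.mkQ_apply, map_sum, ← Finset.sum_coe_sort,
        ← hc]
      apply Finset.sum_congr rfl
      intro y _
      rw [map_smul, dif_pos y.2]
    have h3 := lb_lev hT N Q hQ' _ h2 x.1 x.2
    rw [dif_pos x.2] at h3
    exact h3
  have hsp : Set.range v ≤
      Submodule.span ℂ ((C.image fun c => S.mkQ (dd c) : Finset (Om ⧸ S)) : Set (Om ⧸ S)) := by
    rintro _ ⟨x, rfl⟩
    obtain ⟨y, hy, z, hz, hyz⟩ := Submodule.mem_sup.1 (hx x.1 x.2)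
    have h2 : v x = S.mkQ y := by
      rw [hv]
      show S.mkQ (dd (eval (pv (x : Fin n → Bool)) (fam Φ n))) = S.mkQ y
      rw [← hyz, map_add]
      have h3 : S.mkQ z = 0 := by
        rw [Submodule.mkQ_apply, Submodule.Quotient.mk_eq_zero]
        exact hz
      rw [h3, add_zero]
    have h4 : S.mkQ y ∈ Submodule.map S.mkQ (Submodule.span ℂ (dd '' (C : Set ℂ))) :=
      Submodule.mem_map_of_mem hy
    rw [Submodule.map_span, Set.image_image] at h4
    show v x ∈ Submodule.span ℂ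
      ((C.image fun c => S.mkQ (dd c) : Finset (Om ⧸ S)) : Set (Om ⧸ S))
    rw [h2, Finset.coe_image]
    exact h4
  have h5 := linearIndependent_le_span' v hli _ hsp
  rw [Cardinal.mk_fintype, Fintype.card_coe] at h5
  have h6 : N.card ≤ Fintype.card
      ((C.image fun c => S.mkQ (dd c) : Finset (Om ⧸ S)) : Set (Om ⧸ S)) := by
    exact_mod_cast h5
  have h7 : Fintype.card
      ((C.image fun c => S.mkQ (dd c) : Finset (Om ⧸ S)) : Set (Om ⧸ S)) ≤ s := by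
    calc Fintype.card ((C.image fun c => S.mkQ (dd c) : Finset (Om ⧸ S)) : Set (Om ⧸ S))
        = (C.image fun c => S.mkQ (dd c)).card := by
          rw [← Set.toFinset_card, Finset.toFinset_coe]
      _ ≤ C.card := Finset.card_image_le
      _ ≤ s := hC
  omega

theorem not_inVP {A Φ : Orc} {K : ℕ → Subfield ℂ} {Y : ∀ L, Set (Fin L → ℂ)}
    (hT : Tower A Φ K Y) : ¬ InVP Φ (fam Φ) := by
  rintro ⟨-, k, hk⟩
  obtain ⟨n, hn⟩ := exists_exp k
  exact lower hT hn (hk n)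

end VRJ
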