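import Pool.Agent.VRJ.Decide

/-!
# VRJ-Mult: cheap multiples of `X n - f_n`

`div_of_zero`: a polynomial which vanishes on the graph of `f` is divisible by `X n - f`. `cheap_mult`: the
oracle polynomial of a suitable level, with a suitable test number, restricted to the coordinates of the
point, vanishes on the graph of `fam Φ n` and does not vanish identically.
-/

namespace VRJ

open MvPolynomial

private theorem eval_congr_vars (p : MvPolynomial ℕ ℂ) (w w' : ℕ → ℂ)
    (h : ∀ v ∈ p.vars, w v = w' v) : eval w p = eval w' p := by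
  refine hom_congr_vars (f₁ := eval w) (f₂ := eval w') ?_ ?_ rfl
  · ext c
    simp
  · intro i hi _
    simp [h i hi]

private theorem eval_aeval_comp {σ τ : Type} (g : σ → MvPolynomial τ ℂ) (w : τ → ℂ)
    (p : MvPolynomial σ ℂ) : eval w (aeval g p) = eval (fun v => eval w (g v)) p := by
  induction p using MvPolynomial.induction_on with
  | C a => simp
  | add p q hp hq => rw [map_add, map_add, map_add, hp, hq]
  | mul_X p n hp => rw [map_mul, map_mul, map_mul, hp, aeval_X, eval_X]

theorem div_of_zero (n : ℕ) (f h : MvPolynomial ℕ ℂ) (hf : n ∉ f.vars)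
    (h0 : ∀ w : ℕ → ℂ, w n = eval w f → eval w h = 0) : X n - f ∣ h := by
  classical
  set φ : MvPolynomial ℕ ℂ →ₐ[ℂ] MvPolynomial ℕ ℂ :=
    aeval (fun v => if v = n then f else X v) with hφ
  have h1 : φ h = 0 := by
    apply MvPolynomial.funext
    intro w
    rw [map_zero]
    have e1 : eval w (φ h) = eval (fun v => eval w (if v = n then f else X v)) h := by
      rw [hφ, eval_aeval_comp]
    rw [e1]
    apply h0
    have e2 : eval (fun v => eval w (if v = n then f else X v)) f = eval w f := by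
      apply eval_congr_vars
      intro v hv
      have : v ≠ n := fun h => hf (h ▸ hv)
      simp [this]
    rw [e2]
    simp
  have h2 : (Ideal.Quotient.mkₐ ℂ (Ideal.span {X n - f})).comp φ =
      Ideal.Quotient.mkₐ ℂ (Ideal.span {X n - f}) := by
    apply MvPolynomial.algHom_ext
    intro v
    rw [AlgHom.comp_apply, hφ, aeval_X]
    by_cases hv : v = n
    · subst hv
      rw [if_pos rfl]
      refine (Ideal.Quotient.eq.2 ?_).symm
      exact Ideal.mem_span_singleton_self _
    · rw [if_neg hv]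
  have h3 := DFunLike.congr_fun h2 h
  rw [AlgHom.comp_apply, h1, map_zero] at h3
  exact Ideal.mem_span_singleton.1 (Ideal.Quotient.eq_zero_iff_mem.1 h3.symm)

/-- the point of the query -/
private noncomputable def dpt (e n d : ℕ) (z : Fin (mm e n) → ℂ) (r : ℕ) :
    Fin (3 + mm e n + d) → ℂ := fun v =>
  if (v : ℕ) = 0 then (e : ℂ) else if (v : ℕ) = 1 then (n : ℂ) else if (v : ℕ) = 2 then (r : ℂ)
  else if h : (v : ℕ) - 3 < mm e n then z ⟨v - 3, h⟩ else 0

private theorem dec_mem (Φ : Orc) (e n d : ℕ) (z : Fin (mm e n) → ℂ) (r : ℕ)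
    (he : e < 3 + mm e n + d) (hl : lb e n < 3 + mm e n + d) (hr : r < 3 + mm e n + d) :
    dpt e n d z r ∈ Yset (3 + mm e n + d) Φ ↔ z ∈ wst (Kset Φ e n) r := by
  constructor
  · rintro ⟨e', n', r', h, h1, h2, h3, h4, h5, h6, h7⟩
    have e4 : e = e' := by
      have : (e : ℂ) = (e' : ℂ) := by
        rw [← h4]
        simp [dpt]
      exact_mod_cast this
    have e5 : n = n' := by
      have : (n : ℂ) = (n' : ℂ) := by
        rw [← h5]
        simp [dpt]
      exact_mod_cast this
    have e6 : r = r' := by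
      have : (r : ℂ) = (r' : ℂ) := by
        rw [← h6]
        simp [dpt]
      exact_mod_cast this
    subst e4 e5 e6
    have e7 : (fun i : Fin (mm e n) => dpt e n d z r ⟨3 + i, by omega⟩) = z := by
      funext i
      simp only [dpt]
      rw [if_neg (by omega), if_neg (by omega), if_neg (by omega), dif_pos (by have := i.2; omega)]
      congr 1
      ext
      simp
    rw [e7] at h7
    exact h7
  · intro h
    refine ⟨e, n, r, by omega, hl, he, hr, ?_, ?_, ?_, ?_⟩
    · simp [dpt]
    · simp [dpt]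
    · simp [dpt]
    · have e7 : (fun i : Fin (mm e n) => dpt e n d z r ⟨3 + i, by omega⟩) = z := by
        funext i
        simp only [dpt]
        rw [if_neg (by omega), if_neg (by omega), if_neg (by omega), dif_pos (by have := i.2; omega)]
        congr 1
        ext
        simp
      rw [e7]
      exact h

private theorem dec_zero {A Φ : Orc} {K : ℕ → Subfield ℂ} (hT : Tower A Φ K (fun L => Yset L Φ))
    (L : ℕ) (h3 : L % 3 = 2) (y : Fin L → ℂ) (hy : y ∈ Yset L Φ) : eval y (Φ L) = 0 :=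
  gen_zero (hT.lev2 L h3) (by positivity) hy

private theorem mult_bits_vars {a b : ℕ} {e : Fin b → Bool} {v j : ℕ}
    (h : j ∈ (bits a b e v).vars) : j < a := by
  unfold bits at h
  split_ifs at h with h1 h2 h3
  · rw [vars_X, Finset.mem_singleton] at h
    omega
  · simp at h
  · simp at h
  · simp at h

private theorem mult_fam_vars (Φ : Orc) (n v : ℕ) (hv : v ∈ (fam Φ n).vars) : v < n := by
  classical
  unfold fam at hv
  have h1 := vars_sum_subset _ _ hv
  rw [Finset.mem_biUnion] at h1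
  obtain ⟨e, -, he⟩ := h1
  obtain ⟨i, -, hi⟩ := mem_vars_bind₁ _ _ he
  exact mult_bits_vars hi

/-- the substitution of the query -/
private noncomputable def ups (e n m L r : ℕ) : Fin L → MvPolynomial ℕ ℂ := fun v =>
  if (v : ℕ) = 0 then C (e : ℂ) else if (v : ℕ) = 1 then C (n : ℂ) else if (v : ℕ) = 2 then C (r : ℂ)
  else if (v : ℕ) - 3 < m then X ((v : ℕ) - 3) else C 0

private theorem ups_eval (e n d r : ℕ) (w : ℕ → ℂ) :
    (fun v => eval w (ups e n (mm e n) (3 + mm e n + d) r v)) =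
      dpt e n d (fun i => w i) r := by
  funext v
  simp only [ups, dpt]
  split_ifs <;> simp

private theorem ups_cases (e n m L r : ℕ) (v : Fin L) :
    (∃ c : ℂ, ups e n m L r v = C c) ∨ ∃ i : ℕ, ups e n m L r v = X i := by
  unfold ups
  split_ifs
  · exact Or.inl ⟨_, rfl⟩
  · exact Or.inl ⟨_, rfl⟩
  · exact Or.inl ⟨_, rfl⟩
  · exact Or.inr ⟨_, rfl⟩
  · exact Or.inl ⟨_, rfl⟩

private theorem ups_comp (Φ : Orc) (e n m L r s : ℕ) (hs : L + 1 ≤ s) :
    Comp Φ s (aeval (ups e n m L r) (Φ L)) := by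
  refine ⟨fun i => if h : (i : ℕ) < L then ups e n m L r ⟨i, h⟩ else if (i : ℕ) = L then
    aeval (ups e n m L r) (Φ L) else C 0, ⟨⟨L, by omega⟩, by simp⟩, ?_⟩
  intro i
  by_cases h1 : (i : ℕ) < L
  · rcases ups_cases e n m L r ⟨i, h1⟩ with ⟨c, hc⟩ | ⟨v, hv⟩
    · left
      exact ⟨c, by simp only [dif_pos h1, hc]⟩
    · right; left
      exact ⟨v, by simp only [dif_pos h1, hv]⟩
  · by_cases h2 : (i : ℕ) = L
    · right; right; right
      refine ⟨L, 0, fun l _ => ⟨(l : ℕ), by omega⟩, by omega, ?_, ?_⟩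
      · intro l r _
        rw [Fin.lt_def]
        have := l.isLt
        simp only
        omega
      · simp only [dif_neg h1, if_pos h2]
        rw [jet_zero]
        congr 2
        funext l
        rw [dif_pos l.isLt]
    · left
      exact ⟨0, by simp only [dif_neg h1, if_neg h2]⟩

private theorem mult_size (n e : ℕ) :
    3 + (n + 1) + (3 * (n + 1 + 2) ^ 3 + 2 * (n + 1) + 3 * e + 2) + 1 ≤
      (n + 2) ^ (36 + 3 * e) := by
  have h1 : 33 + 3 * e ≤ 2 ^ (33 + 3 * e) := Nat.lt_two_pow_self.le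
  have h2 : (2 : ℕ) ^ (33 + 3 * e) ≤ (n + 2) ^ (33 + 3 * e) := Nat.pow_le_pow_left (by omega) _
  have h3 : (n + 2) ^ (36 + 3 * e) = (n + 2) ^ (33 + 3 * e) * (n + 2) ^ 3 := by
    rw [← pow_add]
    congr 1
    omega
  rw [h3]
  refine le_trans ?_ (Nat.mul_le_mul_right _ (h1.trans h2))
  have h4 : e ≤ e * (n + 2) ^ 3 := Nat.le_mul_of_pos_right _ (by positivity)
  nlinarith [Nat.zero_le n, Nat.zero_le (n ^ 2), Nat.zero_le (n ^ 3)]

theorem cheap_mult {A Φ : Orc} {K : ℕ → Subfield ℂ} (hT : Tower A Φ K (fun L => Yset L Φ)) :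
    ∃ k, ∀ n, ∃ h : MvPolynomial ℕ ℂ, h ≠ 0 ∧ X n - fam Φ n ∣ h ∧ Comp Φ ((n + 2) ^ k) h := by
  classical
  obtain ⟨e, hdec⟩ := dec_surj (Prog.pop 0, 0, 0)
  have hk : kk e = 0 := by
    unfold kk
    rw [hdec]
  have hx : ex e = 0 := by
    unfold ex
    rw [hdec]
  refine ⟨36 + 3 * e, fun n => ?_⟩
  have hm : mm e (n + 1) = n + 1 := by
    unfold mm
    rw [hk]
  have hlbv : lb e (n + 1) = (n + 1) + 1 + 1 + 2 * (n + 1 + 3) ^ 2 := by
    unfold lb yb tb
    rw [hx, hm, pow_zero, pow_zero]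
  obtain ⟨d, hd⟩ : ∃ d, d = 3 * (n + 1 + 2) ^ 3 + 2 * (n + 1) + 3 * e + 2 := ⟨_, rfl⟩
  have hsz : 3 + mm e (n + 1) + d + 1 ≤ (n + 2) ^ (36 + 3 * e) := by
    rw [hm, hd]
    exact mult_size n e
  have h3 : (3 + mm e (n + 1) + d) % 3 = 2 := by
    rw [hm, hd]
    omega
  have he : e < 3 + mm e (n + 1) + d := by
    rw [hd]
    omega
  have hl : lb e (n + 1) < 3 + mm e (n + 1) + d := by
    rw [hlbv, hm, hd]
    nlinarith [Nat.zero_le n, Nat.zero_le (n ^ 2), Nat.zero_le (n ^ 3)]
  have hKs : Kset Φ e (n + 1) = Gset Φ (n + 1) (mm e (n + 1)) := by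
    unfold Kset
    rw [if_pos hk]
  have hGs : ∀ z : Fin (mm e (n + 1)) → ℂ, z ∈ Kset Φ e (n + 1) ↔
      eval (zx z) (X n - fam Φ n) = 0 := by
    intro z
    rw [hKs]
    constructor
    · rintro ⟨n', hn', hz⟩
      have : n = n' := by omega
      subst this
      exact hz
    · intro hz
      exact ⟨n, rfl, hz⟩
  generalize hN : n + 1 = N at *
  obtain ⟨halg, hanti, hempty, hspec⟩ := chn_spec Φ e N
  have hex : ∃ i, chn (Kset Φ e N) i ≠ Set.univ := by
    refine ⟨mm e N + 2, ?_⟩
    rw [hempty]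
    exact Set.empty_ne_univ
  set i0 := Nat.find hex with hi0
  have hi1 : chn (Kset Φ e N) i0 ≠ Set.univ := Nat.find_spec hex
  have hi2 : ∀ j < i0, chn (Kset Φ e N) j = Set.univ := by
    intro j hj
    exact not_not.1 (Nat.find_min hex hj)
  have hi3 : i0 ≤ mm e N + 2 := Nat.find_min' hex (by rw [hempty]; exact Set.empty_ne_univ)
  -- a point outside
  obtain ⟨z, hz1, hz2⟩ : ∃ z, z ∉ chn (Kset Φ e N) i0 ∧ z ∉ Kset Φ e N := by
    obtain ⟨T, hTe⟩ := halg i0
    have h1 : ∃ f ∈ T, f ≠ 0 := by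
      by_contra hcon
      push Not at hcon
      apply hi1
      rw [hTe]
      ext y
      simp only [Set.mem_ofPred_eq, Set.mem_univ, iff_true]
      intro f hf
      rw [hcon f hf, map_zero]
    obtain ⟨f, hfT, hf0⟩ := h1
    set G : MvPolynomial (Fin (mm e N)) ℂ :=
      aeval (fun v => if h : v < mm e N then X ⟨v, h⟩ else 0) (X n - fam Φ n) with hG
    have hGe : ∀ z, eval z G = eval (zx z) (X n - fam Φ n) := by
      intro z
      have e1 : eval z G = eval (fun v => eval z
          (if h : v < mm e N then (X ⟨v, h⟩ : MvPolynomial (Fin (mm e N)) ℂ) else 0))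
          (X n - fam Φ n) := by
        rw [hG, eval_aeval_comp]
      rw [e1]
      congr 2
      funext v
      unfold zx
      split_ifs
      · simp
      · simp
    have hG0 : G ≠ 0 := by
      intro h0
      have h1 := hGe (fun i => if (i : ℕ) = n then eval 0 (fam Φ n) + 1 else 0)
      rw [h0, map_zero, map_sub, eval_X] at h1
      have h2 : eval (zx fun i : Fin (mm e N) => if (i : ℕ) = n then eval 0 (fam Φ n) + 1 else 0)
          (fam Φ n) = eval 0 (fam Φ n) := by
        apply eval_congr_vars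
        intro v hv
        have hvn := mult_fam_vars Φ n v hv
        unfold zx
        by_cases a1 : v < mm e N
        · rw [dif_pos a1]
          have a2 : ¬ v = n := by omega
          simp [a2]
        · rw [dif_neg a1]
          rfl
      rw [h2] at h1
      unfold zx at h1
      rw [dif_pos (by omega)] at h1
      simp only [if_true] at h1
      have : (1 : ℂ) = 0 := by linear_combination -h1
      exact one_ne_zero this
    have hfG : f * G ≠ 0 := mul_ne_zero hf0 hG0
    have h2 : ∃ z, eval z (f * G) ≠ 0 := by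
      by_contra hcon
      push Not at hcon
      exact hfG (MvPolynomial.funext fun z => by rw [hcon z, map_zero])
    obtain ⟨z, hz⟩ := h2
    rw [map_mul] at hz
    refine ⟨z, ?_, ?_⟩
    · rw [hTe]
      intro hz3
      exact hz (by rw [hz3 f hfT, zero_mul])
    · rw [hGs, ← hGe]
      exact right_ne_zero_of_mul hz
  have hev : ¬ Odd i0 := by
    intro ho
    exact hz2 ((hspec i0 z hz1 (fun j hj => by rw [hi2 j hj]; exact Set.mem_univ z)).2 ho)
  have hS : ∀ s ∈ Kset Φ e N, s ∈ chn (Kset Φ e N) i0 := by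
    intro s hs
    by_contra hcon
    exact hev ((hspec i0 s hcon (fun j hj => by rw [hi2 j hj]; exact Set.mem_univ s)).1 hs)
  -- the test
  have hN2 : i0 * (2 * mm e N + 2) + (2 * mm e N + 2) ≤ 2 * (mm e N + 3) ^ 2 := by
    have h1 : i0 * (2 * mm e N + 2) ≤ (mm e N + 2) * (2 * mm e N + 2) := Nat.mul_le_mul_right _ hi3
    nlinarith
  have hlb : 2 * (mm e N + 3) ^ 2 ≤ lb e N := by
    unfold lb
    omega
  have hpar : i0 * (2 * mm e N + 2) % 2 = 0 := by
    have : i0 * (2 * mm e N + 2) = 2 * (i0 * (mm e N + 1)) := by ring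
    rw [this]
    omega
  have hrlt : ∀ j : Fin (mm e N + 1),
      i0 * (2 * mm e N + 2) + (2 * (j : ℕ) + i0 % 2) < i0 * (2 * mm e N + 2) + (2 * mm e N + 2) := by
    intro j
    have := j.2
    omega
  have hrL : ∀ j : Fin (mm e N + 1),
      i0 * (2 * mm e N + 2) + (2 * (j : ℕ) + i0 % 2) < 3 + mm e N + d := by
    intro j
    have := hrlt j
    omega
  have hwst : ∀ j : Fin (mm e N + 1),
      wst (Kset Φ e N) (i0 * (2 * mm e N + 2) + (2 * (j : ℕ) + i0 % 2)) =
        chn (Kset Φ e N) i0 := by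
    intro j
    have hdiv : (i0 * (2 * mm e N + 2) + (2 * (j : ℕ) + i0 % 2)) / (2 * mm e N + 2) = i0 := by
      rw [mul_comm, Nat.mul_add_div (by omega), Nat.div_eq_of_lt (by have := j.2; omega), add_zero]
    unfold wst
    rw [hdiv, if_pos (by omega)]
  have htest : ∃ j : Fin (mm e N + 1), eval
      (dpt e N d z (i0 * (2 * mm e N + 2) + (2 * (j : ℕ) + i0 % 2))) (Φ (3 + mm e N + d)) ≠ 0 := by
    refine gen_test (hT.lev2 _ h3) z
      (fun j => dpt e N d z (i0 * (2 * mm e N + 2) + (2 * (j : ℕ) + i0 % 2))) ?_ ?_ ?_ ?_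
    · intro j j' hjj
      have h1 : dpt e N d z (i0 * (2 * mm e N + 2) + (2 * (j : ℕ) + i0 % 2)) ⟨2, by omega⟩ =
          dpt e N d z (i0 * (2 * mm e N + 2) + (2 * (j' : ℕ) + i0 % 2)) ⟨2, by omega⟩ :=
        congrFun hjj ⟨2, by omega⟩
      have hco : ∀ r : ℕ, dpt e N d z r ⟨2, by omega⟩ = (r : ℂ) := by
        intro r
        simp [dpt]
      rw [hco, hco] at h1
      have h2 : i0 * (2 * mm e N + 2) + (2 * (j : ℕ) + i0 % 2) =
          i0 * (2 * mm e N + 2) + (2 * (j' : ℕ) + i0 % 2) := by exact_mod_cast h1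
      ext
      omega
    · intro j hj
      have h1 := (dec_mem Φ e N d z _ he hl (hrL j)).1 hj
      rw [hwst j] at h1
      exact hz1 h1
    · have : 3 + mm e N + d < 2 ^ (3 + mm e N + d) := Nat.lt_two_pow_self
      omega
    · intro j v
      simp only [dpt]
      split_ifs with a1 a2 a3 a4
      · exact Or.inl (natCast_mem _ _)
      · exact Or.inl (natCast_mem _ _)
      · exact Or.inl (natCast_mem _ _)
      · exact Or.inr ⟨_, rfl⟩
      · exact Or.inl (zero_mem _)
  obtain ⟨j, hj⟩ := htest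
  obtain ⟨r, hr⟩ : ∃ r, r = i0 * (2 * mm e N + 2) + (2 * (j : ℕ) + i0 % 2) := ⟨_, rfl⟩
  have hrw := hwst j
  have hrl := hrL j
  rw [← hr] at hj hrw hrl
  have hev2 : ∀ w : ℕ → ℂ, eval w (aeval (ups e N (mm e N) (3 + mm e N + d) r)
      (Φ (3 + mm e N + d))) = eval (dpt e N d (fun i => w i) r) (Φ (3 + mm e N + d)) := by
    intro w
    rw [← ups_eval, eval_aeval_comp]
  refine ⟨aeval (ups e N (mm e N) (3 + mm e N + d) r) (Φ (3 + mm e N + d)), ?_, ?_, ?_⟩
  · intro h0
    apply hj
    have h1 := hev2 (zx z)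
    rw [h0, map_zero] at h1
    have h2 : (fun i : Fin (mm e N) => zx z i) = z := by
      funext i
      unfold zx
      rw [dif_pos i.2]
    rw [h2] at h1
    exact h1.symm
  · apply div_of_zero
    · intro hn
      exact lt_irrefl _ (mult_fam_vars Φ n n hn)
    · intro w hw
      rw [hev2 w]
      apply dec_zero hT _ h3
      rw [dec_mem Φ e N d _ r he hl hrl, hrw]
      apply hS
      rw [hGs, map_sub, eval_X]
      have h1 : zx (fun i : Fin (mm e N) => w i) n = w n := by
        unfold zx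
        rw [dif_pos (by omega)]
      have h2 : eval (zx fun i : Fin (mm e N) => w i) (fam Φ n) = eval w (fam Φ n) := by
        apply eval_congr_vars
        intro v hv
        have hvn := mult_fam_vars Φ n v hv
        unfold zx
        rw [dif_pos (by omega)]
      rw [h1, h2, hw, sub_self]
  · exact ups_comp Φ _ _ _ _ _ _ hsz

end VRJ
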