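import Pool.Agent.VRJ.GenEx

/-!
# VRJ-TowerEx: existence of the tower

## Plan
`K 0` must contain all coefficients of all `A L`: a countable set (`L : ℕ`, finitely many
coefficients each), `field_ext` from the (countable) prime field `⊥ : Subfield ℂ`. Construct
the sequence `x L = (K L, Φ L)` by strong recursion (dependent choice): given the pairs of the levels
`L' < L`, let `K' ⊇` all `K L'` and all coefficients of all `Φ L'`, `L' < L` (countable, `field_ext`),
and let the oracle `Ψ` be `Φ L'` for `L' < L` and `0` otherwise; then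
* `L = 3 M`: `K L = K'`, `Φ L = rename _ (A M)`;
* `L = 6 n + 1`: `K L = K'`, `Φ L` from `low_exists`;
* `L = 6 n + 4`: `K L = K'`, `Φ L = 0`;
* `L = 2 mod 3`: `gen_exists` for `Y L Ψ`, `R = 2 ^ L`, `K0 = K'`.
Each `K L` is countable and contains `K0`. Formulate: for all prefixes there is a next element with a
property `P L prefix next`; a function `f` with `P L (fun L' _ => f L') (f L)` for all `L` exists by
strong recursion (`Nat.strongRec`/`WellFounded.fix` with `Classical.choose`). `Y L Φ = Y L Ψ` by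
`hloc`. Coefficients of `rename (Fin.castLE _) (A M)` are coefficients of `A M` or `0`
(not needed in the tower, only `base`).
-/

namespace VRJ

open MvPolynomial

private theorem te_bot : (((⊥ : Subfield ℂ) : Subfield ℂ) : Set ℂ).Countable := by
  rw [Subfield.bot_eq_of_charZero]
  rw [RingHom.coe_fieldRange]
  exact Set.countable_range _

private theorem te_coef {L : ℕ} (F : MvPolynomial (Fin L) ℂ) :
    (Set.range (fun m : Fin L →₀ ℕ => coeff m F)).Countable :=
  Set.countable_range _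

/-- the property of the element of level `L` -/
private def Good (A : Orc) (Y : ∀ L, Orc → Set (Fin L → ℂ)) (L : ℕ) (Ψ : Orc) (K : Subfield ℂ)
    (F : MvPolynomial (Fin L) ℂ) : Prop :=
  (∀ (M : ℕ) (h : 3 * M = L), F = rename (Fin.castLE (by omega)) (A M)) ∧
  (∀ (n : ℕ) (h : 6 * n + 1 = L), Low K n (h.symm ▸ F)) ∧
  (∀ n : ℕ, 6 * n + 4 = L → F = 0) ∧
  (L % 3 = 2 → Gen K (Y L Ψ) (2 ^ L) F)

private theorem te_next (A : Orc) (Y : ∀ L, Orc → Set (Fin L → ℂ))
    (hY : ∀ L Ψ, IsAlg (Y L Ψ)) (L : ℕ) (Ψ : Orc) (K : Subfield ℂ)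
    (hK : (K : Set ℂ).Countable) :
    ∃ (K1 : Subfield ℂ) (F : MvPolynomial (Fin L) ℂ),
      K ≤ K1 ∧ (K1 : Set ℂ).Countable ∧ Good A Y L Ψ K1 F := by
  rcases (by omega : L % 3 = 0 ∨ L % 6 = 1 ∨ L % 6 = 4 ∨ L % 3 = 2) with h | h | h | h
  · obtain ⟨M, rfl⟩ : ∃ M, L = 3 * M := ⟨L / 3, by omega⟩
    refine ⟨K, rename (Fin.castLE (by omega)) (A M), le_refl _, hK, ?_, ?_, ?_, ?_⟩
    · intro M' h'
      obtain rfl : M' = M := by omega
      rfl
    · intro n h'
      omega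
    · intro n h'
      omega
    · intro h'
      omega
  · obtain ⟨n, rfl⟩ : ∃ n, L = 6 * n + 1 := ⟨L / 6, by omega⟩
    obtain ⟨F, hF⟩ := low_exists n K hK
    refine ⟨K, F, le_refl _, hK, ?_, ?_, ?_, ?_⟩
    · intro M' h'
      omega
    · intro n' h'
      obtain rfl : n' = n := by omega
      exact hF
    · intro n' h'
      omega
    · intro h'
      omega
  · refine ⟨K, 0, le_refl _, hK, ?_, ?_, ?_, ?_⟩
    · intro M' h'
      omega
    · intro n' h'
      omega
    · intro n' h'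
      rfl
    · intro h'
      omega
  · obtain ⟨K1, F, h1, h2, h3⟩ := gen_exists (hY L Ψ) (2 ^ L) K hK
    refine ⟨K1, F, h1, h2, ?_, ?_, ?_, ?_⟩
    · intro M' h'
      omega
    · intro n' h'
      omega
    · intro n' h'
      omega
    · intro _
      exact h3

private theorem te_step (A : Orc) (Y : ∀ L, Orc → Set (Fin L → ℂ))
    (hY : ∀ L Ψ, IsAlg (Y L Ψ)) (L : ℕ) (Ψ : Orc) (K : {K : Subfield ℂ // (K : Set ℂ).Countable}) :
    ∃ (K1 : Subfield ℂ) (F : MvPolynomial (Fin L) ℂ)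
      (K2 : {K : Subfield ℂ // (K : Set ℂ).Countable}),
      K.1 ≤ K1 ∧ K1 ≤ K2.1 ∧ CoefIn K2.1 F ∧ Good A Y L Ψ K1 F := by
  obtain ⟨K1, F, h1, h2, h3⟩ := te_next A Y hY L Ψ K.1 K.2
  obtain ⟨K2, h4, h5, h6⟩ := field_ext K1 h2 _ (te_coef F)
  exact ⟨K1, F, ⟨K2, h6⟩, h1, h4, fun m => h5 ⟨m, rfl⟩, h3⟩

theorem tower_exists (A : Orc) (Y : ∀ L, Orc → Set (Fin L → ℂ)) (hY : ∀ L Ψ, IsAlg (Y L Ψ))
    (hloc : ∀ (L : ℕ) (Ψ Ψ' : Orc), (∀ L' < L, Ψ L' = Ψ' L') → Y L Ψ = Y L Ψ') :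
    ∃ (Φ : Orc) (K : ℕ → Subfield ℂ), Tower A Φ K (fun L => Y L Φ) := by
  obtain ⟨KB, _, hB2, hB3⟩ := field_ext ⊥ te_bot
    (Set.range (fun p : (Σ L : ℕ, (Fin L →₀ ℕ)) => coeff p.2 (A p.1))) (Set.countable_range _)
  choose K1 F K2 h1 h2 h3 h4 using te_step A Y hY
  let st : ℕ → Orc × {K : Subfield ℂ // (K : Set ℂ).Countable} := fun L =>
    Nat.rec (motive := fun _ => Orc × {K : Subfield ℂ // (K : Set ℂ).Countable})
      ((fun _ => 0), ⟨KB, hB3⟩)
      (fun L s => (Function.update s.1 L (F L s.1 s.2), K2 L s.1 s.2)) L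
  have st1 : ∀ L, (st (L + 1)).1 = Function.update (st L).1 L (F L (st L).1 (st L).2) :=
    fun L => rfl
  have st2 : ∀ L, (st (L + 1)).2 = K2 L (st L).1 (st L).2 := fun L => rfl
  have st0 : (st 0).2.1 = KB := rfl
  let Φ : Orc := fun L => F L (st L).1 (st L).2
  let K : ℕ → Subfield ℂ := fun L => K1 L (st L).1 (st L).2
  have hΦ : ∀ L L', L' < L → (st L).1 L' = Φ L' := by
    intro L
    induction L with
    | zero => intro L' h; omega
    | succ L ih =>
      intro L' h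
      rw [st1]
      by_cases e : L' = L
      · subst e
        rw [Function.update_self]
      · rw [Function.update_of_ne e]
        exact ih L' (by omega)
  have hG : ∀ L, Good A Y L (st L).1 (K L) (Φ L) := fun L => h4 L (st L).1 (st L).2
  have hKm : ∀ L, K L ≤ K (L + 1) := by
    intro L
    have e1 : K L ≤ (st (L + 1)).2.1 := by
      rw [st2]
      exact h2 L (st L).1 (st L).2
    exact le_trans e1 (h1 (L + 1) (st (L + 1)).1 (st (L + 1)).2)
  have hKc : ∀ L, CoefIn (K (L + 1)) (Φ L) := by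
    intro L m
    have e1 : coeff m (Φ L) ∈ (st (L + 1)).2.1 := by
      rw [st2]
      exact h3 L (st L).1 (st L).2 m
    exact h1 (L + 1) (st (L + 1)).1 (st (L + 1)).2 e1
  refine ⟨Φ, K, hKm, hKc, ?_, ?_, ?_, ?_, ?_⟩
  · intro L m
    apply h1 0 (st 0).1 (st 0).2
    rw [st0]
    exact hB2 ⟨⟨L, m⟩, rfl⟩
  · intro L
    exact (hG (3 * L)).1 L rfl
  · intro n
    exact (hG (6 * n + 1)).2.1 n rfl
  · intro n
    exact (hG (6 * n + 4)).2.2.1 n rfl
  · intro L hL
    have e1 := (hG L).2.2.2 hL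
    rw [hloc L (st L).1 Φ (fun L' h => hΦ L L' h)] at e1
    exact e1

end VRJ
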