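import Pool.Agent.VRJ.GraphP
import Pool.Agent.VRJ.Mult
import Pool.Agent.VRJ.Deg
import Pool.Agent.VRJ.Irr
import Pool.Agent.VRJ.FamMem
import Pool.Agent.VRJ.Lower
import Pool.Agent.VRJ.TowerEx

/-!
# VRJ-Final2: the theorem
-/

namespace VRJ

open MvPolynomial

theorem first (A : Orc) : ∃ Φ : Orc, (∀ L, Φ (3 * L) = rename (Fin.castLE (by omega)) (A L)) ∧
    (∀ B, InNP Φ B ↔ InP Φ B) ∧ ∃ f, InVNP Φ f ∧
      (∀ n, (f n).totalDegree ≤ n ∧ ∀ v ∈ (f n).vars, v < n) ∧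
      (∀ n s, s ^ 2 * (s + 1) < 2 ^ n → ¬ Comp Φ s (f n)) ∧ ¬ InVP Φ f ∧
      (∀ n, Irreducible (X n - f n)) ∧
      InP Φ {l | ∃ n, l.length = n + 1 ∧ eval (fun v => l.getD v 0) (X n - f n) = 0} ∧
      ∃ k, ∀ n, ∃ h : MvPolynomial ℕ ℂ, h ≠ 0 ∧ X n - f n ∣ h ∧ Comp Φ ((n + 2) ^ k) h := by
  obtain ⟨Φ, K, hT⟩ := tower_exists A Yset yset_alg yset_congr
  exact ⟨Φ, hT.lev0, fun B => ⟨np_p hT, p_np⟩, fam Φ, fam_mem hT, fun n => fam_deg hT n,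
    fun n s hs => lower hT hs, not_inVP hT,
    fun n => irr_sub n _ fun h => lt_irrefl n ((fam_deg hT n).2 n h), graph_p hT, cheap_mult hT⟩

end VRJ
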