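import Pool.Agent.VRJ.SkelDef

/-!
# VRJ-Frac: values of polynomials at fractions

A fraction is a pair `(a, b)` of polynomials; its value at `z` is `a z / b z`, it is good at `z` if
`b z ≠ 0`. Polynomials of fractions are fractions (`frac_eval`), and the values are compatible with
the four operations.
-/

namespace VRJ

open MvPolynomial

/-- fractions of polynomials in `N` variables -/
abbrev Fr (N : ℕ) : Type := MvPolynomial (Fin N) ℂ × MvPolynomial (Fin N) ℂ

/-- value of a fraction -/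
noncomputable def fval {N : ℕ} (z : Fin N → ℂ) (f : Fr N) : ℂ := eval z f.1 / eval z f.2

/-- the denominator does not vanish -/
def fok {N : ℕ} (z : Fin N → ℂ) (f : Fr N) : Prop := eval z f.2 ≠ 0

private theorem add_aux {N : ℕ} (z : Fin N → ℂ) (f g : Fr N) (hf : fok z f) (hg : fok z g) :
    fok z (f.1 * g.2 + g.1 * f.2, f.2 * g.2) ∧
      fval z (f.1 * g.2 + g.1 * f.2, f.2 * g.2) = fval z f + fval z g := by
  unfold fok at *
  unfold fval
  refine ⟨?_, ?_⟩
  · rw [map_mul]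
    exact mul_ne_zero hf hg
  · simp only [map_mul, map_add]
    field_simp

private theorem mul_aux {N : ℕ} (z : Fin N → ℂ) (f g : Fr N) (hf : fok z f) (hg : fok z g) :
    fok z (f.1 * g.1, f.2 * g.2) ∧ fval z (f.1 * g.1, f.2 * g.2) = fval z f * fval z g := by
  unfold fok at *
  unfold fval
  refine ⟨?_, ?_⟩
  · rw [map_mul]
    exact mul_ne_zero hf hg
  · simp only [map_mul]
    rw [div_mul_div_comm]

theorem frac_eval {N L : ℕ} (F : MvPolynomial (Fin L) ℂ) (f : Fin L → Fr N) :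
    ∃ g : Fr N, ∀ z, (∀ l, fok z (f l)) → fok z g ∧ fval z g = eval (fun l => fval z (f l)) F := by
  induction F using MvPolynomial.induction_on with
  | C c =>
    refine ⟨(C c, 1), fun z _ => ⟨?_, ?_⟩⟩
    · unfold fok
      rw [map_one]
      exact one_ne_zero
    · unfold fval
      rw [map_one, eval_C, eval_C, div_one]
  | add p q hp hq =>
    obtain ⟨a, ha⟩ := hp
    obtain ⟨b, hb⟩ := hq
    refine ⟨(a.1 * b.2 + b.1 * a.2, a.2 * b.2), fun z hz => ?_⟩
    obtain ⟨ha1, ha2⟩ := ha z hz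
    obtain ⟨hb1, hb2⟩ := hb z hz
    obtain ⟨h1, h2⟩ := add_aux z a b ha1 hb1
    exact ⟨h1, by rw [h2, ha2, hb2, map_add]⟩
  | mul_X p n hp =>
    obtain ⟨a, ha⟩ := hp
    refine ⟨(a.1 * (f n).1, a.2 * (f n).2), fun z hz => ?_⟩
    obtain ⟨ha1, ha2⟩ := ha z hz
    obtain ⟨h1, h2⟩ := mul_aux z a (f n) ha1 (hz n)
    exact ⟨h1, by rw [h2, ha2, map_mul, eval_X]⟩

theorem fval_add {N : ℕ} (z : Fin N → ℂ) (f g : Fr N) (hf : fok z f) (hg : fok z g) :
    fok z (f.1 * g.2 + g.1 * f.2, f.2 * g.2) ∧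
      fval z (f.1 * g.2 + g.1 * f.2, f.2 * g.2) = fval z f + fval z g :=
  add_aux z f g hf hg

theorem fval_sub {N : ℕ} (z : Fin N → ℂ) (f g : Fr N) (hf : fok z f) (hg : fok z g) :
    fok z (f.1 * g.2 - g.1 * f.2, f.2 * g.2) ∧
      fval z (f.1 * g.2 - g.1 * f.2, f.2 * g.2) = fval z f - fval z g := by
  unfold fok at *
  unfold fval
  refine ⟨?_, ?_⟩
  · rw [map_mul]
    exact mul_ne_zero hf hg
  · simp only [map_mul, map_sub]
    field_simp

theorem fval_mul {N : ℕ} (z : Fin N → ℂ) (f g : Fr N) (hf : fok z f) (hg : fok z g) :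
    fok z (f.1 * g.1, f.2 * g.2) ∧ fval z (f.1 * g.1, f.2 * g.2) = fval z f * fval z g :=
  mul_aux z f g hf hg

theorem fval_div {N : ℕ} (z : Fin N → ℂ) (f g : Fr N) (hf : fok z f) (hg : fok z g)
    (h0 : eval z g.1 ≠ 0) :
    fok z (f.1 * g.2, f.2 * g.1) ∧ fval z (f.1 * g.2, f.2 * g.1) = fval z f / fval z g := by
  unfold fok at *
  unfold fval
  refine ⟨?_, ?_⟩
  · rw [map_mul]
    exact mul_ne_zero hf h0
  · simp only [map_mul]
    rw [div_div_div_eq]

end VRJ
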