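import Pool.Agent.VRJ.LocInv

/-!
# VRJ-Interp: interpolation of Taylor coefficients

## Plan
`Y = {y | ∀ f ∈ T, eval y f = 0}`, `d` = sup of the total degrees of `f ∈ T`,
`D = d * R + R * (R + 1) + R`. For `y ∈ S` choose `f y ∈ T` with `eval y (f y) ≠ 0` and for `y' ∈ S`, `y' ≠ y`, a coordinate
`v` with `y v ≠ y' v`; `U y = (f y) ^ R * ∏ y' ∈ S.erase y, (X v - C (y' v)) ^ (R + 1)`, `eval y (U y) ≠ 0`; `Q y` from
`loc_inv` for `G`. `H = ∑ y ∈ S, U y * Q y`: degree `≤ D` (`S.card ≤ R`); along curves through a point of `Y` each `U y`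
vanishes to order `R` (`jet_pow_zero`, `jet_mul_zero`); along curves through `y' ∈ S` the terms with
`y ≠ y'` vanish to order `R + 1` and the term of `y'` has the Taylor coefficients of `G`.
-/

namespace VRJ

open MvPolynomial

private theorem in_sep {L : ℕ} (y y' : Fin L → ℂ) :
    ∃ P : MvPolynomial (Fin L) ℂ, P.totalDegree ≤ 1 ∧ eval y' P = 0 ∧
      (y ≠ y' → eval y P ≠ 0) := by
  by_cases h : y = y'
  · exact ⟨0, by simp, by simp, fun h1 => absurd h h1⟩
  · obtain ⟨v, hv⟩ := Function.ne_iff.1 h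
    refine ⟨X v - C (y' v), ?_, ?_, fun _ => ?_⟩
    · refine (totalDegree_sub _ _).trans ?_
      rw [totalDegree_X, totalDegree_C]
      exact le_rfl
    · rw [map_sub, eval_X, eval_C, sub_self]
    · rw [map_sub, eval_X, eval_C]
      exact sub_ne_zero.2 hv

theorem interp {L : ℕ} {Y : Set (Fin L → ℂ)} (hY : IsAlg Y) (R : ℕ) :
    ∃ D : ℕ, ∀ S : Finset (Fin L → ℂ), S.card ≤ R → (∀ y ∈ S, y ∉ Y) →
      ∀ G : MvPolynomial (Fin L) ℂ, ∃ H : MvPolynomial (Fin L) ℂ, H.totalDegree ≤ D ∧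
        (∀ (z : Fin L → ℕ → ℂ) (j : ℕ), j < R → (fun l => z l 0) ∈ Y → jet H j z = 0) ∧
        ∀ z : Fin L → ℕ → ℂ, (fun l => z l 0) ∈ S → ∀ j ≤ R, jet H j z = jet G j z := by
  classical
  obtain ⟨T, hT⟩ := hY
  refine ⟨T.sup totalDegree * R + R * (R + 1) + R, fun S hS hSY G => ?_⟩
  have hf : ∀ y : Fin L → ℂ, ∃ f : MvPolynomial (Fin L) ℂ, y ∈ S → f ∈ T ∧ eval y f ≠ 0 := by
    intro y
    by_cases hy : y ∈ S
    · have h1 := hSY y hy
      rw [hT, Set.mem_ofPred_eq] at h1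
      push Not at h1
      obtain ⟨f, hf1, hf2⟩ := h1
      exact ⟨f, fun _ => ⟨hf1, hf2⟩⟩
    · exact ⟨0, fun h => absurd h hy⟩
  choose f hf using hf
  choose P hP1 hP2 hP3 using fun y y' : Fin L → ℂ => in_sep y y'
  obtain ⟨U, hU⟩ : ∃ U : (Fin L → ℂ) → MvPolynomial (Fin L) ℂ,
      ∀ y, U y = f y ^ R * ∏ y' ∈ S.erase y, P y y' ^ (R + 1) := ⟨_, fun _ => rfl⟩
  have hU1 : ∀ y ∈ S, eval y (U y) ≠ 0 := by
    intro y hy
    rw [hU, map_mul, map_pow, map_prod]
    refine mul_ne_zero (pow_ne_zero _ (hf y hy).2) (Finset.prod_ne_zero_iff.2 fun y' hy' => ?_)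
    rw [map_pow]
    exact pow_ne_zero _ (hP3 y y' (Finset.ne_of_mem_erase hy').symm)
  have hU2 : ∀ y ∈ S, (U y).totalDegree ≤ T.sup totalDegree * R + R * (R + 1) := by
    intro y hy
    rw [hU]
    refine (totalDegree_mul _ _).trans (Nat.add_le_add ?_ ?_)
    · refine (totalDegree_pow _ _).trans ?_
      rw [mul_comm]
      exact Nat.mul_le_mul_right _ (Finset.le_sup (f := totalDegree) (hf y hy).1)
    · refine (totalDegree_finsetProd _ _).trans ?_
      calc ∑ y' ∈ S.erase y, (P y y' ^ (R + 1)).totalDegree ≤ ∑ y' ∈ S.erase y, (R + 1) := by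
            refine Finset.sum_le_sum fun y' _ => ?_
            refine (totalDegree_pow _ _).trans ?_
            calc (R + 1) * (P y y').totalDegree ≤ (R + 1) * 1 :=
                  Nat.mul_le_mul_left _ (hP1 y y')
              _ = R + 1 := mul_one _
        _ = (S.erase y).card * (R + 1) := by rw [Finset.sum_const, smul_eq_mul]
        _ ≤ R * (R + 1) := Nat.mul_le_mul_right _ ((Finset.card_erase_le).trans hS)
  have hQ : ∀ y : Fin L → ℂ, ∃ Q : MvPolynomial (Fin L) ℂ, y ∈ S → Q.totalDegree ≤ R ∧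
      ∀ z : Fin L → ℕ → ℂ, (fun l => z l 0) = y → ∀ j ≤ R,
        jet (U y * Q) j z = jet G j z := by
    intro y
    by_cases hy : y ∈ S
    · obtain ⟨Q, h1, h2⟩ := loc_inv R y (U y) G (hU1 y hy)
      exact ⟨Q, fun _ => ⟨h1, h2⟩⟩
    · exact ⟨0, fun h => absurd h hy⟩
  choose Q hQ using hQ
  refine ⟨∑ y ∈ S, U y * Q y, ?_, ?_, ?_⟩
  · refine (totalDegree_finsetSum _ _).trans (Finset.sup_le fun y hy => ?_)
    exact (totalDegree_mul _ _).trans (Nat.add_le_add (hU2 y hy) (hQ y hy).1)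
  · intro z j hj hz
    rw [jet_sum]
    refine Finset.sum_eq_zero fun y hy => ?_
    rw [hU, mul_assoc]
    refine jet_mul_zero _ fun i hi => jet_pow_zero (by omega) ?_
    rw [hT, Set.mem_ofPred_eq] at hz
    exact hz (f y) (hf y hy).1
  · intro z hz j hj
    rw [jet_sum, Finset.sum_eq_single (fun l => z l 0)]
    · exact (hQ _ hz).2 z rfl j hj
    · intro y hy hne
      rw [hU]
      have h1 : (fun l => z l 0) ∈ S.erase y := Finset.mem_erase.2 ⟨hne.symm, hz⟩
      rw [← Finset.mul_prod_erase _ _ h1]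
      have h2 : f y ^ R * (P y (fun l => z l 0) ^ (R + 1) *
          ∏ y' ∈ (S.erase y).erase (fun l => z l 0), P y y' ^ (R + 1)) * Q y =
          P y (fun l => z l 0) ^ (R + 1) * (f y ^ R *
            (∏ y' ∈ (S.erase y).erase (fun l => z l 0), P y y' ^ (R + 1)) * Q y) := by
        ring
      rw [h2]
      refine jet_mul_zero _ fun i hi => jet_pow_zero (by omega) ?_
      exact hP2 y _
    · intro h
      exact absurd hz h

end VRJ
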