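import Pool.Agent.VRJ.Indep
import Pool.Agent.VRJ.Interp

/-!
# VRJ-GenEx: existence of generic polynomials

## Plan
As in `Pool/Agent/VRB/GenEx.lean` (copy and adapt). `gen_exists`: let `V` be the subspace of the
polynomials of total degree at most `D` (from `interp`) whose Taylor coefficients of order `< R` along
curves through points of `Y` vanish (a submodule by `jet_add`, `jet_C_mul`); it is finite-dimensional,
let `g : Fin M → MvPolynomial (Fin L) ℂ` be a finite spanning family. `K` = field generated by `K0` and the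
coefficients of the `g k` (`field_ext`), `a` from `exists_indep`, `F = ∑ k, C (a k) * g k`. The last property:
`H = ∑ k, l k • g k` for `H` from `interp`, `jet_sum`, `jet_C_mul`.
`low_exists`: `exists_indep` with `ι = Mon n`.
-/

namespace VRJ

open MvPolynomial

private theorem vjg_jet_zero {L : ℕ} (k : ℕ) (z : Fin L → ℕ → ℂ) :
    jet (0 : MvPolynomial (Fin L) ℂ) k z = 0 := by
  have h := jet_C_mul (0 : ℂ) (0 : MvPolynomial (Fin L) ℂ) k z
  rw [mul_zero, zero_smul] at h
  exact h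

private theorem vjg_jet_smul {L : ℕ} (c : ℂ) (F : MvPolynomial (Fin L) ℂ) (k : ℕ)
    (z : Fin L → ℕ → ℂ) : jet (c • F) k z = c * jet F k z := by
  rw [smul_eq_C_mul, jet_C_mul, smul_eq_mul]

/-- the polynomials of total degree at most `D` which vanish to order `R` on `Y` -/
private def GenExV {L : ℕ} (Y : Set (Fin L → ℂ)) (R D : ℕ) :
    Submodule ℂ (MvPolynomial (Fin L) ℂ) where
  carrier := {G | G.totalDegree ≤ D ∧
    ∀ (z : Fin L → ℕ → ℂ) (j : ℕ), j < R → (fun l => z l 0) ∈ Y → jet G j z = 0}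
  add_mem' := by
    rintro F G ⟨h1, h2⟩ ⟨h3, h4⟩
    refine ⟨(totalDegree_add F G).trans (max_le h1 h3), fun z j hj hz => ?_⟩
    rw [jet_add, h2 z j hj hz, h4 z j hj hz, add_zero]
  zero_mem' := ⟨by rw [totalDegree_zero]; exact Nat.zero_le _, fun z j _ _ => vjg_jet_zero j z⟩
  smul_mem' := by
    rintro c F ⟨h1, h2⟩
    refine ⟨(totalDegree_smul_le c F).trans h1, fun z j hj hz => ?_⟩
    rw [vjg_jet_smul, h2 z j hj hz, mul_zero]

private theorem GenExV_fg {L : ℕ} (Y : Set (Fin L → ℂ)) (R D : ℕ) : (GenExV Y R D).FG := by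
  have h : GenExV Y R D ≤ restrictTotalDegree (Fin L) ℂ D := by
    intro G hG
    rw [mem_restrictTotalDegree]
    exact hG.1
  have h1 : FiniteDimensional ℂ (GenExV Y R D) := Submodule.finiteDimensional_of_le h
  exact Module.Finite.iff_fg.1 h1

theorem gen_exists {L : ℕ} {Y : Set (Fin L → ℂ)} (hY : IsAlg Y) (R : ℕ) (K0 : Subfield ℂ)
    (hK0 : (K0 : Set ℂ).Countable) :
    ∃ (K : Subfield ℂ) (F : MvPolynomial (Fin L) ℂ),
      K0 ≤ K ∧ (K : Set ℂ).Countable ∧ Gen K Y R F := by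
  obtain ⟨D, hD⟩ := interp hY R
  obtain ⟨M, g, hg⟩ := Submodule.fg_iff_exists_fin_generating_family.1 (GenExV_fg Y R D)
  obtain ⟨K, hK0K, hKS, hK⟩ := field_ext K0 hK0
    (Set.range fun p : Fin M × (Fin L →₀ ℕ) => coeff p.2 (g p.1)) (Set.countable_range _)
  obtain ⟨a, ha⟩ := exists_indep K hK (Fin M)
  have hgV : ∀ k, g k ∈ GenExV Y R D := fun k => by
    rw [← hg]
    exact Submodule.subset_span ⟨k, rfl⟩
  refine ⟨K, ∑ k, C (a k) * g k, hK0K, hK, M, g, a, ?_, ha, rfl, ?_, ?_⟩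
  · intro k m
    exact hKS ⟨(k, m), rfl⟩
  · intro k z j hj hz
    exact (hgV k).2 z j hj hz
  · intro S hS hSY G
    obtain ⟨H, hH1, hH2, hH3⟩ := hD S hS hSY G
    have hH : H ∈ Submodule.span ℂ (Set.range g) := by
      rw [hg]
      exact ⟨hH1, hH2⟩
    obtain ⟨l, hl⟩ := (Submodule.mem_span_range_iff_exists_fun ℂ).1 hH
    refine ⟨l, fun z hz j hj => ?_⟩
    rw [← hH3 z hz j hj, ← hl, jet_sum]
    refine Finset.sum_congr rfl fun k _ => ?_
    rw [vjg_jet_smul]

theorem low_exists (n : ℕ) (K : Subfield ℂ) (hK : (K : Set ℂ).Countable) :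
    ∃ F : MvPolynomial (Fin (6 * n + 1)) ℂ, Low K n F := by
  obtain ⟨a, ha⟩ := exists_indep K hK (Mon n)
  exact ⟨∑ p, C (a p) * mono n p, a, ha, rfl⟩

end VRJ
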