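import Pool.Agent.VRJ.NpP

/-!
# VRJ-GraphP: the equation `y = f_n(x)` can be tested in polynomial time

## Plan
Let `e` be a code with `dec e = (Prog.pop 0, 0, 0)` (`dec_surj`), so `kk e = 0`, `ex e = 0`, `mm e N = N`, `yb e N = 1`,
`tb e N = 1`, `lb e N = N + 2 + 2 (N + 3) ^ 2 < 3 (N + 2) ^ 3`. `Kset Φ e N = Gset Φ N N`. `search_prog Φ e [] 3 q` with
`q = 3 e + 2`: `d = 3 (N + 2) ^ 3 + 2 N + q`, the length `3 + N + d` is `2` modulo `3`, larger than `e` and `lb e N`.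
Hypothesis of `search_prog`: `decide_kset` with `z i = x.getD i 0` (`List.ofFn z = x`), and
`x ∈ Grl Φ ↔ z ∈ Kset Φ e N` (`zx z = fun v => x.getD v 0`). Compare with the proof of `np_p`.
-/

namespace VRJ

open MvPolynomial

/-- the pairs `(x, y)`, as lists of length `n + 1`, with `y = f_n(x)` -/
def Grl (Φ : Orc) : Set (List ℂ) :=
  {l | ∃ n, l.length = n + 1 ∧ eval (fun v => l.getD v 0) (X n - fam Φ n) = 0}

theorem graph_p {A Φ : Orc} {K : ℕ → Subfield ℂ} (hT : Tower A Φ K (fun L => Yset L Φ)) :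
    InP Φ (Grl Φ) := by
  obtain ⟨e, he⟩ := dec_surj (Prog.pop 0, 0, 0)
  have hk : kk e = 0 := by
    unfold kk
    rw [he]
  have hx : ex e = 0 := by
    unfold ex
    rw [he]
  have hm : ∀ N, mm e N = N := fun N => by
    unfold mm
    rw [hk, Nat.add_zero]
  refine search_prog Φ e [] 3 (3 * e + 2) (Grl Φ) fun x => ?_
  obtain ⟨N, hN⟩ : ∃ N, N = x.length := ⟨_, rfl⟩
  obtain ⟨d, hd⟩ : ∃ d, d = 3 * (N + 2) ^ 3 + 2 * N + (3 * e + 2) := ⟨_, rfl⟩
  obtain ⟨z, hz⟩ : ∃ z : Fin (mm e N) → ℂ, z = fun i : Fin (mm e N) => x.getD (i : ℕ) 0 := ⟨_, rfl⟩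
  have hofn : List.ofFn z = x := by
    apply List.ext_getElem
    · rw [List.length_ofFn, hm, hN]
    · intro i h1 h2
      rw [List.getElem_ofFn]
      subst hz
      exact List.getD_eq_getElem _ _ h2
  have hzx : zx z = fun v => x.getD v 0 := by
    funext v
    unfold zx
    split_ifs with h
    · rw [hz]
    · rw [List.getD_eq_default]
      rw [hm] at h
      omega
  have hlb : lb e N < 3 + mm e N + d := by
    unfold lb tb yb
    rw [hx, pow_zero, pow_zero, hm, hd]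
    nlinarith [Nat.zero_le (N ^ 3), Nat.zero_le (N ^ 2), Nat.zero_le e]
  obtain ⟨r, hr, hne, h0, hodd⟩ := decide_kset hT e N d (by rw [hm, hd]; omega)
    (by rw [hd]; omega) hlb z
  rw [hofn] at hne
  rw [hm] at hr
  rw [← hN, List.append_nil, ← hd, List.length_nil, Nat.add_zero]
  refine ⟨r, hr, hne, fun r' hr' => ?_, ?_⟩
  · have := h0 r' hr'
    rwa [hofn] at this
  · rw [← hodd]
    unfold Kset
    rw [if_pos hk]
    unfold Grl Gset
    rw [Set.mem_ofPred_eq, Set.mem_ofPred_eq, hzx, hN]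

end VRJ
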