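import Pool.Agent.VRJ.Sym
import Pool.Agent.VRJ.ConProj

/-!
# VRJ-KsetCon: the sets accepted by nondeterministic programs are constructible

Symbolic execution (`sym`) from the symbolic initial state whose entries are the coordinates, and
projection of constructible sets (`con_proj`).
-/

namespace VRJ

open MvPolynomial

/-- the condition that the top of stack `0` of a symbolic state is `1` -/
private def accSet {N : ℕ} (l : List (Fr N)) : Set (Fin N → ℂ) :=
  {z | ∃ f, l.head? = some f ∧ eval z (f.1 - f.2) = 0}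

private theorem accSet_con {N : ℕ} (l : List (Fr N)) : Con (accSet l) := by
  rcases l with _ | ⟨f, l⟩
  · have : accSet ([] : List (Fr N)) = ∅ := by
      ext z
      simp [accSet]
    rw [this]
    exact con_empty
  · have : accSet (f :: l) = {z | eval z (f.1 - f.2) = 0} := by
      ext z
      simp [accSet]
    rw [this]
    exact con_zero _

private theorem accSet_iff {N : ℕ} (z : Fin N → ℂ) (S : SSt N) (h : sok z S) :
    Acc (sev z S) ↔ z ∈ accSet (S 0) := by
  unfold Acc sev accSet
  have h0 := h 0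
  rcases hS : S 0 with _ | ⟨f, l⟩
  · simp
  · have hf : fok z f := h0 f (by rw [hS]; exact List.mem_cons_self)
    unfold fok at hf
    constructor
    · intro h1
      refine ⟨f, rfl, ?_⟩
      have h2 : fval z f = 1 := by simpa using h1
      unfold fval at h2
      rw [div_eq_one_iff_eq hf] at h2
      rw [map_sub, h2, sub_self]
    · rintro ⟨f', h1, h2⟩
      have h3 : f = f' := by simpa using h1
      subst h3
      rw [map_sub, sub_eq_zero] at h2
      have h4 : fval z f = 1 := by
        unfold fval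
        rw [div_eq_one_iff_eq hf, h2]
      simp [h4]

theorem acc_con (Φ : Orc) (s : Prog ℕ) (n m q T : ℕ) (hm : n ≤ m) :
    Con {w : Fin (m + q) → ℂ | ∃ (σ : St) (t : ℕ), t ≤ T ∧
      Run Φ (s.map fun r => if h : n + r < m then w ⟨n + r, by omega⟩ else 0)
        (inp (List.ofFn fun i : Fin n => w ⟨i, by omega⟩)
          (List.ofFn fun i : Fin q => w ⟨m + i, by omega⟩)) σ t ∧ Acc σ} := by
  set c : ℕ → MvPolynomial (Fin (m + q)) ℂ :=
    fun r => if h : n + r < m then X ⟨n + r, by omega⟩ else 0 with hc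
  set S : SSt (m + q) := fun i =>
    if i = 0 then List.ofFn fun i : Fin n =>
      ((X ⟨i, by omega⟩, 1) : Fr (m + q))
    else if i = 1 then List.ofFn fun i : Fin q => ((X ⟨m + i, by omega⟩, 1) : Fr (m + q))
    else [] with hS
  have hcz : ∀ w : Fin (m + q) → ℂ, (fun r => eval w (c r)) =
      fun r => if h : n + r < m then w ⟨n + r, by omega⟩ else 0 := by
    intro w
    funext r
    simp only [hc]
    split_ifs with h
    · rw [eval_X]
    · rw [map_zero]
  have hfv : ∀ (w : Fin (m + q) → ℂ) (v : Fin (m + q)), fval w ((X v, 1) : Fr (m + q)) = w v := by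
    intro w v
    unfold fval
    rw [eval_X, map_one, div_one]
  have hSz : ∀ w : Fin (m + q) → ℂ, sev w S =
      inp (List.ofFn fun i : Fin n => w ⟨i, by omega⟩)
          (List.ofFn fun i : Fin q => w ⟨m + i, by omega⟩) := by
    intro w
    funext i
    unfold sev inp
    simp only [hS]
    split_ifs with h0 h1
    · rw [List.map_ofFn]
      congr 1
      funext i
      exact hfv w _
    · rw [List.map_ofFn]
      congr 1
      funext i
      exact hfv w _
    · rfl
  have hok : ∀ w : Fin (m + q) → ℂ, sok w S := by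
    intro w i f hf
    unfold fok
    simp only [hS] at hf
    split_ifs at hf with h0 h1
    · rw [List.mem_ofFn] at hf
      obtain ⟨j, rfl⟩ := hf
      simp
    · rw [List.mem_ofFn] at hf
      obtain ⟨j, rfl⟩ := hf
      simp
    · exact absurd hf List.not_mem_nil
  obtain ⟨out, hcon, hout⟩ := sym Φ c T s S
  have key : {w : Fin (m + q) → ℂ | ∃ (σ : St) (t : ℕ), t ≤ T ∧
      Run Φ (s.map fun r => if h : n + r < m then w ⟨n + r, by omega⟩ else 0)
        (inp (List.ofFn fun i : Fin n => w ⟨i, by omega⟩)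
          (List.ofFn fun i : Fin q => w ⟨m + i, by omega⟩)) σ t ∧ Acc σ} =
      {w | ∃ o ∈ out, w ∈ o.1 ∩ accSet (o.2.1 0)} := by
    ext w
    obtain ⟨h1, h2⟩ := hout w (hok w)
    rw [hcz w, hSz w] at h2
    rw [hcz w, hSz w] at h1
    constructor
    · rintro ⟨σ, t, ht, hr, ha⟩
      obtain ⟨o, ho, hwo, hσ, _⟩ := h2 σ t ht hr
      refine ⟨o, ho, hwo, ?_⟩
      rw [← accSet_iff w o.2.1 (h1 o ho hwo).1, ← hσ]
      exact ha
    · rintro ⟨o, ho, hwo, ha⟩
      obtain ⟨h3, h4, h5⟩ := h1 o ho hwo
      refine ⟨sev w o.2.1, o.2.2, h4, h5, ?_⟩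
      rw [accSet_iff w o.2.1 h3]
      exact ha
  rw [key]
  exact con_list out (fun o => o.1 ∩ accSet (o.2.1 0))
    (fun o ho => con_inter (hcon o ho) (accSet_con _))

theorem rset_con (Φ : Orc) (e n : ℕ) : Con (Rset Φ e n) := by
  have hm : n ≤ mm e n := Nat.le_add_right _ _
  set A : ∀ q : ℕ, Set (Fin (mm e n + q) → ℂ) := fun q =>
    {w : Fin (mm e n + q) → ℂ | ∃ (σ : St) (t : ℕ), t ≤ tb e n ∧
      Run Φ ((dec e).1.map fun r => if h : n + r < mm e n then w ⟨n + r, by omega⟩ else 0)
        (inp (List.ofFn fun i : Fin n => w ⟨i, by omega⟩)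
          (List.ofFn fun i : Fin q => w ⟨mm e n + i, by omega⟩)) σ t ∧ Acc σ} with hA
  have hmem : ∀ (q : ℕ) (z : Fin (mm e n) → ℂ) (y : Fin q → ℂ), Fin.append z y ∈ A q ↔
      ∃ (σ : St) (t : ℕ), t ≤ tb e n ∧
      Run Φ ((dec e).1.map fun r => if h : n + r < mm e n then z ⟨n + r, h⟩ else 0)
        (inp (List.ofFn fun i : Fin n => z ⟨i, Nat.lt_of_lt_of_le i.2 (Nat.le_add_right _ _)⟩)
          (List.ofFn y)) σ t ∧ Acc σ := by
    intro q z y
    have e1 : (fun r => if h : n + r < mm e n then
        Fin.append z y (⟨n + r, by omega⟩ : Fin (mm e n + q)) else (0 : ℂ)) =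
        fun r => if h : n + r < mm e n then z ⟨n + r, h⟩ else 0 := by
      funext r
      split_ifs with h
      · exact Fin.append_left z y ⟨n + r, h⟩
      · rfl
    have e2 : (fun i : Fin n => Fin.append z y (⟨i, by omega⟩ : Fin (mm e n + q))) =
        fun i : Fin n => z ⟨i, Nat.lt_of_lt_of_le i.2 (Nat.le_add_right _ _)⟩ := by
      funext i
      exact Fin.append_left z y ⟨i, Nat.lt_of_lt_of_le i.2 (Nat.le_add_right _ _)⟩
    have e3 : (fun i : Fin q => Fin.append z y (⟨mm e n + i, by omega⟩ : Fin (mm e n + q))) = y := by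
      funext i
      exact Fin.append_right z y i
    have e4 : Fin.append z y ∈ A q ↔ ∃ (σ : St) (t : ℕ), t ≤ tb e n ∧
      Run Φ ((dec e).1.map fun r => if h : n + r < mm e n then
          Fin.append z y (⟨n + r, by omega⟩ : Fin (mm e n + q)) else 0)
        (inp (List.ofFn fun i : Fin n => Fin.append z y (⟨i, by omega⟩ : Fin (mm e n + q)))
          (List.ofFn fun i : Fin q =>
            Fin.append z y (⟨mm e n + i, by omega⟩ : Fin (mm e n + q)))) σ t ∧ Acc σ := Iff.rfl
    rw [e4, e1, e2, e3]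
  have key : Rset Φ e n = {z | ∃ q ≤ yb e n, z ∈ {z : Fin (mm e n) → ℂ |
      ∃ y : Fin q → ℂ, Fin.append z y ∈ A q}} := by
    ext z
    constructor
    · rintro ⟨y, σ, t, hy, ht, hr, ha⟩
      refine ⟨y.length, hy, y.get, ?_⟩
      rw [hmem]
      refine ⟨σ, t, ht, ?_, ha⟩
      rw [List.ofFn_get]
      exact hr
    · rintro ⟨q, hq, y, hy⟩
      rw [hmem] at hy
      obtain ⟨σ, t, ht, hr, ha⟩ := hy
      exact ⟨List.ofFn y, σ, t, by rw [List.length_ofFn]; exact hq, ht, hr, ha⟩
  rw [key]
  exact con_le (yb e n) (fun q => {z : Fin (mm e n) → ℂ | ∃ y : Fin q → ℂ, Fin.append z y ∈ A q})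
    fun q _ => con_proj (acc_con Φ (dec e).1 n (mm e n) q (tb e n) hm)

/-- values at a point extended by zeros, as values of a polynomial in `m` variables -/
private theorem kc_zx {m : ℕ} (z : Fin m → ℂ) (F : MvPolynomial ℕ ℂ) :
    eval (zx z) F = eval z (bind₁ (fun v => if h : v < m then
      (X ⟨v, h⟩ : MvPolynomial (Fin m) ℂ) else 0) F) := by
  have h1 : (zx z) = fun v => eval z (if h : v < m then
      (X ⟨v, h⟩ : MvPolynomial (Fin m) ℂ) else 0) := by
    funext v
    unfold zx
    split_ifs <;> simp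
  rw [h1, ← aeval_eq_eval, ← aeval_eq_eval, aeval_bind₁]

theorem gset_con (Φ : Orc) (N m : ℕ) : Con (Gset Φ N m) := by
  by_cases hN : ∃ n, N = n + 1
  · obtain ⟨n, hn⟩ := hN
    have h1 := con_zero (bind₁ (fun v => if h : v < m then
      (X ⟨v, h⟩ : MvPolynomial (Fin m) ℂ) else 0) (X n - fam Φ n))
    have h2 : Gset Φ N m = {z | eval z (bind₁ (fun v => if h : v < m then
      (X ⟨v, h⟩ : MvPolynomial (Fin m) ℂ) else 0) (X n - fam Φ n)) = 0} := by
      ext z
      constructor
      · rintro ⟨n', hn', h⟩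
        have : n' = n := by omega
        subst this
        rw [Set.mem_ofPred_eq, ← kc_zx]
        exact h
      · intro h
        rw [Set.mem_ofPred_eq, ← kc_zx] at h
        exact ⟨n, hn, h⟩
    rw [h2]
    exact h1
  · have h2 : Gset Φ N m = ∅ := by
      ext z
      simp only [Set.mem_empty_iff_false, iff_false]
      rintro ⟨n, hn, _⟩
      exact hN ⟨n, hn⟩
    rw [h2]
    exact con_empty

theorem kset_con (Φ : Orc) (e n : ℕ) : Con (Kset Φ e n) := by
  unfold Kset
  split_ifs
  · exact gset_con Φ n (mm e n)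
  · exact rset_con Φ e n

end VRJ
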