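import Pool.Agent.VRJ.Dcal

/-!
# VRJ-LbRun: differentials of the values of a circuit

`qv Φ Y q`: the differential of the coefficients of `Φ L` in the Taylor coefficient asked for by the query
`q = (L, k, z)`, except when this is `0` because `z` starts in `Y L`, `L = 2 mod 3`, `k < 2 ^ L`.

## Plan
As in `Pool/Agent/VRB/LbRun.lean` (copy and adapt). The queries for a Boolean point `x` are the triples
`(L, k, fun l r => eval (pv x) (g (w l r)))` for the oracle gates (at most `s` for each `x`, `k + 1 ≤ s` by
`(L + 1) * (k + 1) ≤ s`; use a default query `(0, 0, _)` for the other gates, its weight `0 + 1 ≤ s`).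
`eval (pv x) (jet (Φ L) k fun l r => g (w l r)) = jet (Φ L) k fun l r => eval (pv x) (g (w l r))` (`jet_map` with
`aeval (pv x)`). If `L % 3 = 2`, `k < 2 ^ L` and the curve starts in `Y L` the value is `0` (`hY`), otherwise
`dd_jet`.
-/

namespace VRJ

open MvPolynomial

/-- the Boolean point as a valuation of the variables -/
noncomputable def pv {n : ℕ} (x : Fin n → Bool) : ℕ → ℂ := fun v =>
  if h : v < n then (if x ⟨v, h⟩ then 1 else 0) else 0

open Classical in
/-- the new differential of a query -/
noncomputable def qv (Φ : Orc) (Y : ∀ L, Set (Fin L → ℂ)) (q : Qy) : Om :=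
  if q.1 % 3 = 2 ∧ q.2.1 < 2 ^ q.1 ∧ (fun l => q.2.2 l 0) ∈ Y q.1 then 0
  else dc (Φ q.1) q.2.1 q.2.2

theorem lb_run {Φ : Orc} {Y : ∀ L, Set (Fin L → ℂ)}
    (hY : ∀ L, L % 3 = 2 → ∀ (z : Fin L → ℕ → ℂ) (j : ℕ), j < 2 ^ L → (fun l => z l 0) ∈ Y L →
      jet (Φ L) j z = 0) {s : ℕ} {f : MvPolynomial ℕ ℂ}
    (hf : Comp Φ s f) {n : ℕ} (N : Finset (Fin n → Bool)) :
    ∃ (C : Finset ℂ) (Q : Finset Qy), C.card ≤ s ∧ ∑ q ∈ Q, (q.2.1 + 1) ≤ N.card * s * s ∧
      ∀ x ∈ N, dd (eval (pv x) f) ∈
        Submodule.span ℂ (dd '' (C : Set ℂ)) ⊔ Submodule.span ℂ (qv Φ Y '' (Q : Set Qy)) := by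
  classical
  obtain ⟨g, ⟨i0, hi0⟩, hg⟩ := hf
  let cst : Fin s → ℂ := fun i => if h : ∃ c : ℂ, g i = C c then h.choose else 0
  let qr : (Fin n → Bool) → Fin s → Qy := fun x i =>
    if h : ∃ (L k : ℕ) (w : Fin L → ℕ → Fin s), (L + 1) * (k + 1) ≤ s ∧
        (∀ l, ∀ r ≤ k, w l r < i) ∧ g i = jet (Φ L) k fun l r => g (w l r) then
      ⟨h.choose, h.choose_spec.choose,
        fun l r => eval (pv x) (g (h.choose_spec.choose_spec.choose l r))⟩
    else ⟨0, 0, fun l => l.elim0⟩
  have hk : ∀ x i, (qr x i).2.1 + 1 ≤ s := by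
    intro x i
    by_cases h : ∃ (L k : ℕ) (w : Fin L → ℕ → Fin s), (L + 1) * (k + 1) ≤ s ∧
        (∀ l, ∀ r ≤ k, w l r < i) ∧ g i = jet (Φ L) k fun l r => g (w l r)
    · have h1 : (qr x i).2.1 = h.choose_spec.choose := by
        simp only [qr]
        rw [dif_pos h]
      rw [h1]
      have h2 := h.choose_spec.choose_spec.choose_spec.1
      exact (Nat.le_mul_of_pos_left _ (Nat.succ_pos _)).trans h2
    · have h1 : (qr x i).2.1 = 0 := by
        simp only [qr]
        rw [dif_neg h]
      rw [h1]
      have := i.pos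
      omega
  refine ⟨Finset.univ.image cst,
    (N ×ˢ (Finset.univ : Finset (Fin s))).image (fun q => qr q.1 q.2), ?_, ?_, ?_⟩
  · exact Finset.card_image_le.trans (by simp)
  · refine (Finset.sum_le_card_nsmul _ _ s ?_).trans ?_
    · intro q hq
      obtain ⟨p, -, rfl⟩ := Finset.mem_image.1 hq
      exact hk p.1 p.2
    · rw [smul_eq_mul]
      refine Nat.mul_le_mul_right s (Finset.card_image_le.trans ?_)
      rw [Finset.card_product, Finset.card_univ, Fintype.card_fin]
  · intro x hx
    set W : Submodule ℂ Om := Submodule.span ℂ (dd '' ((Finset.univ.image cst : Finset ℂ) : Set ℂ)) ⊔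
      Submodule.span ℂ (qv Φ Y '' (((N ×ˢ (Finset.univ : Finset (Fin s))).image
        (fun q => qr q.1 q.2) : Finset Qy) : Set Qy)) with hW
    have hcW : ∀ i, dd (cst i) ∈ W := by
      intro i
      apply Submodule.mem_sup_left
      apply Submodule.subset_span
      exact ⟨cst i, by simp, rfl⟩
    have hqW : ∀ i, qv Φ Y (qr x i) ∈ W := by
      intro i
      apply Submodule.mem_sup_right
      apply Submodule.subset_span
      refine ⟨qr x i, ?_, rfl⟩
      rw [Finset.mem_coe, Finset.mem_image]
      exact ⟨(x, i), by simp [hx], rfl⟩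
    have main : ∀ (k : ℕ) (i : Fin s), (i : ℕ) = k → dd (eval (pv x) (g i)) ∈ W := by
      intro k
      induction k using Nat.strong_induction_on with
      | _ k ih =>
        intro i hik
        have ih' : ∀ j : Fin s, j < i → dd (eval (pv x) (g j)) ∈ W := fun j hj =>
          ih j (by rw [← hik]; exact hj) j rfl
        rcases hg i with hc | ⟨v, hv⟩ | ⟨j, l, hj, hl, h3⟩ | h4
        · have h1 : g i = C (cst i) := by
            have : cst i = hc.choose := by simp only [cst]; rw [dif_pos hc]
            rw [this]; exact hc.choose_spec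
          rw [h1, eval_C]
          exact hcW i
        · rw [hv, eval_X]
          unfold pv
          split_ifs
          · rw [dd_one]; exact W.zero_mem
          · rw [dd_zero]; exact W.zero_mem
          · rw [dd_zero]; exact W.zero_mem
        · rcases h3 with h3 | h3 | h3
          · rw [h3, map_add, dd_add]; exact W.add_mem (ih' j hj) (ih' l hl)
          · rw [h3, map_sub, dd_sub]; exact W.sub_mem (ih' j hj) (ih' l hl)
          · rw [h3, map_mul, dd_mul]
            exact W.add_mem (W.smul_mem _ (ih' l hl)) (W.smul_mem _ (ih' j hj))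
        · obtain ⟨hL, hw, hgi⟩ := h4.choose_spec.choose_spec.choose_spec
          have hqr : qr x i = ⟨h4.choose, h4.choose_spec.choose,
              fun l r => eval (pv x) (g (h4.choose_spec.choose_spec.choose l r))⟩ := by
            simp only [qr]; rw [dif_pos h4]
          have hq := hqW i
          rw [hqr] at hq
          generalize h4.choose_spec.choose_spec.choose = w at hw hgi hq
          generalize h4.choose_spec.choose = r at w hL hw hgi hq
          generalize h4.choose = L at w hL hw hgi hq
          set z : Fin L → ℕ → ℂ := fun l t => eval (pv x) (g (w l t)) with hz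
          have hev : eval (pv x) (g i) = jet (Φ L) r z := by
            rw [hgi]
            exact jet_map (aeval (pv x)) (Φ L) r fun l t => g (w l t)
          rw [hev]
          by_cases hY' : L % 3 = 2 ∧ r < 2 ^ L ∧ (fun l => z l 0) ∈ Y L
          · rw [hY L hY'.1 z r hY'.2.1 hY'.2.2, dd_zero]; exact W.zero_mem
          · have hqv : qv Φ Y ⟨L, r, z⟩ = dc (Φ L) r z := by
              unfold qv
              rw [if_neg hY']
            rw [hqv] at hq
            have h5 := dd_jet (Φ L) r z
            have h6 : Submodule.span ℂ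
                (Set.range fun p : Fin L × Fin (r + 1) => dd (z p.1 p.2)) ≤ W := by
              rw [Submodule.span_le]
              rintro _ ⟨p, rfl⟩
              exact ih' (w p.1 p.2) (hw p.1 p.2 (Nat.lt_succ_iff.1 p.2.2))
            have h7 := W.add_mem (h6 h5) hq
            rwa [sub_add_cancel] at h7
    rw [← hi0]
    exact main i0 i0 rfl

end VRJ
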