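import Pool.Agent.VRJ.Jet

/-!
# VRJ-LocInv: local inverses and Taylor polynomials

`trunc`: the Taylor polynomial of `G` at `y`; the remainder is a combination of products of more
than `R` factors `X l - C (y l)`. `loc_inv`: geometric series for the inverse of `U` at a point
where `U` does not vanish, then `trunc`.
-/

namespace VRJ

open MvPolynomial

private theorem li_sub {L : ℕ} (F G : MvPolynomial (Fin L) ℂ) (k : ℕ) (z : Fin L → ℕ → ℂ) :
    jet (F - G) k z = jet F k z - jet G k z := by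
  unfold jet
  rw [map_sub, Polynomial.coeff_sub]

/-- orders of vanishing add up -/
private theorem li_mul {L : ℕ} {F G : MvPolynomial (Fin L) ℂ} {r s : ℕ} {z : Fin L → ℕ → ℂ}
    (hF : ∀ j < r, jet F j z = 0) (hG : ∀ j < s, jet G j z = 0) :
    ∀ j < r + s, jet (F * G) j z = 0 := by
  intro j hj
  rw [jet_mul]
  refine Finset.sum_eq_zero fun i hi => ?_
  rw [Finset.mem_range] at hi
  by_cases h : i < r
  · rw [hF i h, zero_mul]
  · rw [hG (j - i) (by omega), mul_zero]

private theorem li_prod {L : ℕ} (m : Fin L → ℕ) {y : Fin L → ℂ} {z : Fin L → ℕ → ℂ}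
    (hz : (fun l => z l 0) = y) (s : Finset (Fin L)) :
    ∀ j < ∑ l ∈ s, m l, jet (∏ l ∈ s, (X l - C (y l)) ^ m l) j z = 0 := by
  classical
  induction s using Finset.induction_on with
  | empty =>
    intro j hj
    simp at hj
  | insert l s hl ih =>
    rw [Finset.sum_insert hl, Finset.prod_insert hl]
    refine li_mul (fun j hj => ?_) ih
    refine jet_pow_zero hj ?_
    rw [map_sub, aeval_X, aeval_C, ← hz]
    exact sub_self _

/-- powers of the shifted variables -/
private noncomputable def li_mon {L : ℕ} (y : Fin L → ℂ) (m : Fin L →₀ ℕ) :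
    MvPolynomial (Fin L) ℂ := ∏ l, (X l - C (y l)) ^ m l

private theorem li_deg {L : ℕ} (y : Fin L → ℂ) (m : Fin L →₀ ℕ) :
    (li_mon y m).totalDegree ≤ ∑ l, m l := by
  unfold li_mon
  refine (totalDegree_finsetProd _ _).trans ?_
  refine Finset.sum_le_sum fun l _ => ?_
  refine (totalDegree_pow _ _).trans ?_
  have h1 : (X l - C (y l) : MvPolynomial (Fin L) ℂ).totalDegree ≤ 1 := by
    refine (totalDegree_sub _ _).trans ?_
    rw [totalDegree_X, totalDegree_C]
    exact le_rfl
  calc m l * (X l - C (y l) : MvPolynomial (Fin L) ℂ).totalDegree ≤ m l * 1 :=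
        Nat.mul_le_mul_left _ h1
    _ = m l := mul_one _

private theorem li_expand {L : ℕ} (y : Fin L → ℂ) (G : MvPolynomial (Fin L) ℂ) :
    ∃ (s : Finset (Fin L →₀ ℕ)) (c : (Fin L →₀ ℕ) → ℂ), G = ∑ m ∈ s, C (c m) * li_mon y m := by
  have h1 : bind₁ (fun l => X l - C (y l)) (bind₁ (fun l => X l + C (y l)) G) = G := by
    rw [bind₁_bind₁]
    have h2 : (fun i : Fin L => bind₁ (fun l => X l - C (y l)) (X i + C (y i) :
        MvPolynomial (Fin L) ℂ)) = X := by
      funext i
      rw [map_add, bind₁_X_right, bind₁_C_right, sub_add_cancel]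
    rw [h2, bind₁_X_left]
    rfl
  refine ⟨(bind₁ (fun l => X l + C (y l)) G).support,
    fun m => coeff m (bind₁ (fun l => X l + C (y l)) G), ?_⟩
  conv_lhs => rw [← h1]
  rw [bind₁, aeval_def, eval₂_eq]
  refine Finset.sum_congr rfl fun m _ => ?_
  unfold li_mon
  rw [Finset.prod_subset (Finset.subset_univ m.support) (fun l _ hl => by
    rw [Finsupp.notMem_support_iff.1 hl, pow_zero])]
  rfl

theorem trunc {L : ℕ} (R : ℕ) (y : Fin L → ℂ) (G : MvPolynomial (Fin L) ℂ) :
    ∃ T : MvPolynomial (Fin L) ℂ, T.totalDegree ≤ R ∧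
      ∀ z : Fin L → ℕ → ℂ, (fun l => z l 0) = y → ∀ j ≤ R, jet T j z = jet G j z := by
  classical
  obtain ⟨s, c, hG⟩ := li_expand y G
  refine ⟨∑ m ∈ s.filter (fun m => ∑ l, m l ≤ R), C (c m) * li_mon y m, ?_, ?_⟩
  · refine (totalDegree_finsetSum _ _).trans ?_
    refine Finset.sup_le fun m hm => ?_
    refine (totalDegree_mul _ _).trans ?_
    rw [totalDegree_C, zero_add]
    exact (li_deg y m).trans (Finset.mem_filter.1 hm).2
  · intro z hz j hj
    conv_rhs => rw [hG]
    rw [← Finset.sum_filter_add_sum_filter_not s (fun m => ∑ l, m l ≤ R), jet_add]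
    have h1 : jet (∑ m ∈ s.filter (fun m => ¬ ∑ l, m l ≤ R), C (c m) * li_mon y m) j z = 0 := by
      rw [jet_sum]
      refine Finset.sum_eq_zero fun m hm => ?_
      have hm2 := (Finset.mem_filter.1 hm).2
      rw [jet_C_mul]
      have h2 : jet (li_mon y m) j z = 0 := li_prod (fun l => m l) hz Finset.univ j (by omega)
      rw [h2, smul_zero]
    rw [h1, add_zero]

theorem loc_inv {L : ℕ} (R : ℕ) (y : Fin L → ℂ) (U G : MvPolynomial (Fin L) ℂ)
    (hU : eval y U ≠ 0) :
    ∃ Q : MvPolynomial (Fin L) ℂ, Q.totalDegree ≤ R ∧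
      ∀ z : Fin L → ℕ → ℂ, (fun l => z l 0) = y → ∀ j ≤ R, jet (U * Q) j z = jet G j z := by
  obtain ⟨W, hW⟩ : ∃ W, W = 1 - C (eval y U)⁻¹ * U := ⟨_, rfl⟩
  obtain ⟨Q', hQ'⟩ : ∃ Q', Q' = C (eval y U)⁻¹ * G * ∑ i ∈ Finset.range (R + 1), W ^ i :=
    ⟨_, rfl⟩
  have h1 : U * Q' = G - W ^ (R + 1) * G := by
    have h2 := mul_neg_geom_sum W (R + 1)
    have h3 : 1 - W = C (eval y U)⁻¹ * U := by
      rw [hW]
      ring
    rw [h3] at h2
    calc U * Q' = G * (C (eval y U)⁻¹ * U * ∑ i ∈ Finset.range (R + 1), W ^ i) := by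
          rw [hQ']
          ring
      _ = G - W ^ (R + 1) * G := by
          rw [h2]
          ring
  obtain ⟨Q, hQ1, hQ2⟩ := trunc R y Q'
  refine ⟨Q, hQ1, fun z hz j hj => ?_⟩
  have h4 : jet (U * Q) j z = jet (U * Q') j z := by
    rw [jet_mul, jet_mul]
    refine Finset.sum_congr rfl fun i hi => ?_
    rw [hQ2 z hz (j - i) (by omega)]
  have h5 : aeval (fun l => z l 0) W = 0 := by
    have h6 : aeval (fun l => z l 0) U = eval y U := by
      rw [hz]
      rfl
    rw [hW, map_sub, map_one, map_mul, aeval_C, h6]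
    change (1 : ℂ) - (eval y U)⁻¹ * eval y U = 0
    rw [inv_mul_cancel₀ hU, sub_self]
  have h7 : jet (W ^ (R + 1) * G) j z = 0 := by
    apply jet_mul_zero
    intro i hi
    exact jet_pow_zero (by omega) h5
  rw [h4, h1, li_sub, h7, sub_zero]

end VRJ
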