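import Pool.Agent.VRJ.SkelDef

/-!
# VRJ-Skel: every program is a skeleton with constants

The constants of a program are collected in a list, subprogram by subprogram; the skeleton contains
their positions in the list. The induction needs a version with a shift of the positions.
-/

namespace VRJ

private theorem skel_aux (p : Prog ℂ) : ∀ n : ℕ, ∃ (s : Prog ℕ) (c : List ℂ),
    ∀ c1 c2 : List ℂ, c1.length = n → p = s.map (fun r => (c1 ++ c ++ c2).getD r 0) := by
  have two : ∀ p q : Prog ℂ,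
      (∀ n : ℕ, ∃ (s : Prog ℕ) (c : List ℂ), ∀ c1 c2 : List ℂ, c1.length = n →
        p = s.map (fun r => (c1 ++ c ++ c2).getD r 0)) →
      (∀ n : ℕ, ∃ (s : Prog ℕ) (c : List ℂ), ∀ c1 c2 : List ℂ, c1.length = n →
        q = s.map (fun r => (c1 ++ c ++ c2).getD r 0)) →
      ∀ n : ℕ, ∃ (s t : Prog ℕ) (c : List ℂ), ∀ c1 c2 : List ℂ, c1.length = n →
        p = s.map (fun r => (c1 ++ c ++ c2).getD r 0) ∧
        q = t.map (fun r => (c1 ++ c ++ c2).getD r 0) := by
    intro p q hp hq n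
    obtain ⟨s, c, h1⟩ := hp n
    obtain ⟨t, d, h2⟩ := hq (n + c.length)
    refine ⟨s, t, c ++ d, fun c1 c2 hc => ⟨?_, ?_⟩⟩
    · have := h1 c1 (d ++ c2) hc
      simpa [List.append_assoc] using this
    · have := h2 (c1 ++ c) c2 (by simp [hc])
      simpa [List.append_assoc] using this
  induction p with
  | push i x =>
    intro n
    refine ⟨.push i n, [x], fun c1 c2 hc => ?_⟩
    subst hc
    simp [Prog.map]
  | pop i => exact fun n => ⟨.pop i, [], fun _ _ _ => rfl⟩
  | copy i j => exact fun n => ⟨.copy i j, [], fun _ _ _ => rfl⟩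
  | add i => exact fun n => ⟨.add i, [], fun _ _ _ => rfl⟩
  | sub i => exact fun n => ⟨.sub i, [], fun _ _ _ => rfl⟩
  | mul i => exact fun n => ⟨.mul i, [], fun _ _ _ => rfl⟩
  | div i => exact fun n => ⟨.div i, [], fun _ _ _ => rfl⟩
  | ask i j => exact fun n => ⟨.ask i j, [], fun _ _ _ => rfl⟩
  | seq p q hp hq =>
    intro n
    obtain ⟨s, t, c, h⟩ := two p q hp hq n
    refine ⟨.seq s t, c, fun c1 c2 hc => ?_⟩
    rw [Prog.map, ← (h c1 c2 hc).1, ← (h c1 c2 hc).2]
  | ifz i p q hp hq =>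
    intro n
    obtain ⟨s, t, c, h⟩ := two p q hp hq n
    refine ⟨.ifz i s t, c, fun c1 c2 hc => ?_⟩
    rw [Prog.map, ← (h c1 c2 hc).1, ← (h c1 c2 hc).2]
  | ifn i p q hp hq =>
    intro n
    obtain ⟨s, t, c, h⟩ := two p q hp hq n
    refine ⟨.ifn i s t, c, fun c1 c2 hc => ?_⟩
    rw [Prog.map, ← (h c1 c2 hc).1, ← (h c1 c2 hc).2]
  | loop i p hp =>
    intro n
    obtain ⟨s, c, h⟩ := hp n
    refine ⟨.loop i s, c, fun c1 c2 hc => ?_⟩
    rw [Prog.map, ← h c1 c2 hc]

theorem skel (p : Prog ℂ) : ∃ (s : Prog ℕ) (c : List ℂ), p = s.map (fun r => c.getD r 0) := by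
  obtain ⟨s, c, h⟩ := skel_aux p 0
  refine ⟨s, c, ?_⟩
  have := h [] [] rfl
  simpa using this

end VRJ
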