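import Pool.Agent.VRJ.PrMain
import Pool.Agent.VRJ.Decide
import Pool.Agent.VRJ.Skel

/-!
# VRJ-NpP: NP is contained in P

A program for a set in `NP` is a skeleton with constants; `search_prog` with the code of the skeleton
decides the set. Conversely a program of `P` is a program of `NP` after clearing stack `1`.
-/

namespace VRJ

private theorem npp_const (c : ℕ) : ∃ k, ∀ n : ℕ, c ≤ (n + 2) ^ k :=
  ⟨c, fun n => Nat.lt_two_pow_self.le.trans (Nat.pow_le_pow_left (by omega) c)⟩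

private theorem npp_add {f g : ℕ → ℕ} (hf : ∃ k, ∀ n : ℕ, f n ≤ (n + 2) ^ k)
    (hg : ∃ k, ∀ n : ℕ, g n ≤ (n + 2) ^ k) : ∃ k, ∀ n : ℕ, f n + g n ≤ (n + 2) ^ k := by
  obtain ⟨a, ha⟩ := hf
  obtain ⟨b, hb⟩ := hg
  refine ⟨a + b + 1, fun n => ?_⟩
  have h1 : (n + 2) ^ a ≤ (n + 2) ^ (a + b) := Nat.pow_le_pow_right (by omega) (by omega)
  have h2 : (n + 2) ^ b ≤ (n + 2) ^ (a + b) := Nat.pow_le_pow_right (by omega) (by omega)
  have h3 := ha n
  have h4 := hb n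
  have h5 : (n + 2) ^ (a + b) * 2 ≤ (n + 2) ^ (a + b) * (n + 2) := Nat.mul_le_mul_left _ (by omega)
  rw [pow_succ]
  omega

private theorem npp_mul {f g : ℕ → ℕ} (hf : ∃ k, ∀ n : ℕ, f n ≤ (n + 2) ^ k)
    (hg : ∃ k, ∀ n : ℕ, g n ≤ (n + 2) ^ k) : ∃ k, ∀ n : ℕ, f n * g n ≤ (n + 2) ^ k := by
  obtain ⟨a, ha⟩ := hf
  obtain ⟨b, hb⟩ := hg
  refine ⟨a + b, fun n => ?_⟩
  rw [pow_add]
  exact Nat.mul_le_mul (ha n) (hb n)

private theorem npp_pow {f : ℕ → ℕ} (hf : ∃ k, ∀ n : ℕ, f n ≤ (n + 2) ^ k) (κ : ℕ) :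
    ∃ k, ∀ n : ℕ, f n ^ κ ≤ (n + 2) ^ k := by
  obtain ⟨a, ha⟩ := hf
  refine ⟨a * κ, fun n => ?_⟩
  rw [pow_mul]
  exact Nat.pow_le_pow_left (ha n) κ

private theorem npp_id : ∃ k, ∀ n : ℕ, n ≤ (n + 2) ^ k := ⟨1, fun n => by rw [pow_one]; omega⟩

private theorem npp_lb (e : ℕ) : ∃ k, ∀ n : ℕ, lb e n + e + 1 ≤ (n + 2) ^ k := by
  have hmm : ∃ k, ∀ n : ℕ, mm e n ≤ (n + 2) ^ k := npp_add npp_id (npp_const (kk e))
  have hyb : ∃ k, ∀ n : ℕ, yb e n ≤ (n + 2) ^ k := ⟨ex e, fun n => le_rfl⟩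
  have htb : ∃ k, ∀ n : ℕ, tb e n ≤ (n + 2) ^ k :=
    npp_pow (npp_add (npp_add npp_id hyb) (npp_const 2)) (ex e)
  have hsq : ∃ k, ∀ n : ℕ, 2 * (mm e n + 3) ^ 2 ≤ (n + 2) ^ k :=
    npp_mul (npp_const 2) (npp_pow (npp_add hmm (npp_const 3)) 2)
  exact npp_add (npp_add (npp_add (npp_add (npp_add hmm hyb) htb) hsq) (npp_const e)) (npp_const 1)

private theorem npp_kset {Φ : Orc} {B : Set (List ℂ)} {p : Prog ℂ} {κ : ℕ}
    (htot : ∀ x y : List ℂ, ∃ (σ : St) (t : ℕ),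
      Run Φ p (inp x y) σ t ∧ t ≤ (x.length + y.length + 2) ^ κ)
    (hmem : ∀ x : List ℂ, x ∈ B ↔ ∃ (y : List ℂ) (σ : St) (t : ℕ),
      y.length ≤ (x.length + 2) ^ κ ∧ Run Φ p (inp x y) σ t ∧ Acc σ)
    {s : Prog ℕ} {c : List ℂ} (hp : p = s.map (fun r => c.getD r 0)) {e : ℕ}
    (he : dec e = (s, c.length, κ)) (hc : c.length ≠ 0) (x : List ℂ) :
    x ∈ B ↔ (fun i : Fin (mm e x.length) => (x ++ c).getD i 0) ∈ Kset Φ e x.length := by
  have hk : kk e = c.length := by rw [kk, he]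
  have hx : ex e = κ := by rw [ex, he]
  have h1 : (dec e).1 = s := by rw [he]
  have hmm : mm e x.length = x.length + c.length := by rw [mm, hk]
  have h2 : ((dec e).1.map fun r => if h : x.length + r < mm e x.length then
      (fun i : Fin (mm e x.length) => (x ++ c).getD i 0) ⟨x.length + r, h⟩ else 0) = p := by
    rw [h1, hp]
    congr 1
    funext r
    by_cases h : x.length + r < mm e x.length
    · rw [dif_pos h]
      simp only [List.getD_eq_getElem?_getD]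
      rw [List.getElem?_append_right (by omega)]
      congr 3
      omega
    · rw [dif_neg h]
      have : c.length ≤ r := by omega
      simp [List.getD_eq_getElem?_getD, List.getElem?_eq_none this]
  have h3 : (List.ofFn fun i : Fin x.length => (fun i : Fin (mm e x.length) =>
      (x ++ c).getD i 0) ⟨i, Nat.lt_of_lt_of_le i.2 (Nat.le_add_right _ _)⟩) = x := by
    apply List.ext_getElem
    · simp
    · intro i hi1 hi2
      simp only [List.getElem_ofFn, List.getD_eq_getElem?_getD, List.getElem?_append_left hi2,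
        List.getElem?_eq_getElem hi2, Option.getD_some]
  have hne : kk e ≠ 0 := by rw [hk]; exact hc
  unfold Kset
  rw [if_neg hne]
  unfold Rset
  rw [Set.mem_ofPred_eq, h2, h3, hmem]
  constructor
  · rintro ⟨y, σ, t, hy, hr, ha⟩
    obtain ⟨σ', t', hr', ht'⟩ := htot x y
    obtain ⟨rfl, rfl⟩ := run_det hr hr'
    refine ⟨y, σ, t, by rw [yb, hx]; exact hy, ?_, hr, ha⟩
    refine ht'.trans ?_
    rw [tb, hx]
    apply Nat.pow_le_pow_left
    rw [yb, hx]
    omega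
  · rintro ⟨y, σ, t, hy, -, hr, ha⟩
    exact ⟨y, σ, t, by rw [yb, hx] at hy; exact hy, hr, ha⟩

theorem np_p {A Φ : Orc} {K : ℕ → Subfield ℂ} (hT : Tower A Φ K (fun L => Yset L Φ))
    {B : Set (List ℂ)} (hB : InNP Φ B) : InP Φ B := by
  obtain ⟨p, κ, htot, hmem⟩ := hB
  obtain ⟨s, c0, hp0⟩ := skel p
  obtain ⟨c, hc, hp⟩ : ∃ c : List ℂ, c.length ≠ 0 ∧ p = s.map (fun r => c.getD r 0) := by
    refine ⟨c0 ++ [0], by simp, ?_⟩
    rw [hp0]
    have : (fun r => c0.getD r (0 : ℂ)) = fun r => (c0 ++ [0]).getD r 0 := by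
      funext r
      simp only [List.getD_eq_getElem?_getD, List.getElem?_append]
      split_ifs with h
      · rfl
      · rw [List.getElem?_eq_none (by omega)]
        rcases hr : r - c0.length with _ | j
        · simp
        · simp
    rw [this]
  obtain ⟨e, he⟩ := dec_surj (s, c.length, κ)
  obtain ⟨k, hk⟩ := npp_lb e
  have hkk : kk e = c.length := by rw [kk, he]
  refine search_prog Φ e c k (2 * c.length + 2) B (fun x => ?_)
  obtain ⟨n, hn⟩ : ∃ n, n = x.length := ⟨_, rfl⟩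
  have hmm : mm e n = n + c.length := by rw [mm, hkk]
  obtain ⟨d, hd⟩ : ∃ d, d = 3 * (n + 2) ^ k + 2 * n + (2 * c.length + 2) := ⟨_, rfl⟩
  have hkn := hk n
  have hset := npp_kset htot hmem hp he hc x
  have hz : List.ofFn (fun i : Fin (mm e x.length) => (x ++ c).getD i 0) = x ++ c := by
    apply List.ext_getElem
    · rw [List.length_ofFn, List.length_append, ← hn, hmm]
    · intro i hi1 hi2
      rw [List.getElem_ofFn, List.getD_eq_getElem?_getD, List.getElem?_eq_getElem hi2,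
        Option.getD_some]
  rw [← hn] at hset hz ⊢
  obtain ⟨r, hr1, hr2, hr3, hr4⟩ := decide_kset hT e n d (by rw [hmm, hd]; omega)
    (by rw [hd]; omega) (by rw [hd]; omega) (fun i : Fin (mm e n) => (x ++ c).getD i 0)
  rw [hz] at hr2 hr3
  rw [← hd]
  exact ⟨r, by rw [hmm] at hr1; exact hr1, hr2, hr3, hset.trans hr4⟩

theorem p_np {Φ : Orc} {B : Set (List ℂ)} (hB : InP Φ B) : InNP Φ B := by
  obtain ⟨p, k, hp⟩ := hB
  have key : ∀ x y : List ℂ, ∃ (σ : St) (t : ℕ), Run Φ (.seq (clr 1) p) (inp x y) σ t ∧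
      t ≤ (x.length + y.length + 2) ^ (k + 3) ∧ (Acc σ ↔ x ∈ B) := by
    intro x y
    obtain ⟨σ, t, h1, h2, h3⟩ := hp x
    have h4 := clr_run Φ 1 (inp x y)
    have h5 : upd (inp x y) 1 [] = inp x [] := by
      funext i
      simp only [upd, inp]
      split_ifs <;> first | rfl | omega
    rw [h5] at h4
    refine ⟨σ, _, Run.seq h4 h1, ?_, h3⟩
    have h6 : (inp x y 1).length = y.length := by simp [inp]
    obtain ⟨N, hN⟩ : ∃ N, N = x.length + y.length + 2 := ⟨_, rfl⟩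
    have h7 : (x.length + 2) ^ k ≤ N ^ k := Nat.pow_le_pow_left (by omega) k
    have h8 : N ^ k * 1 ≤ N ^ (k + 2) := by
      rw [pow_add]
      exact Nat.mul_le_mul_left _ (Nat.one_le_pow _ _ (by omega))
    have h9 : 2 * N ≤ N ^ (k + 2) := by
      calc 2 * N ≤ N * N := Nat.mul_le_mul_right _ (by omega)
        _ = N ^ 2 := by ring
        _ ≤ N ^ (k + 2) := Nat.pow_le_pow_right (by omega) (by omega)
    have h10 : N ^ (k + 2) * 2 ≤ N ^ (k + 3) := by
      rw [show k + 3 = (k + 2) + 1 from rfl, pow_succ]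
      exact Nat.mul_le_mul_left _ (by omega)
    rw [h6, ← hN]
    omega
  refine ⟨.seq (clr 1) p, k + 3, fun x y => ?_, fun x => ⟨fun hx => ?_, ?_⟩⟩
  · obtain ⟨σ, t, h1, h2, -⟩ := key x y
    exact ⟨σ, t, h1, h2⟩
  · obtain ⟨σ, t, h1, -, h3⟩ := key x []
    exact ⟨[], σ, t, by simp, h1, h3.2 hx⟩
  · rintro ⟨y, σ, t, -, h1, h2⟩
    obtain ⟨σ', t', h1', -, h3⟩ := key x y
    obtain ⟨rfl, rfl⟩ := run_det h1 h1'
    exact h3.1 h2

end VRJ
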