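import Pool.Agent.VRJ.ProgDef

/-!
# VRJ-PrBase: runs of the basic programs

## Plan
Inductions over the list: for `mv` generalise over `σ` with `σ i = l` (`Run.loop_cons` with body time `2`,
so `3` per entry), equality of states by `funext` and case distinction of the indices (`upd`). `dup`:
`mv a c` gives stack `c` = reversed, then the second loop restores `a` and pushes on `b`, invariant: after
processing a part the stacks are `a = l1`, `b = l1 ++ b0`, `c = l2` with `l2.reverse ++ l1 = l`. Prove a
lemma for the loop with general contents of `a`, `b`: final `a = c.reverse ++ a`, `b = c.reverse ++ b`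
(time `4` per entry: `copy, copy, pop, + 1`).
-/

namespace VRJ

private theorem upd_self (σ : St) (i : ℕ) (l : List ℂ) : upd σ i l i = l := by
  simp [upd]

private theorem upd_ne (σ : St) {i j : ℕ} (h : j ≠ i) (l : List ℂ) : upd σ i l j = σ j := by
  simp [upd, h]

private theorem mv_aux (Φ : Orc) {i j : ℕ} (hij : i ≠ j) (l : List ℂ) :
    ∀ σ : St, σ i = l →
      Run Φ (mv i j) σ (upd (upd σ i []) j (l.reverse ++ σ j)) (3 * l.length + 1) := by
  induction l with
  | nil =>
    intro σ h
    have e : upd (upd σ i []) j (([] : List ℂ).reverse ++ σ j) = σ := by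
      funext k
      unfold upd
      by_cases h1 : k = j
      · subst h1; simp
      · by_cases h2 : k = i
        · subst h2; simp [h1, h]
        · simp [h1, h2]
    rw [e]
    exact Run.loop_nil h
  | cons x l ih =>
    intro σ h
    have hc := Run.copy (Φ := Φ) i j σ
    have hp := Run.pop (Φ := Φ) i (upd σ j ((σ i).take 1 ++ σ j))
    have hb := Run.seq hc hp
    have e1 : upd (upd σ j ((σ i).take 1 ++ σ j)) i
        ((upd σ j ((σ i).take 1 ++ σ j)) i).tail = upd (upd σ j (x :: σ j)) i l := by
      rw [upd_ne _ hij, h]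
      rfl
    rw [e1] at hb
    have hr := ih (upd (upd σ j (x :: σ j)) i l) (upd_self _ _ _)
    have e2 : upd (upd (upd (upd σ j (x :: σ j)) i l) i []) j
        (l.reverse ++ (upd (upd σ j (x :: σ j)) i l) j)
        = upd (upd σ i []) j ((x :: l).reverse ++ σ j) := by
      funext k
      unfold upd
      by_cases h1 : k = j
      · subst h1
        simp [hij.symm]
      · by_cases h2 : k = i
        · subst h2; simp [h1]
        · simp [h1, h2]
    rw [e2] at hr
    have hne : σ i ≠ [] := by rw [h]; simp
    have := Run.loop_cons hne hb hr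
    have ht : 1 + 1 + (3 * l.length + 1) + 1 = 3 * (x :: l).length + 1 := by
      simp only [List.length_cons]; ring
    rw [ht] at this
    exact this

theorem mv_run (Φ : Orc) {i j : ℕ} (hij : i ≠ j) (σ : St) :
    Run Φ (mv i j) σ (upd (upd σ i []) j ((σ i).reverse ++ σ j)) (3 * (σ i).length + 1) :=
  mv_aux Φ hij (σ i) σ rfl

private theorem dup_aux (Φ : Orc) {a b c : ℕ} (hab : a ≠ b) (hac : a ≠ c) (hbc : b ≠ c)
    (l : List ℂ) : ∀ σ : St, σ c = l →
      Run Φ (.loop c (.seq (.copy c a) (.seq (.copy c b) (.pop c)))) σ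
        (upd (upd (upd σ a (l.reverse ++ σ a)) b (l.reverse ++ σ b)) c [])
        (4 * l.length + 1) := by
  induction l with
  | nil =>
    intro σ h
    have e : upd (upd (upd σ a (([] : List ℂ).reverse ++ σ a)) b
        (([] : List ℂ).reverse ++ σ b)) c [] = σ := by
      funext k
      unfold upd
      by_cases h1 : k = c
      · subst h1; simp [h]
      · by_cases h2 : k = b
        · subst h2; simp [h1]
        · by_cases h3 : k = a
          · subst h3; simp [h1, h2]
          · simp [h1, h2, h3]
    rw [e]
    exact Run.loop_nil h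
  | cons x l ih =>
    intro σ h
    have hc1 := Run.copy (Φ := Φ) c a σ
    have e1 : upd σ a ((σ c).take 1 ++ σ a) = upd σ a (x :: σ a) := by
      rw [h]; rfl
    rw [e1] at hc1
    have hc2 := Run.copy (Φ := Φ) c b (upd σ a (x :: σ a))
    have e2 : upd (upd σ a (x :: σ a)) b
        (((upd σ a (x :: σ a)) c).take 1 ++ (upd σ a (x :: σ a)) b)
        = upd (upd σ a (x :: σ a)) b (x :: σ b) := by
      rw [upd_ne _ hac.symm, upd_ne _ hab.symm, h]; rfl
    rw [e2] at hc2
    have hp := Run.pop (Φ := Φ) c (upd (upd σ a (x :: σ a)) b (x :: σ b))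
    have e3 : upd (upd (upd σ a (x :: σ a)) b (x :: σ b)) c
        ((upd (upd σ a (x :: σ a)) b (x :: σ b)) c).tail
        = upd (upd (upd σ a (x :: σ a)) b (x :: σ b)) c l := by
      rw [upd_ne _ hbc.symm, upd_ne _ hac.symm, h]; rfl
    rw [e3] at hp
    have hb := Run.seq hc1 (Run.seq hc2 hp)
    have hr := ih (upd (upd (upd σ a (x :: σ a)) b (x :: σ b)) c l) (upd_self _ _ _)
    have e4 : upd (upd (upd (upd (upd (upd σ a (x :: σ a)) b (x :: σ b)) c l) a
        (l.reverse ++ (upd (upd (upd σ a (x :: σ a)) b (x :: σ b)) c l) a)) b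
        (l.reverse ++ (upd (upd (upd σ a (x :: σ a)) b (x :: σ b)) c l) b)) c []
        = upd (upd (upd σ a ((x :: l).reverse ++ σ a)) b ((x :: l).reverse ++ σ b)) c [] := by
      funext k
      unfold upd
      by_cases h1 : k = c
      · subst h1; simp
      · by_cases h2 : k = b
        · subst h2; simp [hbc]
        · by_cases h3 : k = a
          · subst h3; simp [h1, h2]
          · simp [h1, h2, h3]
    rw [e4] at hr
    have hne : σ c ≠ [] := by rw [h]; simp
    have := Run.loop_cons hne hb hr
    have ht : 1 + (1 + 1) + (4 * l.length + 1) + 1 = 4 * (x :: l).length + 1 := by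
      simp only [List.length_cons]; ring
    rw [ht] at this
    exact this

theorem dup_run (Φ : Orc) {a b c : ℕ} (hab : a ≠ b) (hac : a ≠ c) (hbc : b ≠ c) (σ : St)
    (hc : σ c = []) :
    Run Φ (dup a b c) σ (upd σ b (σ a ++ σ b)) (7 * (σ a).length + 2) := by
  have h1 := mv_run Φ hac σ
  have e1 : upd (upd σ a []) c ((σ a).reverse ++ σ c) = upd (upd σ a []) c (σ a).reverse := by
    rw [hc, List.append_nil]
  rw [e1] at h1
  have h2 := dup_aux Φ hab hac hbc (σ a).reverse (upd (upd σ a []) c (σ a).reverse)
    (upd_self _ _ _)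
  have e2 : upd (upd (upd (upd (upd σ a []) c (σ a).reverse) a
      ((σ a).reverse.reverse ++ (upd (upd σ a []) c (σ a).reverse) a)) b
      ((σ a).reverse.reverse ++ (upd (upd σ a []) c (σ a).reverse) b)) c []
      = upd σ b (σ a ++ σ b) := by
    funext k
    unfold upd
    by_cases q1 : k = c
    · subst q1; simp [hc, hbc.symm]
    · by_cases q2 : k = b
      · subst q2; simp [hbc, hab.symm]
      · by_cases q3 : k = a
        · subst q3; simp [hac, hab]
        · simp [q1, q2, q3]
  rw [e2] at h2
  have h3 := Run.seq h1 h2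
  have ht : 3 * (σ a).length + 1 + (4 * (σ a).reverse.length + 1) = 7 * (σ a).length + 2 := by
    rw [List.length_reverse]; ring
  rw [ht] at h3
  exact h3

private theorem clr_aux (Φ : Orc) (i : ℕ) (l : List ℂ) : ∀ σ : St, σ i = l →
    Run Φ (clr i) σ (upd σ i []) (2 * l.length + 1) := by
  induction l with
  | nil =>
    intro σ h
    have e : upd σ i [] = σ := by
      funext k
      unfold upd
      by_cases h1 : k = i
      · subst h1; simp [h]
      · simp [h1]
    rw [e]
    exact Run.loop_nil h
  | cons x l ih =>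
    intro σ h
    have hp := Run.pop (Φ := Φ) i σ
    rw [h, List.tail_cons] at hp
    have hr := ih (upd σ i l) (upd_self _ _ _)
    have e : upd (upd σ i l) i [] = upd σ i [] := by
      funext k
      unfold upd
      by_cases h1 : k = i
      · simp [h1]
      · simp [h1]
    rw [e] at hr
    have hne : σ i ≠ [] := by rw [h]; simp
    have := Run.loop_cons hne hp hr
    have ht : 1 + (2 * l.length + 1) + 1 = 2 * (x :: l).length + 1 := by
      simp only [List.length_cons]; ring
    rw [ht] at this
    exact this

theorem clr_run (Φ : Orc) (i : ℕ) (σ : St) :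
    Run Φ (clr i) σ (upd σ i []) (2 * (σ i).length + 1) :=
  clr_aux Φ i (σ i) σ rfl

private theorem pushl_aux (Φ : Orc) (i : ℕ) (l : List ℂ) : ∀ (p : Prog ℂ) (σ σ' : St) (t : ℕ),
    Run Φ p (upd σ i (l ++ σ i)) σ' t → Run Φ (pushl i l p) σ σ' (t + l.length) := by
  induction l with
  | nil =>
    intro p σ σ' t h
    have e : upd σ i (([] : List ℂ) ++ σ i) = σ := by
      funext k
      unfold upd
      by_cases h1 : k = i
      · subst h1; simp
      · simp [h1]
    rw [e] at h
    exact h
  | cons c l ih =>
    intro p σ σ' t h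
    have hpush := Run.push (Φ := Φ) i c (upd σ i (l ++ σ i))
    have e : upd (upd σ i (l ++ σ i)) i (c :: (upd σ i (l ++ σ i)) i)
        = upd σ i ((c :: l) ++ σ i) := by
      funext k
      unfold upd
      by_cases h1 : k = i
      · simp [h1]
      · simp [h1]
    rw [e] at hpush
    have hs := Run.seq hpush h
    have hr := ih (.seq (.push i c) p) σ σ' (1 + t) hs
    have ht : 1 + t + l.length = t + (c :: l).length := by
      simp only [List.length_cons]; ring
    rw [ht] at hr
    exact hr

theorem pushl_run (Φ : Orc) (i : ℕ) (l : List ℂ) {p : Prog ℂ} {σ σ' : St} {t : ℕ}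
    (h : Run Φ p (upd σ i (l ++ σ i)) σ' t) : Run Φ (pushl i l p) σ σ' (t + l.length) :=
  pushl_aux Φ i l p σ σ' t h

private theorem zer_aux (Φ : Orc) (q : ℕ) : ∀ (p : Prog ℂ) (σ σ' : St) (t : ℕ),
    Run Φ p (upd σ 7 (List.replicate q 0 ++ σ 7)) σ' t → Run Φ (zer q p) σ σ' (t + q) := by
  induction q with
  | zero =>
    intro p σ σ' t h
    have e : upd σ 7 (List.replicate 0 0 ++ σ 7) = σ := by
      funext k
      unfold upd
      by_cases h1 : k = 7
      · subst h1; simp
      · simp [h1]
    rw [e] at h
    exact h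
  | succ q ih =>
    intro p σ σ' t h
    have hpush := Run.push (Φ := Φ) 7 0 σ
    have e : upd σ 7 (List.replicate (q + 1) 0 ++ σ 7)
        = upd (upd σ 7 (0 :: σ 7)) 7 (List.replicate q 0 ++ (upd σ 7 (0 :: σ 7)) 7) := by
      funext k
      unfold upd
      by_cases h1 : k = 7
      · simp [h1, List.replicate_succ']
      · simp [h1]
    rw [e] at h
    have hr := ih p (upd σ 7 (0 :: σ 7)) σ' t h
    have hs := Run.seq hpush hr
    have ht : 1 + (t + q) = t + (q + 1) := by ring
    rw [ht] at hs
    exact hs

theorem zer_run (Φ : Orc) (q : ℕ) {p : Prog ℂ} {σ σ' : St} {t : ℕ}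
    (h : Run Φ p (upd σ 7 (List.replicate q 0 ++ σ 7)) σ' t) : Run Φ (zer q p) σ σ' (t + q) :=
  zer_aux Φ q p σ σ' t h

end VRJ
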