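import Pool.Agent.VRJ.PrBase

/-!
# VRJ-PrSrch: the search loop

## Plan
`qry_run`: from `ws x d r p [0]`: `dup_run` (7, 12, 9), `pushl_run`, `dup_run` (0, 12, 9), two `copy`, `push`,
`ask`: stack `12` = `[ans Φ 0 (ql e n r (x ++ c) d)]`, all other stacks unchanged (state equality by
`funext`, `split_ifs`). Search: induction on the number `r0 - r` of remaining rounds: for a number `r`
with all earlier answers `0`; if the answer is `0` the state becomes `ws x d (r + 1) (1 - p) [0]`
(`1 + r = r + 1`), parity flips (`Nat.odd_add_one`); at `r = r0` the flag is popped and the loop ends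
(`loop_nil`). Time of one round at most `20 (|x| + |c| + d + 5)`.
-/

namespace VRJ

private theorem upd_self (σ : St) (i : ℕ) (l : List ℂ) : upd σ i l i = l := by
  simp [upd]

private theorem upd_ne (σ : St) {i j : ℕ} (h : j ≠ i) (l : List ℂ) : upd σ i l j = σ j := by
  simp [upd, h]

private theorem upd_upd (σ : St) (i : ℕ) (l l' : List ℂ) : upd (upd σ i l) i l' = upd σ i l' := by
  funext k
  unfold upd
  by_cases h1 : k = i
  · simp [h1]
  · simp [h1]

private theorem qry_run (Φ : Orc) (e : ℂ) (c : List ℂ) (W : St) (x z : List ℂ) (n r : ℂ)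
    (h0 : W 0 = x) (h3 : W 3 = [n]) (h7 : W 7 = z) (h9 : W 9 = []) (h10 : W 10 = [r])
    (h12 : W 12 = []) :
    Run Φ (qry e c) W (upd W 12 [ans Φ 0 (e :: n :: r :: ((x ++ c) ++ z))])
      (8 * z.length + 8 * x.length + 2 * c.length + 11) := by
  have s1 := dup_run Φ (a := 7) (b := 12) (c := 9) (by norm_num) (by norm_num) (by norm_num) W h9
  have e1 : upd W 12 (W 7 ++ W 12) = upd W 12 z := by
    rw [h7, h12, List.append_nil]
  rw [e1, h7] at s1
  -- after the pushes
  have s3 := dup_run Φ (a := 0) (b := 12) (c := 9) (by norm_num) (by norm_num) (by norm_num)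
    (upd W 12 (c ++ z)) (by rw [upd_ne _ (by norm_num)]; exact h9)
  have e3 : upd (upd W 12 (c ++ z)) 12 ((upd W 12 (c ++ z)) 0 ++ (upd W 12 (c ++ z)) 12)
      = upd W 12 ((x ++ c) ++ z) := by
    rw [upd_upd, upd_self, upd_ne _ (by norm_num), h0, List.append_assoc]
  have e3' : (upd W 12 (c ++ z)) 0 = x := by
    rw [upd_ne _ (by norm_num), h0]
  rw [e3, e3'] at s3
  have s4 := Run.copy (Φ := Φ) 10 12 (upd W 12 ((x ++ c) ++ z))
  have e4 : upd (upd W 12 ((x ++ c) ++ z)) 12 (((upd W 12 ((x ++ c) ++ z)) 10).take 1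
      ++ (upd W 12 ((x ++ c) ++ z)) 12) = upd W 12 (r :: ((x ++ c) ++ z)) := by
    rw [upd_upd, upd_self, upd_ne _ (by norm_num), h10]
    rfl
  rw [e4] at s4
  have s5 := Run.copy (Φ := Φ) 3 12 (upd W 12 (r :: ((x ++ c) ++ z)))
  have e5 : upd (upd W 12 (r :: ((x ++ c) ++ z))) 12 (((upd W 12 (r :: ((x ++ c) ++ z))) 3).take 1
      ++ (upd W 12 (r :: ((x ++ c) ++ z))) 12) = upd W 12 (n :: r :: ((x ++ c) ++ z)) := by
    rw [upd_upd, upd_self, upd_ne _ (by norm_num), h3]
    rfl
  rw [e5] at s5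
  have s6 := Run.push (Φ := Φ) 12 e (upd W 12 (n :: r :: ((x ++ c) ++ z)))
  rw [upd_upd, upd_self] at s6
  have s7 := Run.ask (Φ := Φ) 12 9 (upd W 12 (e :: n :: r :: ((x ++ c) ++ z)))
  have e7 : ((upd W 12 (e :: n :: r :: ((x ++ c) ++ z))) 9).length = 0 := by
    rw [upd_ne _ (by norm_num), h9]
    rfl
  rw [upd_upd, upd_self, e7, add_zero] at s7
  have s8 := Run.seq s3 (Run.seq s4 (Run.seq s5 (Run.seq s6 s7)))
  have e2 : upd (upd W 12 z) 12 (c ++ (upd W 12 z) 12) = upd W 12 (c ++ z) := by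
    rw [upd_upd, upd_self]
  rw [← e2] at s8
  have s9 := pushl_run Φ 12 c s8
  have s10 := Run.seq s1 s9
  have ht : 7 * z.length + 2 + (7 * x.length + 2 + (1 + (1 + (1 +
      ((e :: n :: r :: ((x ++ c) ++ z)).length + 1)))) + c.length)
      = 8 * z.length + 8 * x.length + 2 * c.length + 11 := by
    simp only [List.length_cons, List.length_append]
    ring
  rw [ht] at s10
  exact s10

private theorem body_zero (Φ : Orc) (e : ℂ) (c x : List ℂ) (d : ℕ) (r p : ℂ) (fl : List ℂ)
    (h : ans Φ 0 (e :: (x.length : ℂ) :: r :: ((x ++ c) ++ List.replicate d 0)) = 0) :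
    Run Φ (.seq (qry e c) (.ifz 12
      (.seq (.pop 12) (.seq (.push 10 1) (.seq (.add 10) (.seq (.push 11 1) (.sub 11)))))
      (.seq (.pop 12) (.pop 8)))) (ws x d r p fl) (ws x d (1 + r) (1 - p) fl)
      (8 * d + 8 * x.length + 2 * c.length + 17) := by
  have s1 := qry_run Φ e c (ws x d r p fl) x (List.replicate d 0) (x.length : ℂ) r
    rfl rfl rfl rfl rfl rfl
  rw [h, List.length_replicate] at s1
  have t1 := Run.pop (Φ := Φ) 12 (upd (ws x d r p fl) 12 [0])
  rw [upd_upd, upd_self] at t1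
  have t2 := Run.push (Φ := Φ) 10 1 (upd (ws x d r p fl) 12 ([0] : List ℂ).tail)
  have t3 := Run.add (Φ := Φ) 10 (upd (upd (ws x d r p fl) 12 ([0] : List ℂ).tail) 10
    (1 :: (upd (ws x d r p fl) 12 ([0] : List ℂ).tail) 10))
  rw [upd_upd, upd_self] at t3
  have e3 : upd (upd (ws x d r p fl) 12 ([0] : List ℂ).tail) 10
      (bin (fun x y => x + y) (1 :: (upd (ws x d r p fl) 12 ([0] : List ℂ).tail) 10))
      = ws x d (1 + r) p fl := by
    funext k
    have hb : (bin (fun x y => x + y) (1 :: (upd (ws x d r p fl) 12 ([0] : List ℂ).tail) 10))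
        = [1 + r] := by
      rfl
    rw [hb]
    unfold upd ws
    by_cases q10 : k = 10
    · subst q10; simp
    · by_cases q12 : k = 12
      · subst q12; simp
      · simp [q10, q12]
  rw [e3] at t3
  have t4 := Run.push (Φ := Φ) 11 1 (ws x d (1 + r) p fl)
  have t5 := Run.sub (Φ := Φ) 11 (upd (ws x d (1 + r) p fl) 11 (1 :: (ws x d (1 + r) p fl) 11))
  rw [upd_upd, upd_self] at t5
  have e5 : upd (ws x d (1 + r) p fl) 11
      (bin (fun x y => x - y) (1 :: (ws x d (1 + r) p fl) 11))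
      = ws x d (1 + r) (1 - p) fl := by
    funext k
    have hb : (bin (fun x y => x - y) (1 :: (ws x d (1 + r) p fl) 11)) = [1 - p] := by
      rfl
    rw [hb]
    unfold upd ws
    by_cases q11 : k = 11
    · subst q11; simp
    · simp [q11]
  rw [e5] at t5
  have t6 := Run.seq t1 (Run.seq t2 (Run.seq t3 (Run.seq t4 t5)))
  have hz : ((upd (ws x d r p fl) 12 [0]) 12).head? = some 0 := by
    rw [upd_self]; rfl
  have t7 := Run.ifz_true (q := .seq (.pop 12) (.pop 8)) hz t6
  have t8 := Run.seq s1 t7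
  have ht : 8 * d + 8 * x.length + 2 * c.length + 11 + (1 + (1 + (1 + (1 + 1))) + 1)
      = 8 * d + 8 * x.length + 2 * c.length + 17 := by ring
  rw [ht] at t8
  exact t8

private theorem body_one (Φ : Orc) (e : ℂ) (c x : List ℂ) (d : ℕ) (r p : ℂ)
    (h : ans Φ 0 (e :: (x.length : ℂ) :: r :: ((x ++ c) ++ List.replicate d 0)) ≠ 0) :
    Run Φ (.seq (qry e c) (.ifz 12
      (.seq (.pop 12) (.seq (.push 10 1) (.seq (.add 10) (.seq (.push 11 1) (.sub 11)))))
      (.seq (.pop 12) (.pop 8)))) (ws x d r p [0]) (ws x d r p [])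
      (8 * d + 8 * x.length + 2 * c.length + 14) := by
  have s1 := qry_run Φ e c (ws x d r p [0]) x (List.replicate d 0) (x.length : ℂ) r
    rfl rfl rfl rfl rfl rfl
  rw [List.length_replicate] at s1
  generalize hA : ans Φ 0 (e :: (x.length : ℂ) :: r :: ((x ++ c) ++ List.replicate d 0)) = A at *
  have t1 := Run.pop (Φ := Φ) 12 (upd (ws x d r p [0]) 12 [A])
  rw [upd_upd, upd_self] at t1
  have t2 := Run.pop (Φ := Φ) 8 (upd (ws x d r p [0]) 12 ([A] : List ℂ).tail)
  have e2 : upd (upd (ws x d r p [0]) 12 ([A] : List ℂ).tail) 8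
      ((upd (ws x d r p [0]) 12 ([A] : List ℂ).tail) 8).tail = ws x d r p [] := by
    have hb : ((upd (ws x d r p [0]) 12 ([A] : List ℂ).tail) 8).tail = [] := by
      rfl
    rw [hb]
    funext k
    unfold upd ws
    by_cases q8 : k = 8
    · subst q8; simp
    · by_cases q12 : k = 12
      · subst q12; simp
      · simp [q8, q12]
  rw [e2] at t2
  have t3 := Run.seq t1 t2
  have hz : ((upd (ws x d r p [0]) 12 [A]) 12).head? ≠ some 0 := by
    rw [upd_self]
    intro hh
    apply h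
    simpa using hh
  have t4 := Run.ifz_false (p := .seq (.pop 12) (.seq (.push 10 1) (.seq (.add 10)
    (.seq (.push 11 1) (.sub 11))))) hz t3
  have t5 := Run.seq s1 t4
  have ht : 8 * d + 8 * x.length + 2 * c.length + 11 + (1 + 1 + 1)
      = 8 * d + 8 * x.length + 2 * c.length + 14 := by ring
  rw [ht] at t5
  exact t5

private theorem srch_aux (Φ : Orc) (e : ℕ) (c x : List ℂ) (d r0 : ℕ)
    (hne : ans Φ 0 (ql e x.length r0 (x ++ c) d) ≠ 0)
    (h0 : ∀ r < r0, ans Φ 0 (ql e x.length r (x ++ c) d) = 0) (k : ℕ) :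
    ∀ r : ℕ, r + k = r0 → ∃ t, t ≤ (k + 1) * (20 * (x.length + c.length + d + 5)) + 1 ∧
      Run Φ (srch e c) (ws x d r (if Odd r then 1 else 0) [0])
        (ws x d r0 (if Odd r0 then 1 else 0) []) t := by
  induction k with
  | zero =>
    intro r hr
    obtain rfl : r = r0 := by omega
    have s1 := body_one Φ e c x d r (if Odd r then 1 else 0) hne
    have hfl : (ws x d r (if Odd r then 1 else 0) [0]) 8 ≠ [] := by
      have : (ws x d r (if Odd r then 1 else 0) [0]) 8 = [0] := rfl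
      rw [this]; simp
    have s2 := Run.loop_nil (Φ := Φ) (i := 8) (p := .seq (qry e c) (.ifz 12
      (.seq (.pop 12) (.seq (.push 10 1) (.seq (.add 10) (.seq (.push 11 1) (.sub 11)))))
      (.seq (.pop 12) (.pop 8)))) (σ := ws x d r (if Odd r then 1 else 0) []) rfl
    refine ⟨_, ?_, Run.loop_cons hfl s1 s2⟩
    nlinarith
  | succ k ih =>
    intro r hr
    obtain ⟨t, ht, hrun⟩ := ih (r + 1) (by omega)
    have s1 := body_zero Φ e c x d r (if Odd r then 1 else 0) [0] (h0 r (by omega))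
    have e1 : ws x d (1 + (r : ℂ)) (1 - (if Odd r then 1 else 0)) [0]
        = ws x d ((r + 1 : ℕ) : ℂ) (if Odd (r + 1) then 1 else 0) [0] := by
      have a1 : (1 + (r : ℂ)) = ((r + 1 : ℕ) : ℂ) := by push_cast; ring
      have a2 : (1 - (if Odd r then (1 : ℂ) else 0)) = if Odd (r + 1) then 1 else 0 := by
        by_cases hodd : Odd r
        · have : ¬ Odd (r + 1) := by
            rw [Nat.not_odd_iff_even]; exact hodd.add_one
          simp [hodd, this]
        · have : Odd (r + 1) := by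
            rw [Nat.not_odd_iff_even] at hodd; exact hodd.add_one
          simp [hodd, this]
      rw [a1, a2]
    rw [e1] at s1
    have hfl : (ws x d r (if Odd r then 1 else 0) [0]) 8 ≠ [] := by
      have : (ws x d r (if Odd r then 1 else 0) [0]) 8 = [0] := rfl
      rw [this]; simp
    refine ⟨_, ?_, Run.loop_cons hfl s1 hrun⟩
    have : (k + 1 + 1) * (20 * (x.length + c.length + d + 5))
        = (k + 1) * (20 * (x.length + c.length + d + 5)) + 20 * (x.length + c.length + d + 5) := by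
      ring
    rw [this]
    omega

theorem srch_run (Φ : Orc) (e : ℕ) (c x : List ℂ) (d r0 : ℕ)
    (hne : ans Φ 0 (ql e x.length r0 (x ++ c) d) ≠ 0)
    (h0 : ∀ r < r0, ans Φ 0 (ql e x.length r (x ++ c) d) = 0) :
    ∃ t, t ≤ (r0 + 1) * (20 * (x.length + c.length + d + 5)) + 1 ∧
      Run Φ (srch e c) (ws x d 0 0 [0]) (ws x d r0 (if Odd r0 then 1 else 0) []) t := by
  obtain ⟨t, ht, h⟩ := srch_aux Φ e c x d r0 hne h0 r0 0 (by omega)
  refine ⟨t, ht, ?_⟩
  have e1 : ws x d ((0 : ℕ) : ℂ) (if Odd 0 then 1 else 0) [0] = ws x d 0 0 [0] := by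
    simp
  rw [e1] at h
  exact h

end VRJ
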