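import Pool.Agent.VRJ.Defs

/-!
# VRJ-Sem: programs are deterministic; a run of time `t` uses only short oracle calls

`run_det`: the final state and the time of a run are determined. `run_len`: the length of every
stack grows by at most the time of the run. `run_congr`: a run of time `t` depends only on the
oracle at the levels below `B` if the stacks have length less than `B - t`.
-/

namespace VRJ

private theorem sem_bin_len (op : ℂ → ℂ → ℂ) (l : List ℂ) : (bin op l).length ≤ l.length := by
  unfold bin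
  split <;> simp

private theorem sem_upd_len {σ : St} {i : ℕ} {l : List ℂ} {t : ℕ}
    (h : l.length ≤ (σ i).length + t) (j : ℕ) : (upd σ i l j).length ≤ (σ j).length + t := by
  unfold upd
  split_ifs with hj
  · rw [hj]
    exact h
  · omega

theorem run_det {Φ : Orc} {p : Prog ℂ} {σ σ' σ'' : St} {t t' : ℕ} (h : Run Φ p σ σ' t)
    (h' : Run Φ p σ σ'' t') : σ' = σ'' ∧ t = t' := by
  induction h generalizing σ'' t' with
  | push i c σ => cases h'; exact ⟨rfl, rfl⟩
  | pop i σ => cases h'; exact ⟨rfl, rfl⟩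
  | copy i j σ => cases h'; exact ⟨rfl, rfl⟩
  | add i σ => cases h'; exact ⟨rfl, rfl⟩
  | sub i σ => cases h'; exact ⟨rfl, rfl⟩
  | mul i σ => cases h'; exact ⟨rfl, rfl⟩
  | div i σ => cases h'; exact ⟨rfl, rfl⟩
  | ask i j σ => cases h'; exact ⟨rfl, rfl⟩
  | seq _ _ ih1 ih2 =>
    cases h' with
    | seq h1 h2 =>
      obtain ⟨rfl, rfl⟩ := ih1 h1
      obtain ⟨rfl, rfl⟩ := ih2 h2
      exact ⟨rfl, rfl⟩
  | ifz_true hc _ ih =>
    cases h' with
    | ifz_true _ h1 =>
      obtain ⟨rfl, rfl⟩ := ih h1
      exact ⟨rfl, rfl⟩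
    | ifz_false hc' _ => exact absurd hc hc'
  | ifz_false hc _ ih =>
    cases h' with
    | ifz_true hc' _ => exact absurd hc' hc
    | ifz_false _ h1 =>
      obtain ⟨rfl, rfl⟩ := ih h1
      exact ⟨rfl, rfl⟩
  | ifn_true hc _ ih =>
    cases h' with
    | ifn_true _ h1 =>
      obtain ⟨rfl, rfl⟩ := ih h1
      exact ⟨rfl, rfl⟩
    | ifn_false hc' _ => exact absurd hc hc'
  | ifn_false hc _ ih =>
    cases h' with
    | ifn_true hc' _ => exact absurd hc' hc
    | ifn_false _ h1 =>
      obtain ⟨rfl, rfl⟩ := ih h1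
      exact ⟨rfl, rfl⟩
  | loop_nil hc =>
    cases h' with
    | loop_nil _ => exact ⟨rfl, rfl⟩
    | loop_cons hc' _ _ => exact absurd hc hc'
  | loop_cons hc _ _ ih1 ih2 =>
    cases h' with
    | loop_nil hc' => exact absurd hc' hc
    | loop_cons _ h1 h2 =>
      obtain ⟨rfl, rfl⟩ := ih1 h1
      obtain ⟨rfl, rfl⟩ := ih2 h2
      exact ⟨rfl, rfl⟩

theorem run_pos {Φ : Orc} {p : Prog ℂ} {σ σ' : St} {t : ℕ} (h : Run Φ p σ σ' t) : 0 < t := by
  induction h <;> omega

theorem run_len {Φ : Orc} {p : Prog ℂ} {σ σ' : St} {t : ℕ} (h : Run Φ p σ σ' t) (i : ℕ) :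
    (σ' i).length ≤ (σ i).length + t := by
  induction h with
  | push j c σ => exact sem_upd_len (by simp) i
  | pop j σ => exact sem_upd_len (by simp; omega) i
  | copy j k σ =>
    refine sem_upd_len ?_ i
    rw [List.length_append, List.length_take]
    omega
  | add j σ => exact sem_upd_len ((sem_bin_len _ _).trans (Nat.le_succ _)) i
  | sub j σ => exact sem_upd_len ((sem_bin_len _ _).trans (Nat.le_succ _)) i
  | mul j σ => exact sem_upd_len ((sem_bin_len _ _).trans (Nat.le_succ _)) i
  | div j σ => exact sem_upd_len ((sem_bin_len _ _).trans (Nat.le_succ _)) i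
  | ask j k σ => exact sem_upd_len (by simp; omega) i
  | seq _ _ ih1 ih2 => omega
  | ifz_true _ _ ih => omega
  | ifz_false _ _ ih => omega
  | ifn_true _ _ ih => omega
  | ifn_false _ _ ih => omega
  | loop_nil _ => omega
  | loop_cons _ _ _ ih1 ih2 => omega

theorem run_congr {Φ Φ' : Orc} {B : ℕ} (hΦ : ∀ L < B, Φ L = Φ' L) {p : Prog ℂ} {σ σ' : St}
    {t : ℕ} (hB : ∀ i, (σ i).length + t < B) (h : Run Φ p σ σ' t) : Run Φ' p σ σ' t := by
  induction h with
  | push j c σ => exact Run.push j c σ
  | pop j σ => exact Run.pop j σ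
  | copy j k σ => exact Run.copy j k σ
  | add j σ => exact Run.add j σ
  | sub j σ => exact Run.sub j σ
  | mul j σ => exact Run.mul j σ
  | div j σ => exact Run.div j σ
  | ask j k σ =>
    have h1 : ans Φ (σ k).length (σ j) = ans Φ' (σ k).length (σ j) := by
      have h2 := hB j
      have h3 : (σ j).length / ((σ k).length + 1) ≤ (σ j).length := Nat.div_le_self _ _
      unfold ans
      rw [hΦ _ (by omega)]
    rw [h1]
    exact Run.ask j k σ
  | seq h1 h2 ih1 ih2 =>
    refine Run.seq (ih1 fun i => ?_) (ih2 fun i => ?_)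
    · have := hB i
      omega
    · have := hB i
      have := run_len h1 i
      omega
  | ifz_true hc _ ih =>
    refine Run.ifz_true hc (ih fun i => ?_)
    have := hB i
    omega
  | ifz_false hc _ ih =>
    refine Run.ifz_false hc (ih fun i => ?_)
    have := hB i
    omega
  | ifn_true hc _ ih =>
    refine Run.ifn_true hc (ih fun i => ?_)
    have := hB i
    omega
  | ifn_false hc _ ih =>
    refine Run.ifn_false hc (ih fun i => ?_)
    have := hB i
    omega
  | loop_nil hc => exact Run.loop_nil hc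
  | loop_cons hc h1 h2 ih1 ih2 =>
    refine Run.loop_cons hc (ih1 fun i => ?_) (ih2 fun i => ?_)
    · have := hB i
      omega
    · have := hB i
      have := run_len h1 i
      omega

end VRJ
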