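import Pool.Agent.VRJ.ConDef

/-!
# VRJ: skeletons of programs, codes, the sets decided by nondeterministic programs (definitions)
-/

namespace VRJ

open MvPolynomial

/-- rename the constants of a program -/
def Prog.map {α β : Type} (f : α → β) : Prog α → Prog β
  | .push i c => .push i (f c)
  | .pop i => .pop i
  | .copy i j => .copy i j
  | .add i => .add i
  | .sub i => .sub i
  | .mul i => .mul i
  | .div i => .div i
  | .ask i j => .ask i j
  | .seq p q => .seq (p.map f) (q.map f)
  | .ifz i p q => .ifz i (p.map f) (q.map f)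
  | .ifn i p q => .ifn i (p.map f) (q.map f)
  | .loop i p => .loop i (p.map f)

deriving instance Countable for Prog

/-- there is an enumeration of all skeletons together with two numbers -/
theorem exists_dec : ∃ f : ℕ → Prog ℕ × ℕ × ℕ, Function.Surjective f := by
  have : Nonempty (Prog ℕ × ℕ × ℕ) := ⟨(Prog.pop 0, 0, 0)⟩
  exact exists_surjective_nat _

/-- the enumeration of all triples (skeleton, number of constants, exponent) -/
noncomputable def dec : ℕ → Prog ℕ × ℕ × ℕ := Classical.choose exists_dec

theorem dec_surj : Function.Surjective dec := Classical.choose_spec exists_dec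

/-- number of constants -/
noncomputable def kk (e : ℕ) : ℕ := (dec e).2.1

/-- exponent -/
noncomputable def ex (e : ℕ) : ℕ := (dec e).2.2

/-- bound for the length of the certificates -/
noncomputable def yb (e n : ℕ) : ℕ := (n + 2) ^ ex e

/-- time bound -/
noncomputable def tb (e n : ℕ) : ℕ := (n + yb e n + 2) ^ ex e

/-- number of variables: input and constants -/
noncomputable def mm (e n : ℕ) : ℕ := n + kk e

/-- the level from which on the sets are available -/
noncomputable def lb (e n : ℕ) : ℕ := mm e n + yb e n + tb e n + 2 * (mm e n + 3) ^ 2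

/-- the inputs (and constants) accepted by the nondeterministic program with code `e` -/
def Rset (Φ : Orc) (e n : ℕ) : Set (Fin (mm e n) → ℂ) :=
  {z | ∃ (y : List ℂ) (σ : St) (t : ℕ), y.length ≤ yb e n ∧ t ≤ tb e n ∧
    Run Φ ((dec e).1.map fun r => if h : n + r < mm e n then z ⟨n + r, h⟩ else 0)
      (inp (List.ofFn fun i : Fin n => z ⟨i, Nat.lt_of_lt_of_le i.2 (Nat.le_add_right _ _)⟩) y) σ t ∧
    Acc σ}

/-- extend a point by zeros -/
noncomputable def zx {m : ℕ} (z : Fin m → ℂ) : ℕ → ℂ := fun v => if h : v < m then z ⟨v, h⟩ else 0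

/-- the zeros of the polynomials `X n - fam Φ n`, where `n + 1` is the length `N` of the input -/
def Gset (Φ : Orc) (N m : ℕ) : Set (Fin m → ℂ) :=
  {z | ∃ n, N = n + 1 ∧ eval (zx z) (X n - fam Φ n) = 0}

open Classical in
/-- the set with code `e`: the sets accepted by nondeterministic programs, and the sets `Gset` for the
codes without constants -/
noncomputable def Kset (Φ : Orc) (e n : ℕ) : Set (Fin (mm e n) → ℂ) :=
  if kk e = 0 then Gset Φ n (mm e n) else Rset Φ e n

open Classical in
/-- a chain of algebraic sets for a constructible set -/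
noncomputable def chn {m : ℕ} (S : Set (Fin m → ℂ)) : ℕ → Set (Fin m → ℂ) :=
  if h : ∃ Z : ℕ → Set (Fin m → ℂ), (∀ i, IsAlg (Z i)) ∧ (∀ i, Z (i + 1) ⊆ Z i) ∧ Z (m + 2) = ∅ ∧
      ∀ i z, z ∉ Z i → (∀ j < i, z ∈ Z j) → (z ∈ S ↔ Odd i) then Classical.choose h
  else fun _ => ∅

/-- the algebraic set for the test number `r`: block number `i = r / (2 m + 2)`; the tests of the
parity of `i` are for the `i`-th set of the chain, the others for the preceding one -/
noncomputable def wst {m : ℕ} (S : Set (Fin m → ℂ)) (r : ℕ) : Set (Fin m → ℂ) :=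
  if r % 2 = (r / (2 * m + 2)) % 2 then chn S (r / (2 * m + 2))
  else if r / (2 * m + 2) = 0 then Set.univ else chn S (r / (2 * m + 2) - 1)

/-- the points where the oracle polynomial of level `L` must vanish: coordinates `e`, `n`, `r`
(code, length of the input, number of the test), then the input and the constants -/
def Yset (L : ℕ) (Φ : Orc) : Set (Fin L → ℂ) :=
  {y | ∃ e n r : ℕ, ∃ h : 3 + mm e n ≤ L, lb e n < L ∧ e < L ∧ r < L ∧
    y ⟨0, by omega⟩ = (e : ℂ) ∧ y ⟨1, by omega⟩ = (n : ℂ) ∧ y ⟨2, by omega⟩ = (r : ℂ) ∧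
    (fun i : Fin (mm e n) => y ⟨3 + i, by omega⟩) ∈ wst (Kset Φ e n) r}

/-- the list of a query: `e`, `n`, `r`, then the list `z`, then `d` zeros -/
noncomputable def ql (e n r : ℕ) (z : List ℂ) (d : ℕ) : List ℂ :=
  (e : ℂ) :: (n : ℂ) :: (r : ℂ) :: (z ++ List.replicate d 0)

end VRJ
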