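import Pool.Agent.VRJ.Indep

/-!
# VRJ-TAut: extension of automorphisms of the complex numbers

## Plan
Put `E' = E.map θ`, `w = θ v`; `w` is transcendental over `E'` (transport: `θ` gives an isomorphism of `E` with
`E'`). It suffices to find an automorphism `τ` of `ℂ` over `E'` with `τ w = v'`, then `θ' = τ ∘ θ`. Extend `w` and
`v'` to transcendence bases of `ℂ` over `E'` (`exists_isTranscendenceBasis_superset` for the set `{w}`).
Any two transcendence bases have the same cardinality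
(`IsTranscendenceBasis.cardinalMk_eq`), so there is a bijection of the index sets (types in the same
universe), compose it with a transposition (`Equiv.swap`) to get `w ↦ v'`. An isomorphism of `ℂ` over `E'`
which maps one basis to the other by this bijection: `IsAlgClosed.equivOfTranscendenceBasis` (check
what it says about the images of the basis elements), or: `aeval` isomorphisms of the two subalgebras
`Algebra.adjoin E' (range x)` with `MvPolynomial`, and `IsAlgClosure.equivOfEquiv` (`ℂ` is an algebraic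
closure of both, `IsTranscendenceBasis.isAlgebraic`).
-/

namespace VRJ

private theorem taut_basis {F : Type} [Field F] [Algebra F ℂ] {ι κ : Type} (x : ι → ℂ) (y : κ → ℂ)
    (e : ι ≃ κ) (hx : IsTranscendenceBasis F x) (hy : IsTranscendenceBasis F y) :
    ∃ τ : ℂ ≃+* ℂ, (∀ a : F, τ (algebraMap F ℂ a) = algebraMap F ℂ a) ∧ ∀ i, τ (x i) = y (e i) := by
  let _ := IsAlgClosed.isAlgClosure_of_transcendence_basis x hx
  let _ := IsAlgClosed.isAlgClosure_of_transcendence_basis y hy
  let f : Algebra.adjoin F (Set.range x) ≃ₐ[F] Algebra.adjoin F (Set.range y) :=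
    hx.1.aevalEquiv.symm.trans ((MvPolynomial.renameEquiv F e).trans hy.1.aevalEquiv)
  let τ : ℂ ≃+* ℂ := IsAlgClosure.equivOfEquiv ℂ ℂ f.toRingEquiv
  have hτ : ∀ s : Algebra.adjoin F (Set.range x), τ (s : ℂ) = ((f s : Algebra.adjoin F (Set.range y)) : ℂ) := by
    intro s
    exact IsAlgClosure.equivOfEquiv_algebraMap ℂ ℂ f.toRingEquiv s
  refine ⟨τ, ?_, ?_⟩
  · intro a
    have h1 := hτ (algebraMap F _ a)
    rw [AlgEquiv.commutes] at h1
    exact h1
  · intro i
    have h2 : hx.1.aevalEquiv (MvPolynomial.X i) = ⟨x i, Algebra.subset_adjoin ⟨i, rfl⟩⟩ := by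
      apply Subtype.ext
      simp
    have h3 : f ⟨x i, Algebra.subset_adjoin ⟨i, rfl⟩⟩ = hy.1.aevalEquiv (MvPolynomial.X (e i)) := by
      rw [← h2]
      simp [f]
    have h4 := hτ ⟨x i, Algebra.subset_adjoin ⟨i, rfl⟩⟩
    rw [h3] at h4
    simpa using h4

private theorem taut_over (F : Subfield ℂ) {w v' : ℂ} (hw : Transcendental F w)
    (hv' : Transcendental F v') :
    ∃ τ : ℂ ≃+* ℂ, (∀ x ∈ F, τ x = x) ∧ τ w = v' := by
  classical
  have hi1 : AlgebraicIndepOn F id ({w} : Set ℂ) := by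
    have : AlgebraicIndependent F (fun i : ({w} : Set ℂ) => (i : ℂ)) :=
      (algebraicIndependent_unique_type_iff (ι := ({w} : Set ℂ))).mpr hw
    exact this
  have hi2 : AlgebraicIndepOn F id ({v'} : Set ℂ) := by
    have : AlgebraicIndependent F (fun i : ({v'} : Set ℂ) => (i : ℂ)) :=
      (algebraicIndependent_unique_type_iff (ι := ({v'} : Set ℂ))).mpr hv'
    exact this
  obtain ⟨s, hs, hsb⟩ := exists_isTranscendenceBasis_superset hi1
  obtain ⟨t, ht, htb⟩ := exists_isTranscendenceBasis_superset hi2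
  have hcard := hsb.cardinalMk_eq htb
  obtain ⟨e0⟩ := Cardinal.eq.1 hcard
  let a : s := ⟨w, hs rfl⟩
  let b : t := ⟨v', ht rfl⟩
  let e : s ≃ t := e0.trans (Equiv.swap (e0 a) b)
  have he : e a = b := by
    simp [e]
  obtain ⟨τ, h1, h2⟩ := taut_basis (F := F) (fun i : s => (i : ℂ)) (fun i : t => (i : ℂ)) e hsb htb
  refine ⟨τ, ?_, ?_⟩
  · intro x hx
    exact h1 ⟨x, hx⟩
  · have h3 := h2 a
    rw [he] at h3
    exact h3

theorem aut_ext {E : Subfield ℂ} (θ : ℂ ≃+* ℂ) {v v' : ℂ} (hv : Transcendental E v)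
    (hv' : Transcendental (E.map (θ : ℂ →+* ℂ)) v') :
    ∃ θ' : ℂ ≃+* ℂ, (∀ x ∈ E, θ' x = θ x) ∧ θ' v = v' := by
  have hw : Transcendental (E.map (θ : ℂ →+* ℂ)) (θ v) := by
    rintro ⟨p, hp0, hp⟩
    have hmem : ∀ y : E.map (θ : ℂ →+* ℂ), θ.symm (y : ℂ) ∈ E := by
      rintro ⟨y, x, hx, rfl⟩
      simpa using hx
    let ψ : E.map (θ : ℂ →+* ℂ) →+* E :=
      ((θ.symm : ℂ →+* ℂ).comp (E.map (θ : ℂ →+* ℂ)).subtype).codRestrict E hmem
    have hψ : (algebraMap E ℂ).comp ψ
        = (θ.symm : ℂ →+* ℂ).comp (algebraMap (E.map (θ : ℂ →+* ℂ)) ℂ) := by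
      ext y
      rfl
    apply hv
    refine ⟨p.map ψ, ?_, ?_⟩
    · exact (Polynomial.map_ne_zero_iff ψ.injective).2 hp0
    · rw [Polynomial.aeval_def, Polynomial.eval₂_map, hψ]
      have h1 : v = (θ.symm : ℂ →+* ℂ) (θ v) := by simp
      conv_lhs => rw [h1]
      rw [← Polynomial.hom_eval₂, ← Polynomial.aeval_def, hp]
      simp
  obtain ⟨τ, h1, h2⟩ := taut_over _ hw hv'
  refine ⟨θ.trans τ, ?_, h2⟩
  intro x hx
  exact h1 (θ x) ⟨x, hx, rfl⟩

end VRJ
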