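import Pool.Agent.VRJ.Alg

/-!
# VRJ-TDef: the second oracle (definitions)

All coefficients of the generic levels are jointly algebraically independent over the countable field
`K0`, which contains the coefficients of `A`. `Bset Φ` is a problem in `NP` relative to `Φ`, which is
not in `P` relative to `Φ`.
-/

namespace VRJ

open MvPolynomial

/-- indices of the coefficients: level and exponents -/
abbrev Ix : Type := Σ L : ℕ, (Fin L → ℕ)

/-- exponents of the monomials of low degree of level `6 n + 1` -/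
def lex (n : ℕ) (p : Mon n) : Fin (6 * n + 1) → ℕ := fun v =>
  if h : (v : ℕ) < n then (p.1 ⟨v, h⟩ : ℕ) else if h' : (v : ℕ) - n < n then (p.2 ⟨v - n, h'⟩ : ℕ)
  else 0

/-- the exponents of the generic levels `2 mod 3` -/
abbrev Box (L : ℕ) : Type := Fin L → Fin (4 ^ (L + 1))

/-- the monomials of the generic levels `2 mod 3` -/
noncomputable def bm (L : ℕ) (m : Box L) : MvPolynomial (Fin L) ℂ := ∏ i, X i ^ (m i : ℕ)

/-- the second oracle -/
structure Tw (A Φ : Orc) (K0 : Subfield ℂ) (a : Ix → ℂ) : Prop where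
  ctb : (K0 : Set ℂ).Countable
  ind : AlgebraicIndependent K0 a
  base : ∀ L, CoefIn K0 (A L)
  lev0 : ∀ L, Φ (3 * L) = rename (Fin.castLE (by omega)) (A L)
  lev1 : ∀ n, Φ (6 * n + 1) = ∑ p : Mon n, C (a ⟨6 * n + 1, lex n p⟩) * mono n p
  lev4 : ∀ n, Φ (6 * n + 4) = 0
  lev2 : ∀ L, L % 3 = 2 → Φ L = ∑ m : Box L, C (a ⟨L, fun i => (m i : ℕ)⟩) * bm L m

/-- the field generated by `K0`, the constants in `C` and the coefficients of all levels up to `T`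
except `6 n + 2` and `6 n + 5` -/
noncomputable def Fld (K0 : Subfield ℂ) (a : Ix → ℂ) (C : Finset ℂ) (n T : ℕ) : Subfield ℂ :=
  Subfield.closure ((K0 : Set ℂ) ∪ ((C : Set ℂ) ∪
    a '' {i | i.1 ≤ T ∧ i.1 ≠ 6 * n + 2 ∧ i.1 ≠ 6 * n + 5}))

/-- the point `(y, 0, .., 0)` -/
noncomputable def pt (L : ℕ) (y : ℂ) : Fin L → ℂ := fun i => if (i : ℕ) = 0 then y else 0

/-- the query for the value at the point `(y, 0, .., 0)` of level `L` -/
noncomputable def kq (L : ℕ) (y : ℂ) : Qy := ⟨L, 0, fun v i => if i = 0 then pt L y v else 0⟩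

/-- the query as a functional on the coefficients of the oracle polynomial -/
noncomputable def fv (q : Qy) : Ix →₀ ℂ :=
  ∑ m : Box q.1, Finsupp.single ⟨q.1, fun i => (m i : ℕ)⟩ (jet (bm q.1 m) q.2.1 q.2.2)

/-- combinations of the differentials of the coefficients -/
noncomputable def Dm (a : Ix → ℂ) : (Ix →₀ ℂ) →ₗ[ℂ] Om :=
  Finsupp.linearCombination ℂ fun i => dd (a i)

/-- the problem: is the first entry `w` of `x` equal to `Φ (y, 0, .., 0)` (level `6 |x| + 5`) for some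
root `y` of `Φ (y, 0, .., 0)` (level `6 |x| + 2`)? -/
def Bset (Φ : Orc) : Set (List ℂ) :=
  {x | ∃ (w : ℂ) (l : List ℂ) (y : ℂ), x = w :: l ∧
    ans Φ 0 (y :: List.replicate (6 * x.length + 1) 0) = 0 ∧
    ans Φ 0 (y :: List.replicate (6 * x.length + 4) 0) = w}

/-- apply `θ` to the coordinates of a query -/
def qmap (θ : ℂ ≃+* ℂ) (q : Qy) : Qy := ⟨q.1, q.2.1, fun v i => θ (q.2.2 v i)⟩

/-- apply `θ` to all entries of a state -/
def smap (θ : ℂ ≃+* ℂ) (σ : St) : St := fun i => (σ i).map θ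

/-- all constants of the program are in `F` -/
def Prog.Cin (F : Set ℂ) : Prog ℂ → Prop
  | .push _ c => c ∈ F
  | .pop _ => True
  | .copy _ _ => True
  | .add _ => True
  | .sub _ => True
  | .mul _ => True
  | .div _ => True
  | .ask _ _ => True
  | .seq p q => p.Cin F ∧ q.Cin F
  | .ifz _ p q => p.Cin F ∧ q.Cin F
  | .ifn _ p q => p.Cin F ∧ q.Cin F
  | .loop _ p => p.Cin F

/-- the setting of the comparison of the inputs `ξ` (generic) and `ω` (in the problem) -/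
structure Cmp (Φ : Orc) (F : Subfield ℂ) (a : Ix → ℂ) (n R T : ℕ) (ξ ω κ : ℂ) : Prop where
  low : ∀ L ≤ T, L ≠ 6 * n + 2 → L ≠ 6 * n + 5 → CoefIn F (Φ L)
  lin : ∀ q : Qy, (q.1 = 6 * n + 2 ∨ q.1 = 6 * n + 5) →
    jet (Φ q.1) q.2.1 q.2.2 = (fv q).sum fun i b => b * a i
  val : ∀ q : Qy, (q.1 = 6 * n + 2 ∨ q.1 = 6 * n + 5) →
    dd (jet (Φ q.1) q.2.1 q.2.2) - Dm a (fv q) ∈
      Submodule.span ℂ (Set.range fun p : Fin q.1 × Fin (q.2.1 + 1) => dd (q.2.2 p.1 p.2))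
  ind : ∀ (x : ℂ) (β : Ix →₀ ℂ), (∀ i ∈ β.support, i.1 = 6 * n + 2 ∨ i.1 = 6 * n + 5) →
    x • dd ξ + Dm a β ∈ dK F → x = 0 ∧ β = 0
  sep : ∀ (L : ℕ), (L = 6 * n + 2 ∨ L = 6 * n + 5) → ∀ (S : Finset Qy) (c : Qy → ℂ) (y : ℂ),
    S.card < R → (∀ q ∈ S, q.1 = L → q.2.1 ≤ R ∧ (fun v => q.2.2 v 0) ≠ pt q.1 κ) →
      (∀ i : Ix, i.1 = L → (y • fv (kq L κ) + ∑ q ∈ S, c q • fv q) i = 0) → y = 0
  kap : ∃ r : ℂ, r ≠ 0 ∧ dd κ = r • Dm a (fv (kq (6 * n + 2) κ))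
  omg : ∃ r : ℂ, dd ω = r • Dm a (fv (kq (6 * n + 2) κ)) + Dm a (fv (kq (6 * n + 5) κ))

/-- the invariant of the comparison: `Q` = queries asked so far, `E` = field of the values computed
so far from the generic input, `θ` = automorphism which transforms them into the values for the
other input -/
structure Inv (Φ : Orc) (F : Subfield ℂ) (a : Ix → ℂ) (n R : ℕ) (ξ ω κ : ℂ) (Q : Finset Qy)
    (E : Subfield ℂ) (θ : ℂ ≃+* ℂ) : Prop where
  lev : ∀ q ∈ Q, q.1 = 6 * n + 2 ∨ q.1 = 6 * n + 5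
  ord : ∀ q ∈ Q, q.2.1 ≤ R
  fld : F ≤ E
  fix : ∀ x ∈ F, θ x = x
  coo : ∀ q ∈ Q, ∀ v i, q.2.2 v i ∈ E
  anE : ∀ q ∈ Q, jet (Φ q.1) q.2.1 q.2.2 ∈ E
  anT : ∀ q ∈ Q, θ (jet (Φ q.1) q.2.1 q.2.2) = jet (Φ q.1) q.2.1 (qmap θ q).2.2
  dE : dK E ≤ dK F ⊔ Submodule.span ℂ {dd ξ} ⊔
    Submodule.span ℂ ((fun q => Dm a (fv q)) '' (Q : Set Qy))
  dE' : dK (E.map (θ : ℂ →+* ℂ)) ≤ dK F ⊔ Submodule.span ℂ {dd ω} ⊔
    Submodule.span ℂ ((fun q => Dm a (fv (qmap θ q))) '' (Q : Set Qy))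
  nk : ∀ q ∈ Q, (fun v => θ (q.2.2 v 0)) ≠ pt q.1 κ

end VRJ
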