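import Pool.Agent.VRJ.Jet
import Pool.Agent.VRJ.TDef

/-!
# VRJ-TJet: Taylor coefficients, subfields and automorphisms

## Plan
The set of polynomials `G` such that for all `k' ≤ k` the number `jet G k' z` is in `E` (respectively is
mapped by `θ` to `jet G k' (θ z)`) contains `1`, the `X l` and is closed under products (`jet_mul`,
`jet_C`, `jet_X`), so it contains the monomials. General `G`: `jet_expand`, the coefficients are in `F ≤ E` and
fixed by `θ`. `fv_theta`: apply this to the `bm L m` (coefficients `0`, `1`; products of variables).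
`fv_level`: the support of `fv q` is in level `q.1`. `dep_theta`: if `fv q` is a combination of the `fv q'`,
`q' ∈ S`, with complex coefficients, and all entries are in `E`, then it is a combination with
coefficients in `E` (a linear system over `E` which is solvable over `ℂ` is solvable over `E`:
e.g. choose a projection `ℂ → E` of `E`-vector spaces, an `E`-linear `π` with `π 1 = 1`, i.e. `π x = x` for `x ∈ E`
(`exists linear retraction`, `LinearMap.exists_leftInverse_of_injective`), and apply it to the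
coefficients).
-/

namespace VRJ

open MvPolynomial

private theorem bm_mem {L : ℕ} (M : Submonoid (MvPolynomial (Fin L) ℂ))
    (hX : ∀ l : Fin L, (X l : MvPolynomial (Fin L) ℂ) ∈ M) (m : Box L) : bm L m ∈ M :=
  Submonoid.prod_mem _ fun l _ => Submonoid.pow_mem _ (hX l) _

private def memSub (E : Subfield ℂ) {L : ℕ} (z : Fin L → ℕ → ℂ) :
    Submonoid (MvPolynomial (Fin L) ℂ) where
  carrier := {G | ∀ k, jet G k z ∈ E}
  one_mem' := by
    intro k
    have h := jet_C (R := ℂ) (1 : ℂ) k z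
    rw [C_1] at h
    rw [h]
    split_ifs
    · exact E.one_mem
    · exact E.zero_mem
  mul_mem' := by
    intro a b ha hb k
    rw [jet_mul]
    exact Subfield.sum_mem _ fun i _ => E.mul_mem (ha i) (hb _)

private def thSub (θ : ℂ ≃+* ℂ) {L : ℕ} (z : Fin L → ℕ → ℂ) :
    Submonoid (MvPolynomial (Fin L) ℂ) where
  carrier := {G | ∀ k, θ (jet G k z) = jet G k fun l i => θ (z l i)}
  one_mem' := by
    intro k
    have h := jet_C (R := ℂ) (1 : ℂ) k z
    have h' := jet_C (R := ℂ) (1 : ℂ) k (fun l i => θ (z l i))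
    rw [C_1] at h h'
    rw [h, h']
    split_ifs
    · simp
    · exact map_zero θ
  mul_mem' := by
    intro a b ha hb k
    rw [jet_mul, jet_mul, map_sum]
    refine Finset.sum_congr rfl fun i _ => ?_
    rw [map_mul, ha i, hb (k - i)]

private theorem X_memSub {E : Subfield ℂ} {L : ℕ} {z : Fin L → ℕ → ℂ} (hz : ∀ l i, z l i ∈ E)
    (l : Fin L) : (X l : MvPolynomial (Fin L) ℂ) ∈ memSub E z := by
  intro k
  rw [jet_X]
  exact hz l k

private theorem X_thSub (θ : ℂ ≃+* ℂ) {L : ℕ} (z : Fin L → ℕ → ℂ)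
    (l : Fin L) : (X l : MvPolynomial (Fin L) ℂ) ∈ thSub θ z := by
  intro k
  rw [jet_X, jet_X]

private theorem mono_mem {L : ℕ} (M : Submonoid (MvPolynomial (Fin L) ℂ))
    (hX : ∀ l : Fin L, (X l : MvPolynomial (Fin L) ℂ) ∈ M) (m : Fin L →₀ ℕ) :
    (monomial m (1 : ℂ)) ∈ M := by
  rw [monomial_eq, C_1, one_mul]
  exact Submonoid.prod_mem _ fun l _ => Submonoid.pow_mem _ (hX l) _

theorem jet_mem {E : Subfield ℂ} {L : ℕ} {G : MvPolynomial (Fin L) ℂ} (hG : CoefIn E G) (k : ℕ)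
    (z : Fin L → ℕ → ℂ) (hz : ∀ l i, z l i ∈ E) : jet G k z ∈ E := by
  rw [jet_expand]
  refine Subfield.sum_mem _ fun m _ => E.mul_mem (hG m) ?_
  exact mono_mem (memSub E z) (X_memSub hz) m k

theorem jet_theta {F : Subfield ℂ} {θ : ℂ ≃+* ℂ} (hθ : ∀ x ∈ F, θ x = x) {L : ℕ}
    {G : MvPolynomial (Fin L) ℂ} (hG : CoefIn F G) (k : ℕ) (z : Fin L → ℕ → ℂ) :
    θ (jet G k z) = jet G k fun l i => θ (z l i) := by
  rw [jet_expand, jet_expand, map_sum]
  refine Finset.sum_congr rfl fun m _ => ?_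
  rw [map_mul, hθ _ (hG m)]
  congr 1
  exact mono_mem (thSub θ z) (X_thSub θ z) m k

private theorem fv_apply (q : Qy) (i : Ix) : fv q i =
    ∑ m : Box q.1, (Finsupp.single (⟨q.1, fun i => (m i : ℕ)⟩ : Ix)
      (jet (bm q.1 m) q.2.1 q.2.2)) i := by
  unfold fv
  rw [Finsupp.finset_sum_apply]

theorem fv_level {q : Qy} {i : Ix} (h : i ∈ (fv q).support) : i.1 = q.1 := by
  classical
  by_contra hne
  rw [Finsupp.mem_support_iff] at h
  apply h
  rw [fv_apply]
  refine Finset.sum_eq_zero fun m _ => ?_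
  rw [Finsupp.single_apply, if_neg]
  intro he
  exact hne (by rw [← he])

theorem fv_mem {E : Subfield ℂ} {q : Qy} (hq : ∀ v i, q.2.2 v i ∈ E) (i : Ix) : fv q i ∈ E := by
  classical
  rw [fv_apply]
  refine Subfield.sum_mem _ fun m _ => ?_
  rw [Finsupp.single_apply]
  split_ifs
  · exact bm_mem (memSub E q.2.2) (X_memSub hq) m q.2.1
  · exact E.zero_mem

theorem fv_theta (θ : ℂ ≃+* ℂ) (q : Qy) (i : Ix) : fv (qmap θ q) i = θ (fv q i) := by
  classical
  rw [fv_apply, fv_apply, map_sum]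
  refine Finset.sum_congr rfl fun m _ => ?_
  rw [Finsupp.single_apply, Finsupp.single_apply]
  have h : θ (jet (bm q.1 m) q.2.1 q.2.2) = jet (bm q.1 m) q.2.1 fun l i => θ (q.2.2 l i) :=
    bm_mem (thSub θ q.2.2) (X_thSub θ q.2.2) m q.2.1
  by_cases h1 : (⟨q.1, fun i => (m i : ℕ)⟩ : Ix) = i
  · have h2 : (⟨(qmap θ q).1, fun i => (m i : ℕ)⟩ : Ix) = i := h1
    rw [if_pos h1, if_pos h2, h]
    rfl
  · have h2 : ¬ (⟨(qmap θ q).1, fun i => (m i : ℕ)⟩ : Ix) = i := h1
    rw [if_neg h1, if_neg h2, map_zero]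

theorem dep_field {E : Subfield ℂ} {q : Qy} (hq : ∀ v i, q.2.2 v i ∈ E) {S : Finset Qy}
    (hS : ∀ q' ∈ S, ∀ v i, q'.2.2 v i ∈ E) (c : Qy → ℂ) (h : fv q = ∑ q' ∈ S, c q' • fv q') :
    ∃ c' : Qy → ℂ, (∀ q' ∈ S, c' q' ∈ E) ∧ fv q = ∑ q' ∈ S, c' q' • fv q' := by
  classical
  obtain ⟨π, hπ⟩ := LinearMap.exists_leftInverse_of_injective (Algebra.linearMap E ℂ)
    (LinearMap.ker_eq_bot.2 (fun a b hab => Subtype.ext hab))
  have hπ' : ∀ x : E, π (x : ℂ) = x := fun x => LinearMap.congr_fun hπ x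
  refine ⟨fun q' => (π (c q') : ℂ), fun q' _ => (π (c q')).2, ?_⟩
  ext i
  have h1 : fv q i = ∑ q' ∈ S, c q' * fv q' i := by
    rw [h, Finsupp.finset_sum_apply]
    rfl
  have h2 : fv q i ∈ E := fv_mem hq i
  have h3 : fv q i = (π (fv q i) : ℂ) := by
    have := hπ' ⟨fv q i, h2⟩
    exact (congrArg (fun x : E => (x : ℂ)) this).symm
  rw [Finsupp.finset_sum_apply, h3, h1, map_sum]
  push_cast
  refine Finset.sum_congr rfl fun q' hq' => ?_
  have h4 : fv q' i ∈ E := fv_mem (hS q' hq') i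
  have h5 : c q' * fv q' i = (⟨fv q' i, h4⟩ : E) • c q' := by
    rw [Algebra.smul_def, mul_comm]
    rfl
  rw [h5, map_smul]
  change ((⟨fv q' i, h4⟩ : E) • π (c q') : E).1 = (π (c q') : ℂ) * fv q' i
  rw [mul_comm]
  rfl

end VRJ
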