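import Pool.Agent.VRJ.LocInv
import Pool.Agent.VRJ.TDef

/-!
# VRJ-TSep: the monomials of the box realise all Taylor coefficients at few points

`R = 2 ^ L`. For `y ∈ S` let `U y` be the product of the `(X v - C (y' v)) ^ (R + 1)`, `y' ∈ S.erase y`
(`v` = a coordinate with `y v ≠ y' v`), and `Q y` from `loc_inv` for `G y` (degree `≤ R`). The polynomial
`H = ∑ y ∈ S, U y * Q y` has degree less than `4 ^ (L + 1)` and the required Taylor coefficients.
-/

namespace VRJ

open MvPolynomial

theorem box_jet {L : ℕ} (S : Finset (Fin L → ℂ)) (hS : S.card ≤ 2 ^ L)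
    (G : (Fin L → ℂ) → MvPolynomial (Fin L) ℂ) : ∃ l : Box L → ℂ,
      ∀ z : Fin L → ℕ → ℂ, (fun v => z v 0) ∈ S → ∀ j ≤ 2 ^ L,
        ∑ m, l m * jet (bm L m) j z = jet (G fun v => z v 0) j z := by
  classical
  obtain ⟨R, hR⟩ : ∃ R, R = 2 ^ L := ⟨_, rfl⟩
  rw [← hR] at hS
  rw [← hR]
  have hR1 : 1 ≤ R := by
    rw [hR]
    exact Nat.one_le_two_pow
  let g : (Fin L → ℂ) → (Fin L → ℂ) → MvPolynomial (Fin L) ℂ := fun y y' =>
    if h : ∃ v, y v ≠ y' v then X h.choose - C (y' h.choose) else 1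
  have hg1 : ∀ y y', y ≠ y' → aeval y' (g y y') = 0 := by
    intro y y' hy
    have h : ∃ v, y v ≠ y' v := Function.ne_iff.1 hy
    simp only [g]
    rw [dif_pos h]
    simp
  have hg2 : ∀ y y', eval y (g y y') ≠ 0 := by
    intro y y'
    simp only [g]
    by_cases h : ∃ v, y v ≠ y' v
    · rw [dif_pos h]
      have := h.choose_spec
      simp only [map_sub, eval_X, eval_C]
      exact sub_ne_zero.2 this
    · rw [dif_neg h]
      simp
  have hg3 : ∀ y y', (g y y').totalDegree ≤ 1 := by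
    intro y y'
    simp only [g]
    by_cases h : ∃ v, y v ≠ y' v
    · rw [dif_pos h]
      refine (totalDegree_sub _ _).trans ?_
      rw [totalDegree_X, totalDegree_C]
      simp
    · rw [dif_neg h]
      simp
  obtain ⟨U, hU⟩ : ∃ U : (Fin L → ℂ) → MvPolynomial (Fin L) ℂ,
      ∀ y, U y = ∏ y' ∈ S.erase y, g y y' ^ (R + 1) := ⟨_, fun _ => rfl⟩
  have hU0 : ∀ y, eval y (U y) ≠ 0 := by
    intro y
    rw [hU, map_prod]
    refine Finset.prod_ne_zero_iff.2 fun y' _ => ?_
    rw [map_pow]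
    exact pow_ne_zero _ (hg2 y y')
  have hUd : ∀ y ∈ S, (U y).totalDegree ≤ (R - 1) * (R + 1) := by
    intro y hy
    rw [hU]
    refine (totalDegree_finsetProd _ _).trans ?_
    refine (Finset.sum_le_card_nsmul _ _ (R + 1) fun y' _ => ?_).trans ?_
    · refine (totalDegree_pow _ _).trans ?_
      calc (R + 1) * (g y y').totalDegree ≤ (R + 1) * 1 := Nat.mul_le_mul_left _ (hg3 y y')
        _ = R + 1 := mul_one _
    · rw [smul_eq_mul, Finset.card_erase_of_mem hy]
      exact Nat.mul_le_mul_right _ (Nat.sub_le_sub_right hS 1)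
  choose Q hQ1 hQ2 using fun y => loc_inv R y (U y) (G y) (hU0 y)
  obtain ⟨H, hH⟩ : ∃ H, H = ∑ y ∈ S, U y * Q y := ⟨_, rfl⟩
  have hHd : H.totalDegree < 4 ^ (L + 1) := by
    have h1 : H.totalDegree ≤ (R - 1) * (R + 1) + R := by
      rw [hH]
      refine (totalDegree_finsetSum _ _).trans ?_
      refine Finset.sup_le fun y hy => ?_
      exact (totalDegree_mul _ _).trans (add_le_add (hUd y hy) (hQ1 y))
    have h2 : 4 ^ (L + 1) = 4 * (R * R) := by
      rw [hR, pow_succ, ← mul_pow]
      norm_num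
      ring
    rw [h2]
    obtain ⟨k, rfl⟩ := Nat.exists_eq_add_of_le hR1
    refine lt_of_le_of_lt h1 ?_
    rw [Nat.add_sub_cancel_left]
    nlinarith
  have hHj : ∀ z : Fin L → ℕ → ℂ, (fun v => z v 0) ∈ S → ∀ j ≤ R,
      jet H j z = jet (G fun v => z v 0) j z := by
    intro z hz j hj
    rw [hH, jet_sum, Finset.sum_eq_single (fun v => z v 0)]
    · exact hQ2 _ z rfl j hj
    · intro y _ hne
      have hy' : (fun v => z v 0) ∈ S.erase y := Finset.mem_erase.2 ⟨hne.symm, hz⟩
      rw [hU, ← Finset.mul_prod_erase _ _ hy', mul_assoc]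
      apply jet_mul_zero
      intro i hi
      exact jet_pow_zero (by omega) (hg1 y _ hne)
    · intro h
      exact absurd hz h
  let e : Box L → (Fin L →₀ ℕ) := fun m =>
    Finsupp.equivFunOnFinite.symm (fun i => (m i : ℕ))
  have he : Function.Injective e := by
    intro m m' h
    have h1 := Finsupp.equivFunOnFinite.symm.injective h
    funext i
    exact Fin.ext (congrFun h1 i)
  have hbm : ∀ m : Box L, monomial (e m) (1 : ℂ) = bm L m := by
    intro m
    rw [monomial_eq, C_1, one_mul, Finsupp.prod_fintype _ _ fun i => pow_zero _]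
    rfl
  refine ⟨fun m => coeff (e m) H, fun z hz j hj => ?_⟩
  rw [← hHj z hz j hj, jet_expand]
  have h1 : ∑ m, coeff (e m) H * jet (bm L m) j z =
      ∑ d ∈ Finset.univ.map ⟨e, he⟩, coeff d H * jet (monomial d (1 : ℂ)) j z := by
    rw [Finset.sum_map]
    refine Finset.sum_congr rfl fun m _ => ?_
    rw [← hbm]
    rfl
  rw [h1]
  symm
  apply Finset.sum_subset
  · intro d hd
    rw [Finset.mem_map]
    have hd1 : ∀ i, d i < 4 ^ (L + 1) := by
      intro i
      have h2 := le_totalDegree hd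
      refine lt_of_le_of_lt ?_ (h2.trans_lt hHd)
      by_cases hi : i ∈ d.support
      · exact Finset.single_le_sum (f := fun j => d j) (fun _ _ => Nat.zero_le _) hi
      · rw [Finsupp.notMem_support_iff.1 hi]
        exact Nat.zero_le _
    refine ⟨fun i => ⟨d i, hd1 i⟩, Finset.mem_univ _, ?_⟩
    ext i
    rfl
  · intro d _ hd
    rw [notMem_support_iff.1 hd, zero_mul]

end VRJ
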