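import Pool.Agent.VRJ.TGood
import Pool.Agent.VRJ.TSep
import Pool.Agent.VRJ.TJet
import Pool.Agent.VRJ.Indep

/-!
# VRJ-TCmp: the two inputs

## Plan
Compare with `Pool/Agent/VRB/TCmp.lean` (copy and adapt). `F = Fld K0 a C n T`, `R = 2 ^ (6 n + 2)`.
`low`: coefficients of `Φ L`, `L ≤ T`, `L` not one of the two levels, are in `F` (for `3 M` in `K0`). `lin`: `lev2`,
`jet_sum`, `jet_C_mul`, definition of `fv`. `val`: `dd_jet`, `dc` of `∑ C (a _) * bm L m` (coefficients of `bm` are `0` or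
`1`) is `Dm a (fv q)`; or from `lin`: `dd_mul` and `dd (jet (bm L m) k z)` in the span (`dd_jet` for `bm`, `dc` of `bm` is `0`
because its coefficients are integers).
`G` = field generated by `F` and all `a i`: countable. `ξ` algebraically independent over `G`
(`exists_indep`), so `dd ξ ∉ dK G` (`dli`). `ind`: `Dm a β` and `dK F` are in `dK G`, so `x = 0`; then `β = 0` by `hg`.
`sep`: let `L` be the level, `Z` = set of the base points of the `q ∈ S` with `q.1 = L`, and `pt L κ` (cardinality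
`≤ R ≤ 2 ^ L`); `box_jet` with `G y = 1` if `y = pt L κ`, `G y = 0` otherwise: pair the equation with `l`:
`∑ m, l m * (fv q) ⟨L, m⟩ = ∑ m, l m * jet (bm L m) (order) (curve)` is `0` for `q ∈ S` of level `L` (order
`≤ R ≤ 2 ^ L`), `1` for `kq L κ` (`fv q ⟨L, _⟩ = 0` for other levels, `fv_level`): `y = 0`.
`κ`: root of `V(y) = eval (pt L y) (Φ L)`, `L = 6 n + 2`, a polynomial of positive degree in `y`;
`0 = dd (V κ) = V'(κ) • dd κ + Dm a (fv (kq L κ))`, `V'(κ) ≠ 0` since `fv (kq L κ) ≠ 0` and `ind`. `r = -V'(κ)⁻¹`. `ω = W κ`: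
`dd ω = W'(κ) • dd κ + Dm a (fv (kq (6 n + 5) κ))`. Last property: if `V(y) = 0` then `y` is algebraic over `G`, so is
`W(y)`; but `ξ` is transcendental over `G`.
-/

namespace VRJ

open MvPolynomial

private theorem cmp_ci_C {σ : Type} {K : Subfield ℂ} {c : ℂ} (hc : c ∈ K) :
    CoefIn K (C c : MvPolynomial σ ℂ) := by
  classical
  intro m
  rw [coeff_C]
  split_ifs
  · exact hc
  · exact K.zero_mem

private theorem cmp_ci_X {σ : Type} {K : Subfield ℂ} (i : σ) :
    CoefIn K (X i : MvPolynomial σ ℂ) := by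
  classical
  intro m
  rw [coeff_X]
  split_ifs
  · exact K.one_mem
  · exact K.zero_mem

private theorem cmp_ci_mul {σ : Type} {K : Subfield ℂ} {f g : MvPolynomial σ ℂ}
    (hf : CoefIn K f) (hg : CoefIn K g) : CoefIn K (f * g) := by
  classical
  intro m
  rw [coeff_mul]
  exact sum_mem fun p _ => K.mul_mem (hf _) (hg _)

private theorem cmp_ci_sum {σ ι : Type} {K : Subfield ℂ} (s : Finset ι)
    (f : ι → MvPolynomial σ ℂ) (hf : ∀ i ∈ s, CoefIn K (f i)) : CoefIn K (∑ i ∈ s, f i) := by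
  intro m
  rw [coeff_sum]
  exact sum_mem fun i hi => hf i hi m

private theorem cmp_ci_one {σ : Type} {K : Subfield ℂ} :
    CoefIn K (1 : MvPolynomial σ ℂ) := by
  rw [← C_1]
  exact cmp_ci_C K.one_mem

private theorem cmp_ci_pow {σ : Type} {K : Subfield ℂ} {f : MvPolynomial σ ℂ}
    (hf : CoefIn K f) (k : ℕ) : CoefIn K (f ^ k) := by
  induction k with
  | zero => rw [pow_zero]; exact cmp_ci_one
  | succ k ih => rw [pow_succ]; exact cmp_ci_mul ih hf

private theorem cmp_ci_prod {σ ι : Type} {K : Subfield ℂ} (s : Finset ι)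
    (f : ι → MvPolynomial σ ℂ) (hf : ∀ i ∈ s, CoefIn K (f i)) : CoefIn K (∏ i ∈ s, f i) := by
  classical
  induction s using Finset.induction_on with
  | empty => rw [Finset.prod_empty]; exact cmp_ci_one
  | insert i s hi ih =>
    rw [Finset.prod_insert hi]
    exact cmp_ci_mul (hf i (Finset.mem_insert_self _ _))
      (ih fun j hj => hf j (Finset.mem_insert_of_mem hj))

private theorem cmp_ci_rename {σ τ : Type} {K : Subfield ℂ} (f : σ → τ)
    (hf : Function.Injective f) {p : MvPolynomial σ ℂ} (hp : CoefIn K p) :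
    CoefIn K (rename f p) := by
  intro m
  by_cases h : coeff m (rename f p) = 0
  · rw [h]; exact K.zero_mem
  · obtain ⟨u, hu, _⟩ := coeff_rename_ne_zero f p m h
    rw [← hu, coeff_rename_mapDomain f hf]
    exact hp u

private theorem cmp_low {A Φ : Orc} {K0 : Subfield ℂ} {a : Ix → ℂ} (h : Tw A Φ K0 a)
    (C' : Finset ℂ) (n T L : ℕ) (hL : L ≤ T) (h2 : L ≠ 6 * n + 2) (h5 : L ≠ 6 * n + 5) :
    CoefIn (Fld K0 a C' n T) (Φ L) := by
  have hK : K0 ≤ Fld K0 a C' n T := fun x hx => Subfield.subset_closure (Or.inl hx)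
  have ha : ∀ i : Ix, i.1 = L → a i ∈ Fld K0 a C' n T := by
    intro i hi
    refine Subfield.subset_closure (Or.inr (Or.inr ⟨i, ⟨?_, ?_, ?_⟩, rfl⟩))
    · rw [hi]; exact hL
    · rw [hi]; exact h2
    · rw [hi]; exact h5
  have h6 : L % 3 = 0 ∨ L % 3 = 2 ∨ L % 6 = 1 ∨ L % 6 = 4 := by omega
  rcases h6 with h6 | h6 | h6 | h6
  · obtain ⟨M, rfl⟩ : ∃ M, L = 3 * M := ⟨L / 3, by omega⟩
    rw [h.lev0 M]
    apply cmp_ci_rename
    · exact Fin.castLE_injective _
    · exact fun m => hK (h.base M m)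
  · rw [h.lev2 L h6]
    exact cmp_ci_sum _ _ fun m _ => cmp_ci_mul (cmp_ci_C (ha _ rfl))
      (cmp_ci_prod _ _ fun i _ => cmp_ci_pow (cmp_ci_X i) _)
  · obtain ⟨M, rfl⟩ : ∃ M, L = 6 * M + 1 := ⟨L / 6, by omega⟩
    rw [h.lev1 M]
    refine cmp_ci_sum _ _ fun p _ => cmp_ci_mul (cmp_ci_C (ha _ rfl)) ?_
    unfold mono
    exact cmp_ci_mul (cmp_ci_prod _ _ fun i _ => cmp_ci_pow (cmp_ci_X _) _)
      (cmp_ci_prod _ _ fun i _ => cmp_ci_pow (cmp_ci_X _) _)
  · obtain ⟨M, rfl⟩ : ∃ M, L = 6 * M + 4 := ⟨L / 6, by omega⟩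
    rw [h.lev4 M]
    intro m
    rw [coeff_zero]
    exact zero_mem _

private theorem cmp_dd_sum {ι : Type*} (s : Finset ι) (f : ι → ℂ) :
    dd (∑ i ∈ s, f i) = ∑ i ∈ s, dd (f i) := by
  exact map_sum _ f s

/-- the exponents of a monomial of the box -/
private noncomputable def cmpEx (L : ℕ) (m : Box L) : Fin L →₀ ℕ :=
  Finsupp.equivFunOnFinite.symm fun i => (m i : ℕ)

private theorem cmp_bm (L : ℕ) (m : Box L) : bm L m = monomial (cmpEx L m) (1 : ℂ) := by
  rw [bm, monomial_eq, map_one, one_mul, Finsupp.prod_fintype]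
  · rfl
  · intro i
    exact pow_zero _

private theorem cmp_dc_bm (L : ℕ) (m : Box L) (k : ℕ) (z : Fin L → ℕ → ℂ) :
    dc (bm L m) k z = 0 := by
  classical
  unfold dc
  refine Finset.sum_eq_zero fun m' _ => ?_
  rw [cmp_bm, coeff_monomial]
  split_ifs
  · rw [dd_one, smul_zero]
  · rw [dd_zero, smul_zero]

private theorem cmp_jet (A Φ : Orc) {K0 : Subfield ℂ} {a : Ix → ℂ} (h : Tw A Φ K0 a) (q : Qy)
    (hq : q.1 % 3 = 2) : jet (Φ q.1) q.2.1 q.2.2 =
      ∑ m : Box q.1, a ⟨q.1, fun i => (m i : ℕ)⟩ * jet (bm q.1 m) q.2.1 q.2.2 := by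
  rw [h.lev2 q.1 hq, jet_sum]
  refine Finset.sum_congr rfl fun m _ => ?_
  rw [jet_C_mul, smul_eq_mul]

private theorem cmp_lin {A Φ : Orc} {K0 : Subfield ℂ} {a : Ix → ℂ} (h : Tw A Φ K0 a) (q : Qy)
    (hq : q.1 % 3 = 2) : jet (Φ q.1) q.2.1 q.2.2 = (fv q).sum fun i b => b * a i := by
  classical
  rw [cmp_jet A Φ h q hq, fv, ← Finsupp.sum_finsetSum_index]
  · refine Finset.sum_congr rfl fun m _ => ?_
    rw [Finsupp.sum_single_index, mul_comm]
    exact zero_mul _
  · intro i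
    exact zero_mul _
  · intro i b c
    exact add_mul _ _ _

private theorem cmp_Dm (a : Ix → ℂ) (q : Qy) : Dm a (fv q) =
    ∑ m : Box q.1, jet (bm q.1 m) q.2.1 q.2.2 • dd (a ⟨q.1, fun i => (m i : ℕ)⟩) := by
  rw [Dm, fv, map_sum]
  refine Finset.sum_congr rfl fun m _ => ?_
  rw [Finsupp.linearCombination_single]

private theorem cmp_val {A Φ : Orc} {K0 : Subfield ℂ} {a : Ix → ℂ} (h : Tw A Φ K0 a) (q : Qy)
    (hq : q.1 % 3 = 2) :
    dd (jet (Φ q.1) q.2.1 q.2.2) - Dm a (fv q) ∈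
      Submodule.span ℂ (Set.range fun p : Fin q.1 × Fin (q.2.1 + 1) => dd (q.2.2 p.1 p.2)) := by
  rw [cmp_jet A Φ h q hq, cmp_Dm, cmp_dd_sum, ← Finset.sum_sub_distrib]
  refine Submodule.sum_mem _ fun m _ => ?_
  rw [dd_mul, add_sub_cancel_right]
  refine Submodule.smul_mem _ _ ?_
  have h1 := dd_jet (bm q.1 m) q.2.1 q.2.2
  rw [cmp_dc_bm, sub_zero] at h1
  exact h1

private theorem cmp_fv_ne (q : Qy) (i : Ix) (h : q.1 ≠ i.1) : fv q i = 0 := by
  by_contra hcon
  exact h (fv_level (Finsupp.mem_support_iff.2 hcon)).symm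

private theorem cmp_fv_eq (L k : ℕ) (z : Fin L → ℕ → ℂ) (m : Box L) :
    fv ⟨L, k, z⟩ ⟨L, fun i => (m i : ℕ)⟩ = jet (bm L m) k z := by
  classical
  rw [fv, Finsupp.finsetSum_apply, Finset.sum_eq_single m]
  · rw [Finsupp.single_apply, if_pos rfl]
  · intro m' _ hm'
    rw [Finsupp.single_apply, if_neg]
    intro he
    apply hm'
    have h1 : (fun i => (m' i : ℕ)) = fun i => (m i : ℕ) := by
      simpa using he
    funext i
    exact Fin.ext (congrFun h1 i)
  · intro hm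
    exact absurd (Finset.mem_univ m) hm

private theorem cmp_Dm_mem {G : Subfield ℂ} {a : Ix → ℂ} (ha : ∀ i, a i ∈ G) (β : Ix →₀ ℂ) :
    Dm a β ∈ dK G := by
  rw [Dm, Finsupp.linearCombination_apply]
  exact Submodule.sum_mem _ fun i _ => Submodule.smul_mem _ _ (dd_mem (ha i))

/-- the constant curve -/
private noncomputable def cmpKz (L : ℕ) (y : ℂ) : Fin L → ℕ → ℂ :=
  fun v i => if i = 0 then pt L y v else 0

private theorem cmp_base (L : ℕ) (y : ℂ) : (fun v => cmpKz L y v 0) = pt L y := by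
  funext v
  show (if (0 : ℕ) = 0 then pt L y v else 0) = pt L y v
  rw [if_pos rfl]

private theorem cmp_jetval (L : ℕ) (F : MvPolynomial (Fin L) ℂ) (y : ℂ) :
    jet F 0 (cmpKz L y) = eval (pt L y) F := by
  rw [jet_zero]
  rw [cmp_base, MvPolynomial.aeval_eq_eval]

private theorem cmp_sep (n : ℕ) (κ : ℂ) (L : ℕ) (hL : L = 6 * n + 2 ∨ L = 6 * n + 5)
    (S : Finset Qy) (c : Qy → ℂ) (y : ℂ) (hS : S.card < 2 ^ (6 * n + 2))
    (hq : ∀ q ∈ S, q.1 = L → q.2.1 ≤ 2 ^ (6 * n + 2) ∧ (fun v => q.2.2 v 0) ≠ pt q.1 κ)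
    (h0 : ∀ i : Ix, i.1 = L → (y • fv (kq L κ) + ∑ q ∈ S, c q • fv q) i = 0) : y = 0 := by
  classical
  have hRL : 2 ^ (6 * n + 2) ≤ 2 ^ L := by
    refine Nat.pow_le_pow_right (by norm_num) ?_
    rcases hL with h | h <;> omega
  set SL : Finset (Fin L → ℂ) := S.image (fun q v =>
    if h : q.1 = L then q.2.2 (Fin.cast h.symm v) 0 else 0) with hSL
  set Z : Finset (Fin L → ℂ) := insert (pt L κ) SL with hZ
  have hZc : Z.card ≤ 2 ^ L := by
    have h1 : SL.card ≤ S.card := Finset.card_image_le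
    have h2 : Z.card ≤ SL.card + 1 := Finset.card_insert_le _ _
    omega
  obtain ⟨l, hl⟩ := box_jet Z hZc fun z => if z = pt L κ then 1 else 0
  have hk : ∑ m : Box L, l m * fv (kq L κ) ⟨L, fun i => (m i : ℕ)⟩ = 1 := by
    have h1 := hl (cmpKz L κ) (by
      rw [cmp_base, hZ]
      exact Finset.mem_insert_self _ _) 0 (Nat.zero_le _)
    rw [cmp_jetval, cmp_base, if_pos rfl, map_one] at h1
    rw [← h1]
    refine Finset.sum_congr rfl fun m _ => ?_
    rw [← cmp_fv_eq]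
    rfl
  have hz : ∀ q ∈ S, ∑ m : Box L, l m * fv q ⟨L, fun i => (m i : ℕ)⟩ = 0 := by
    rintro ⟨L', k, z⟩ hqS
    by_cases hLL : L' = L
    · subst hLL
      obtain ⟨h1, h2⟩ := hq _ hqS rfl
      have h3 := hl z (by
        rw [hZ]
        refine Finset.mem_insert.2 (Or.inr ?_)
        rw [hSL]
        refine Finset.mem_image.2 ⟨_, hqS, ?_⟩
        funext v
        show (if h : L' = L' then z (Fin.cast h.symm v) 0 else 0) = z v 0
        rw [dif_pos rfl]
        rfl) k (h1.trans hRL)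
      have h2' : (fun v => z v 0) ≠ pt L' κ := h2
      rw [if_neg h2'] at h3
      have h4 : jet (0 : MvPolynomial (Fin L') ℂ) k z = 0 := by
        unfold jet
        rw [map_zero, Polynomial.coeff_zero]
      rw [h4] at h3
      rw [← h3]
      refine Finset.sum_congr rfl fun m _ => ?_
      rw [cmp_fv_eq]
    · refine Finset.sum_eq_zero fun m _ => ?_
      rw [cmp_fv_ne _ _ hLL, mul_zero]
  have h3 : ∑ m : Box L, l m * (y • fv (kq L κ) + ∑ q ∈ S, c q • fv q)
      ⟨L, fun i => (m i : ℕ)⟩ = 0 := by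
    refine Finset.sum_eq_zero fun m _ => ?_
    rw [h0 _ rfl, mul_zero]
  have h4 : ∑ m : Box L, l m * (y • fv (kq L κ) + ∑ q ∈ S, c q • fv q)
      ⟨L, fun i => (m i : ℕ)⟩ = y * ∑ m : Box L, l m * fv (kq L κ) ⟨L, fun i => (m i : ℕ)⟩ +
        ∑ q ∈ S, c q * ∑ m : Box L, l m * fv q ⟨L, fun i => (m i : ℕ)⟩ := by
    have e1 : ∀ m : Box L, l m * (y • fv (kq L κ) + ∑ q ∈ S, c q • fv q)
        ⟨L, fun i => (m i : ℕ)⟩ = y * (l m * fv (kq L κ) ⟨L, fun i => (m i : ℕ)⟩) +
          ∑ q ∈ S, c q * (l m * fv q ⟨L, fun i => (m i : ℕ)⟩) := by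
      intro m
      rw [Finsupp.add_apply, Finsupp.finsetSum_apply, Finsupp.smul_apply, smul_eq_mul, mul_add,
        Finset.mul_sum]
      congr 1
      · ring
      · refine Finset.sum_congr rfl fun q _ => ?_
        rw [Finsupp.smul_apply, smul_eq_mul]
        ring
    rw [Finset.sum_congr rfl fun m _ => e1 m, Finset.sum_add_distrib, Finset.mul_sum,
      Finset.sum_comm]
    congr 1
    refine Finset.sum_congr rfl fun q _ => ?_
    rw [Finset.mul_sum]
  rw [h4, hk, mul_one, Finset.sum_eq_zero, add_zero] at h3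
  · exact h3
  · intro q hqS
    rw [hz q hqS, mul_zero]

private theorem cmp_closure_countable (S : Set ℂ) (hS : S.Countable) :
    ((Subfield.closure S : Subfield ℂ) : Set ℂ).Countable := by
  have h1 := Subfield.cardinalMk_closure_le_max S
  have h2 : Cardinal.mk ↥S ≤ Cardinal.aleph0 := Cardinal.le_aleph0_iff_set_countable.mpr hS
  exact Cardinal.le_aleph0_iff_set_countable.mp (h1.trans (max_le h2 le_rfl))

private theorem cmp_span_pt (L : ℕ) (y : ℂ) :
    Submodule.span ℂ (Set.range fun p : Fin L × Fin (0 + 1) => dd ((kq L y).2.2 p.1 p.2)) ≤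
      Submodule.span ℂ {dd y} := by
  rw [Submodule.span_le]
  rintro _ ⟨⟨v, i⟩, rfl⟩
  show dd (if (i : ℕ) = 0 then pt L y v else 0) ∈ Submodule.span ℂ {dd y}
  unfold pt
  split_ifs
  · exact Submodule.mem_span_singleton_self _
  · rw [dd_zero]
    exact Submodule.zero_mem _
  · rw [dd_zero]
    exact Submodule.zero_mem _

private theorem cmp_pt {A Φ : Orc} {K0 : Subfield ℂ} {a : Ix → ℂ} (h : Tw A Φ K0 a) (L : ℕ)
    (hL : L % 3 = 2) (y : ℂ) :
    ∃ r : ℂ, dd (eval (pt L y) (Φ L)) = r • dd y + Dm a (fv (kq L y)) := by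
  have h1 := cmp_span_pt L y (cmp_val h (kq L y) hL)
  obtain ⟨r, hr⟩ := Submodule.mem_span_singleton.1 h1
  refine ⟨r, ?_⟩
  rw [← cmp_jetval]
  exact (sub_eq_iff_eq_add.1 hr.symm)

theorem cmp_exists {A Φ : Orc} {K0 : Subfield ℂ} {a : Ix → ℂ} (h : Tw A Φ K0 a) (C : Finset ℂ)
    (n T : ℕ) (hg : ∀ β : Ix →₀ ℂ, (∀ i ∈ β.support, i.1 = 6 * n + 2 ∨ i.1 = 6 * n + 5) →
      (β.sum fun i b => b • dd (a i)) ∈ dK (Fld K0 a C n T) → β = 0) :
    ∃ ξ ω κ : ℂ, Cmp Φ (Fld K0 a C n T) a n (2 ^ (6 * n + 2)) T ξ ω κ ∧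
      eval (pt (6 * n + 2) κ) (Φ (6 * n + 2)) = 0 ∧
      eval (pt (6 * n + 5) κ) (Φ (6 * n + 5)) = ω ∧
      ∀ y, eval (pt (6 * n + 2) y) (Φ (6 * n + 2)) = 0 →
        eval (pt (6 * n + 5) y) (Φ (6 * n + 5)) ≠ ξ := by
  classical
  set F := Fld K0 a C n T with hF
  set G : Subfield ℂ := Subfield.closure ((F : Set ℂ) ∪ Set.range a) with hG
  have hFc : (F : Set ℂ).Countable := by
    rw [hF, Fld]
    refine cmp_closure_countable _ (h.ctb.union ((Finset.countable_toSet C).union ?_))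
    exact (Set.to_countable _).image a
  have hGc : (G : Set ℂ).Countable :=
    cmp_closure_countable _ (hFc.union (Set.countable_range a))
  have hFG : F ≤ G := fun x hx => Subfield.subset_closure (Or.inl hx)
  have haG : ∀ i, a i ∈ G := fun i => Subfield.subset_closure (Or.inr ⟨i, rfl⟩)
  have hpG : ∀ β : Ix →₀ ℂ, Dm a β ∈ dK G := cmp_Dm_mem haG
  obtain ⟨ξ', hξ'⟩ := exists_indep G hGc (Fin 1)
  have hξ1 : ∀ x : ℂ, x • dd (ξ' 0) ∈ dK G → x = 0 := by
    intro x hx
    refine dli hξ' (fun _ => x) ?_ 0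
    rw [Fin.sum_univ_one]
    exact hx
  set ξ := ξ' 0 with hξ
  have hind : ∀ (x : ℂ) (β : Ix →₀ ℂ), (∀ i ∈ β.support, i.1 = 6 * n + 2 ∨ i.1 = 6 * n + 5) →
      x • dd ξ + Dm a β ∈ dK F → x = 0 ∧ β = 0 := by
    intro x β hL hm
    have hx : x = 0 := by
      apply hξ1
      have h1 : x • dd ξ + Dm a β ∈ dK G := dK_mono hFG hm
      exact (Submodule.add_mem_iff_left _ (hpG β)).1 h1
    refine ⟨hx, ?_⟩
    rw [hx, zero_smul, zero_add] at hm
    apply hg β hL
    rw [Dm, Finsupp.linearCombination_apply] at hm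
    exact hm
  have hlevel : ∀ (L : ℕ) (y : ℂ), (L = 6 * n + 2 ∨ L = 6 * n + 5) →
      ∀ i ∈ (fv (kq L y)).support, i.1 = 6 * n + 2 ∨ i.1 = 6 * n + 5 := by
    intro L y hL i hi
    have h1 : i.1 = L := fv_level hi
    rw [h1]
    exact hL
  -- values of the functionals
  have hcoef : ∀ (L : ℕ) (y : ℂ) (m : Box L), fv (kq L y) ⟨L, fun i => (m i : ℕ)⟩ =
      ∏ i, pt L y i ^ (m i : ℕ) := by
    intro L y m
    have h1 : fv (kq L y) ⟨L, fun i => (m i : ℕ)⟩ = jet (bm L m) 0 (cmpKz L y) :=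
      cmp_fv_eq L 0 _ m
    rw [h1, cmp_jetval, bm, map_prod]
    refine Finset.prod_congr rfl fun i _ => ?_
    rw [map_pow, eval_X]
  -- single queries
  have hone : ∀ (L : ℕ) (y : ℂ), (L = 6 * n + 2 ∨ L = 6 * n + 5) → Dm a (fv (kq L y)) ≠ 0 := by
    intro L y hL h0
    have h1 := (hind 0 (fv (kq L y)) (hlevel L y hL) (by
        rw [zero_smul, zero_add, h0]
        exact Submodule.zero_mem _)).2
    have h2 := hcoef L y fun _ => ⟨0, by positivity⟩
    rw [h1] at h2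
    simp at h2
  have hm2 : (6 * n + 2) % 3 = 2 := by omega
  have hm5 : (6 * n + 5) % 3 = 2 := by omega
  -- the polynomial
  set V : Polynomial ℂ := MvPolynomial.aeval (fun i : Fin (6 * n + 2) =>
    if (i : ℕ) = 0 then (Polynomial.X : Polynomial ℂ) else 0) (Φ (6 * n + 2)) with hV
  have hVe : ∀ y, V.eval y = eval (pt (6 * n + 2) y) (Φ (6 * n + 2)) := by
    intro y
    have h1 : (Polynomial.evalRingHom y).comp (MvPolynomial.aeval (fun i : Fin (6 * n + 2) =>
        if (i : ℕ) = 0 then (Polynomial.X : Polynomial ℂ) else 0) :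
          MvPolynomial (Fin (6 * n + 2)) ℂ →ₐ[ℂ] Polynomial ℂ).toRingHom =
        (eval (pt (6 * n + 2) y) : MvPolynomial (Fin (6 * n + 2)) ℂ →+* ℂ) := by
      apply MvPolynomial.ringHom_ext
      · intro r
        simp
      · intro i
        show Polynomial.eval y (MvPolynomial.aeval (fun i : Fin (6 * n + 2) =>
          if (i : ℕ) = 0 then (Polynomial.X : Polynomial ℂ) else 0) (MvPolynomial.X i)) =
            eval (pt (6 * n + 2) y) (MvPolynomial.X i)
        rw [MvPolynomial.aeval_X, MvPolynomial.eval_X]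
        unfold pt
        split_ifs
        · exact Polynomial.eval_X
        · exact Polynomial.eval_zero
    exact congrFun (congrArg (fun f : MvPolynomial (Fin (6 * n + 2)) ℂ →+* ℂ => (f : _ → ℂ)) h1)
      (Φ (6 * n + 2))
  have hdd1 : dd 1 = 0 := dd_one
  have hroot : ∃ κ, V.eval κ = 0 := by
    have hdeg : V.degree ≠ 0 := by
      intro hd
      have hc := Polynomial.eq_C_of_degree_eq_zero hd
      have h01 : V.eval 0 = V.eval 1 := by
        rw [hc, Polynomial.eval_C, Polynomial.eval_C]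
      rw [hVe, hVe] at h01
      obtain ⟨r0, hr0⟩ := cmp_pt h (6 * n + 2) hm2 0
      obtain ⟨r1, hr1⟩ := cmp_pt h (6 * n + 2) hm2 1
      rw [dd_zero, smul_zero, zero_add] at hr0
      rw [hdd1, smul_zero, zero_add] at hr1
      have h2 : Dm a (fv (kq (6 * n + 2) 0)) = Dm a (fv (kq (6 * n + 2) 1)) := by
        rw [← hr0, ← hr1, h01]
      have h3 := (hind 0 (fv (kq (6 * n + 2) 0) - fv (kq (6 * n + 2) 1)) (by
        intro i hi
        rcases Finset.mem_union.1 (Finsupp.support_sub hi) with hi | hi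
        · exact hlevel _ _ (Or.inl rfl) i hi
        · exact hlevel _ _ (Or.inl rfl) i hi) (by
          rw [zero_smul, zero_add, map_sub, h2, sub_self]
          exact Submodule.zero_mem _)).2
      have h4 : fv (kq (6 * n + 2) 0) = fv (kq (6 * n + 2) 1) := sub_eq_zero.1 h3
      have h5 := hcoef (6 * n + 2) 0 fun i => if (i : ℕ) = 0 then ⟨1, by
        exact Nat.one_lt_pow (by omega) (by norm_num)⟩ else ⟨0, by positivity⟩
      rw [h4, hcoef] at h5
      have h6 : ∀ y : ℂ, (∏ i : Fin (6 * n + 2), pt (6 * n + 2) y i ^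
          ((if (i : ℕ) = 0 then (⟨1, by
            exact Nat.one_lt_pow (by omega) (by norm_num)⟩ : Fin (4 ^ (6 * n + 2 + 1)))
            else ⟨0, by positivity⟩ : Fin (4 ^ (6 * n + 2 + 1))) : ℕ)) = y := by
        intro y
        rw [Finset.prod_eq_single (⟨0, by omega⟩ : Fin (6 * n + 2))]
        · simp [pt]
        · intro i _ hi
          have hi' : (i : ℕ) ≠ 0 := fun he => hi (Fin.ext he)
          rw [if_neg hi', pow_zero]
        · intro hcon
          exact absurd (Finset.mem_univ _) hcon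
      rw [h6, h6] at h5
      exact one_ne_zero h5
    exact IsAlgClosed.exists_root V hdeg
  obtain ⟨κ, hκ⟩ := hroot
  have hroots : ∀ y, eval (pt (6 * n + 2) y) (Φ (6 * n + 2)) = 0 →
      ∃ r : ℂ, r ≠ 0 ∧ dd y = r • Dm a (fv (kq (6 * n + 2) y)) := by
    intro y hy
    obtain ⟨r, hr⟩ := cmp_pt h (6 * n + 2) hm2 y
    rw [hy, dd_zero] at hr
    have hp := hone (6 * n + 2) y (Or.inl rfl)
    have hr0 : r ≠ 0 := by
      intro h0
      rw [h0, zero_smul, zero_add] at hr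
      exact hp hr.symm
    refine ⟨-r⁻¹, neg_ne_zero.2 (inv_ne_zero hr0), ?_⟩
    have h1 : Dm a (fv (kq (6 * n + 2) y)) = -(r • dd y) := by
      rw [eq_neg_iff_add_eq_zero, add_comm]
      exact hr.symm
    rw [h1, neg_smul, smul_neg, neg_neg, smul_smul, inv_mul_cancel₀ hr0, one_smul]
  have hκ0 : eval (pt (6 * n + 2) κ) (Φ (6 * n + 2)) = 0 := by rw [← hVe]; exact hκ
  refine ⟨ξ, eval (pt (6 * n + 5) κ) (Φ (6 * n + 5)), κ, ?_, hκ0, rfl, ?_⟩
  · exact
      { low := fun L hL h2 h5 => cmp_low h C n T L hL h2 h5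
        lin := fun q hq => cmp_lin h q (by rcases hq with hq | hq <;> omega)
        val := fun q hq => cmp_val h q (by rcases hq with hq | hq <;> omega)
        ind := hind
        sep := fun L hL S c y hS hq h0 => cmp_sep n κ L hL S c y hS hq h0
        kap := hroots κ hκ0
        omg := by
          obtain ⟨r, hr⟩ := cmp_pt h (6 * n + 5) hm5 κ
          obtain ⟨s, _, hs⟩ := hroots κ hκ0
          refine ⟨r * s, ?_⟩
          rw [hr, hs, smul_smul] }
  · intro y hy he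
    obtain ⟨r, _, hr⟩ := hroots y hy
    have hyG : dd y ∈ dK G := by
      rw [hr]
      exact Submodule.smul_mem _ _ (hpG _)
    obtain ⟨s, hs⟩ := cmp_pt h (6 * n + 5) hm5 y
    have h1 : dd ξ ∈ dK G := by
      rw [← he, hs]
      exact Submodule.add_mem _ (Submodule.smul_mem _ _ hyG) (hpG _)
    have h2 := hξ1 1 (by rw [one_smul]; exact h1)
    exact one_ne_zero h2

end VRJ
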