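import Pool.Agent.VRJ.Dcal

/-!
# VRJ-TDk: differentials and field generation

The span of the differentials of a generated field, differentials of algebraic elements, a criterion for
transcendence.
-/

namespace VRJ

theorem dd_mem_of_closure {K : Subfield ℂ} {S : Set ℂ} {W : Submodule ℂ Om} (hK : dK K ≤ W)
    (hS : ∀ x ∈ S, dd x ∈ W) {x : ℂ} (hx : x ∈ Subfield.closure ((K : Set ℂ) ∪ S)) : dd x ∈ W := by
  induction hx using Subfield.closure_induction with
  | mem x hx =>
    rcases hx with h | h
    · exact hK (dd_mem h)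
    · exact hS x h
  | one =>
    rw [dd_one]
    exact W.zero_mem
  | add x y _ _ h1 h2 =>
    rw [dd_add]
    exact W.add_mem h1 h2
  | neg x _ h1 =>
    have h2 : dd (-x) = -dd x := map_neg _ x
    rw [h2]
    exact W.neg_mem h1
  | inv x _ h1 =>
    have h2 : dd x⁻¹ = -x⁻¹ ^ 2 • dd x := Derivation.leibniz_inv _ x
    rw [h2]
    exact W.smul_mem _ h1
  | mul x y _ _ h1 h2 =>
    rw [dd_mul]
    exact W.add_mem (W.smul_mem _ h2) (W.smul_mem _ h1)


theorem dK_closure (K : Subfield ℂ) (S : Set ℂ) :
    dK (Subfield.closure ((K : Set ℂ) ∪ S)) = dK K ⊔ Submodule.span ℂ (dd '' S) := by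
  apply le_antisymm
  · unfold dK
    rw [Submodule.span_le]
    rintro _ ⟨x, hx, rfl⟩
    exact dd_mem_of_closure (W := dK K ⊔ Submodule.span ℂ (dd '' S)) le_sup_left
      (fun y hy => Submodule.mem_sup_right (Submodule.subset_span ⟨y, hy, rfl⟩)) hx
  · apply sup_le
    · exact dK_mono fun x hx => Subfield.subset_closure (Or.inl hx)
    · apply Submodule.span_mono
      rintro _ ⟨x, hx, rfl⟩
      exact ⟨x, Subfield.subset_closure (Or.inr hx), rfl⟩


private theorem tdk_aeval {K : Subfield ℂ} (x : ℂ) (f : Polynomial K) :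
    dd (Polynomial.aeval x f) - Polynomial.aeval x (Polynomial.derivative f) • dd x ∈ dK K := by
  induction f using Polynomial.induction_on' with
  | add f g hf hg =>
    rw [map_add, map_add, map_add, dd_add, add_smul, add_sub_add_comm]
    exact Submodule.add_mem _ hf hg
  | monomial n c =>
    have h1 : dd (x ^ n) = ((n : ℂ) * x ^ (n - 1)) • dd x := by
      have h : dd (x ^ n) = n • x ^ (n - 1) • dd x := Derivation.leibniz_pow _ x n
      rw [h, mul_smul, Nat.cast_smul_eq_nsmul]
    have h2 : dd (algebraMap K ℂ c) ∈ dK K := dd_mem c.2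
    rw [Polynomial.aeval_monomial, Polynomial.derivative_monomial, Polynomial.aeval_monomial,
      dd_mul, h1, map_mul, map_natCast, smul_smul, mul_assoc, add_sub_cancel_left]
    exact Submodule.smul_mem _ _ h2

theorem dd_alg {K : Subfield ℂ} {x : ℂ} (h : IsAlgebraic K x) : dd x ∈ dK K := by
  have hint : IsIntegral K x := h.isIntegral
  have hsep : (minpoly K x).Separable := (minpoly.irreducible hint).separable
  have h1 := tdk_aeval x (minpoly K x)
  have h2 := hsep.aeval_derivative_ne_zero (minpoly.aeval K x)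
  rw [minpoly.aeval, dd_zero, zero_sub, Submodule.neg_mem_iff] at h1
  exact (Submodule.smul_mem_iff _ h2).1 h1


theorem trans_of {K : Subfield ℂ} {x : ℂ} (h : dd x ∉ dK K) : Transcendental K x := by
  exact fun ha => h (dd_alg ha)


theorem fix_le_map {F E : Subfield ℂ} (h : F ≤ E) {θ : ℂ ≃+* ℂ} (hθ : ∀ x ∈ F, θ x = x) :
    F ≤ E.map (θ : ℂ →+* ℂ) := by
  intro x hx
  exact Subfield.mem_map.2 ⟨x, h hx, hθ x hx⟩


end VRJ
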