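import Pool.Agent.VRJ.TRun
import Pool.Agent.VRJ.TCmp
import Pool.Agent.VRJ.AnsZ

/-!
# VRJ-TNotP: the problem is not in P

## Plan
As in `Pool/Agent/VRB/TNotP.lean` (copy and adapt). `start`: `dd ξ ∉ dK F` (`ind` with `β = 0`), `dd ω ∉ dK F` (`omg`, `ind`:
otherwise `r • fv k1 + fv k2 = 0`, on the level `6 n + 5` `sep` with `S = ∅`, `y = 1` is a contradiction), `0 < R`.
-/

namespace VRJ

open MvPolynomial

theorem cin (p : Prog ℂ) : ∃ C : Finset ℂ, ∀ F : Subfield ℂ, (C : Set ℂ) ⊆ F → p.Cin F := by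
  classical
  have triv : ∀ q : Prog ℂ, (∀ F : Subfield ℂ, q.Cin F) →
      ∃ C : Finset ℂ, ∀ F : Subfield ℂ, (C : Set ℂ) ⊆ F → q.Cin F :=
    fun q hq => ⟨∅, fun F _ => hq F⟩
  have two : ∀ (q r : Prog ℂ), (∃ C : Finset ℂ, ∀ F : Subfield ℂ, (C : Set ℂ) ⊆ F → q.Cin F) →
      (∃ C : Finset ℂ, ∀ F : Subfield ℂ, (C : Set ℂ) ⊆ F → r.Cin F) →
      ∃ C : Finset ℂ, ∀ F : Subfield ℂ, (C : Set ℂ) ⊆ F → q.Cin F ∧ r.Cin F := by
    rintro q r ⟨C, hC⟩ ⟨D, hD⟩
    refine ⟨C ∪ D, fun F hF => ⟨hC F ?_, hD F ?_⟩⟩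
    · intro x hx
      exact hF (by rw [Finset.coe_union]; exact Or.inl hx)
    · intro x hx
      exact hF (by rw [Finset.coe_union]; exact Or.inr hx)
  induction p with
  | push i c =>
    refine ⟨{c}, fun F hF => ?_⟩
    exact hF (by simp)
  | pop i => exact triv _ fun F => trivial
  | copy i j => exact triv _ fun F => trivial
  | add i => exact triv _ fun F => trivial
  | sub i => exact triv _ fun F => trivial
  | mul i => exact triv _ fun F => trivial
  | div i => exact triv _ fun F => trivial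
  | ask i j => exact triv _ fun F => trivial
  | seq q r hq hr => exact two q r hq hr
  | ifz i q r hq hr => exact two q r hq hr
  | ifn i q r hq hr => exact two q r hq hr
  | loop i q hq => exact hq

private theorem tnp_fv_level (q : Qy) (i : Ix) (h : i.1 ≠ q.1) : fv q i = 0 := by
  unfold fv
  rw [Finsupp.finset_sum_apply]
  refine Finset.sum_eq_zero fun m _ => ?_
  rw [Finsupp.single_apply, if_neg]
  intro e
  exact h (congrArg Sigma.fst e).symm

theorem start {Φ : Orc} {F : Subfield ℂ} {a : Ix → ℂ} {n R T : ℕ} {ξ ω κ : ℂ}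
    (hC : Cmp Φ F a n R T ξ ω κ) (hR : 0 < R) :
    ∃ (E : Subfield ℂ) (θ : ℂ ≃+* ℂ), Inv Φ F a n R ξ ω κ ∅ E θ ∧ ξ ∈ E ∧ θ ξ = ω := by
  classical
  have h1 : dd ξ ∉ dK F := by
    intro h
    have h2 := hC.ind 1 0 (fun i hi => absurd hi (by simp))
      (by rw [map_zero, add_zero, one_smul]; exact h)
    exact one_ne_zero h2.1
  have h2 : dd ω ∉ dK F := by
    intro h
    obtain ⟨r, hr⟩ := hC.omg
    set β : Ix →₀ ℂ := r • fv (kq (6 * n + 2) κ) + fv (kq (6 * n + 5) κ) with hβ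
    have h3 := hC.ind 0 β (by
      intro i hi
      by_contra hcon
      push Not at hcon
      rw [Finsupp.mem_support_iff] at hi
      apply hi
      rw [hβ, Finsupp.add_apply, Finsupp.smul_apply,
        tnp_fv_level (kq (6 * n + 2) κ) i hcon.1, tnp_fv_level (kq (6 * n + 5) κ) i hcon.2]
      simp) (by
      rw [zero_smul, zero_add, hβ, map_add, map_smul, ← hr]
      exact h)
    have h4 := hC.sep (6 * n + 5) (Or.inr rfl) ∅ (fun _ => 0) 1 (by simpa using hR)
      (fun q hq => absurd hq (Finset.notMem_empty q)) (by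
        intro i hi
        have h5 := congrArg (fun b : Ix →₀ ℂ => b i) h3.2
        simp only [hβ, Finsupp.add_apply, Finsupp.smul_apply, Finsupp.coe_zero,
          Pi.zero_apply] at h5
        rw [tnp_fv_level (kq (6 * n + 2) κ) i (by
          rw [hi]
          show 6 * n + 5 ≠ 6 * n + 2
          omega), smul_zero, zero_add] at h5
        rw [Finset.sum_empty, add_zero, one_smul]
        exact h5)
    exact one_ne_zero h4
  have hmap : F.map ((RingEquiv.refl ℂ : ℂ ≃+* ℂ) : ℂ →+* ℂ) = F := by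
    ext x
    simp
  have ht : Transcendental F ξ := trans_of h1
  have ht' : Transcendental (F.map ((RingEquiv.refl ℂ : ℂ ≃+* ℂ) : ℂ →+* ℂ)) ω := by
    apply trans_of
    rw [hmap]
    exact h2
  obtain ⟨θ, hθ, hξ⟩ := aut_ext (RingEquiv.refl ℂ) ht ht'
  have hθF : ∀ x ∈ F, θ x = x := fun x hx => by rw [hθ x hx]; rfl
  refine ⟨Subfield.closure ((F : Set ℂ) ∪ {ξ}), θ, ?_,
    Subfield.subset_closure (Or.inr rfl), hξ⟩
  have himg : (θ : ℂ →+* ℂ) '' ((F : Set ℂ) ∪ {ξ}) = (F : Set ℂ) ∪ {ω} := by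
    ext y
    constructor
    · rintro ⟨x, hx | hx, rfl⟩
      · left
        have : (θ : ℂ →+* ℂ) x = x := hθF x hx
        rw [this]
        exact hx
      · right
        rw [Set.mem_singleton_iff.1 hx]
        exact hξ
    · rintro (hy | hy)
      · exact ⟨y, Or.inl hy, hθF y hy⟩
      · rw [Set.mem_singleton_iff.1 hy]
        exact ⟨ξ, Or.inr rfl, hξ⟩
  refine ⟨fun q hq => absurd hq (Finset.notMem_empty q),
    fun q hq => absurd hq (Finset.notMem_empty q),
    fun x hx => Subfield.subset_closure (Or.inl hx), hθF,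
    fun q hq => absurd hq (Finset.notMem_empty q), fun q hq => absurd hq (Finset.notMem_empty q),
    fun q hq => absurd hq (Finset.notMem_empty q), ?_, ?_,
    fun q hq => absurd hq (Finset.notMem_empty q)⟩
  · rw [dK_closure, Set.image_singleton]
    exact le_sup_left
  · rw [RingHom.map_field_closure, himg, dK_closure, Set.image_singleton]
    exact le_sup_left

private theorem ans_pt (Φ : Orc) (m L : ℕ) (h : L = m + 1) (y : ℂ) :
    ans Φ 0 (y :: List.replicate m 0) = eval (pt L y) (Φ L) := by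
  refine ans_zero Φ _ (by simp [h]) _ fun i => ?_
  unfold pt
  by_cases hi : (i : ℕ) = 0
  · rw [if_pos hi]
    simp [hi]
  · rw [if_neg hi]
    obtain ⟨j, hj⟩ := Nat.exists_eq_succ_of_ne_zero hi
    have hj' : j < m := by
      have := i.2
      omega
    rw [hj, List.getD_cons_succ, List.getD_eq_getElem _ _ (by simpa using hj')]
    simp

private theorem smap_inp (θ : ℂ ≃+* ℂ) (ξ ω : ℂ) (h : θ ξ = ω) (m : ℕ) :
    smap θ (inp (ξ :: List.replicate m 0) []) = inp (ω :: List.replicate m 0) [] := by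
  funext i
  unfold smap inp
  by_cases h0 : i = 0
  · simp [h0, h]
  · simp [h0]

private theorem acc_smap (θ : ℂ ≃+* ℂ) (σ : St) : Acc (smap θ σ) ↔ Acc σ := by
  unfold Acc smap
  rw [List.head?_map]
  cases (σ 0).head? with
  | none => simp
  | some y => simp

private theorem growth (k : ℕ) : ∃ n0 : ℕ, 1 ≤ n0 ∧ ∀ n, n0 ≤ n →
    (n + 2) ^ k + 2 ≤ 2 ^ (6 * n + 2) := by
  have h1 := tendsto_pow_const_div_const_pow_of_one_lt k (show (1 : ℝ) < 2 by norm_num)
  have h2 : ∀ᶠ n : ℕ in Filter.atTop, ((n : ℝ) ^ k / 2 ^ n) < 1 :=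
    h1.eventually (gt_mem_nhds one_pos)
  obtain ⟨N, hN⟩ := Filter.eventually_atTop.1 h2
  refine ⟨N + 1, by omega, fun n hn => ?_⟩
  have h3 := hN (n + 2) (by omega)
  rw [div_lt_one (by positivity)] at h3
  have h4 : (n + 2) ^ k < 2 ^ (n + 2) := by exact_mod_cast h3
  have h5 : 2 ^ (n + 3) ≤ 2 ^ (6 * n + 2) := Nat.pow_le_pow_right (by norm_num) (by omega)
  have h6 : 2 ^ (n + 3) = 2 ^ (n + 2) * 2 := by rw [← pow_succ]
  have h7 : 2 ^ 1 ≤ 2 ^ (n + 2) := Nat.pow_le_pow_right (by norm_num) (by omega)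
  omega

theorem not_inP {A Φ : Orc} {K0 : Subfield ℂ} {a : Ix → ℂ} (h : Tw A Φ K0 a) :
    ¬ InP Φ (Bset Φ) := by
  classical
  rintro ⟨p, k, hp⟩
  obtain ⟨C, hC⟩ := cin p
  obtain ⟨n0, hn0, hgrow⟩ := growth k
  obtain ⟨n, hn, hgood⟩ := good h.ind C (fun n => (n + 2) ^ k) n0
  obtain ⟨ξ, ω, κ, hcmp, e1, e2, e3⟩ := cmp_exists h C n ((n + 2) ^ k) hgood
  have hn1 : 1 ≤ n := hn0.trans hn
  have hg := hgrow n hn
  have hR : 0 < 2 ^ (6 * n + 2) := by omega
  obtain ⟨E, θ, hI, hξ, hθ⟩ := start hcmp hR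
  set x : List ℂ := ξ :: List.replicate (n - 1) 0 with hx
  set x' : List ℂ := ω :: List.replicate (n - 1) 0 with hx'
  have hlen : x.length = n := by
    rw [hx, List.length_cons, List.length_replicate]
    omega
  have hlen' : x'.length = n := by
    rw [hx', List.length_cons, List.length_replicate]
    omega
  obtain ⟨σ, t, hrun, ht, hacc⟩ := hp x
  rw [hlen] at ht
  have hCin : p.Cin (Fld K0 a C n ((n + 2) ^ k)) := by
    apply hC
    intro y hy
    exact Subfield.subset_closure (Or.inr (Or.inl hy))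
  have hσ : ∀ i, ∀ y ∈ inp x [] i, y ∈ E := by
    intro i y hy
    unfold inp at hy
    split_ifs at hy with h1 h2
    · rw [hx, List.mem_cons] at hy
      rcases hy with rfl | hy
      · exact hξ
      · rw [List.eq_of_mem_replicate hy]
        exact E.zero_mem
    · exact absurd hy List.not_mem_nil
    · exact absurd hy List.not_mem_nil
  obtain ⟨Q', E', θ', -, -, -, hrun'⟩ := cmp_run hcmp hrun hCin hI hσ
    (by rw [Finset.card_empty]; omega) ht
  rw [hx, smap_inp θ ξ ω hθ, ← hx'] at hrun'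
  obtain ⟨σ₂, t₂, hrun₂, -, hacc₂⟩ := hp x'
  obtain ⟨hσ₂, -⟩ := run_det hrun₂ hrun'
  have hiff : x ∈ Bset Φ ↔ x' ∈ Bset Φ := by
    rw [← hacc, ← hacc₂, hσ₂, acc_smap]
  have hin : x' ∈ Bset Φ := by
    refine ⟨ω, List.replicate (n - 1) 0, κ, rfl, ?_, ?_⟩
    · rw [hlen', ans_pt Φ _ (6 * n + 2) (by omega)]
      exact e1
    · rw [hlen', ans_pt Φ _ (6 * n + 5) (by omega)]
      exact e2
  obtain ⟨w, l, y, hw, g1, g2⟩ := hiff.2 hin
  rw [hlen, ans_pt Φ _ (6 * n + 2) (by omega)] at g1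
  rw [hlen, ans_pt Φ _ (6 * n + 5) (by omega)] at g2
  rw [hx, List.cons.injEq] at hw
  exact e3 y g1 (by rw [g2, hw.1])

end VRJ
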