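import Pool.Agent.VRJ.TInd
import Pool.Agent.VRJ.TSep

/-!
# VRJ-TTow: the second oracle is a tower

## Plan
As in `Pool/Agent/VRB/TTow.lean` (copy and adapt). `lev2`: `Gen (K L) ∅ (2 ^ L) (Φ L)` with the family
`bm L`, `box_jet` with the constant family `G`.
-/

namespace VRJ

open MvPolynomial

private theorem coefIn_of {σ : Type} {K : Subfield ℂ} {F : MvPolynomial σ ℂ}
    (h : F ∈ (MvPolynomial.map K.subtype : MvPolynomial σ K →+* MvPolynomial σ ℂ).range) :
    CoefIn K F := by
  obtain ⟨G, rfl⟩ := h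
  intro m
  rw [coeff_map]
  exact (coeff m G).2

private theorem X_mem {σ : Type} (K : Subfield ℂ) (v : σ) :
    (X v : MvPolynomial σ ℂ) ∈
      (MvPolynomial.map K.subtype : MvPolynomial σ K →+* MvPolynomial σ ℂ).range :=
  ⟨X v, map_X _ _⟩

private theorem C_mem {σ : Type} {K : Subfield ℂ} {x : ℂ} (h : x ∈ K) :
    (C x : MvPolynomial σ ℂ) ∈
      (MvPolynomial.map K.subtype : MvPolynomial σ K →+* MvPolynomial σ ℂ).range :=
  ⟨C ⟨x, h⟩, map_C _ _⟩

private theorem coefIn_rename {σ τ : Type} {K : Subfield ℂ} {F : MvPolynomial σ ℂ}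
    (h : CoefIn K F) (f : σ → τ) (hf : Function.Injective f) : CoefIn K (rename f F) := by
  intro m
  by_cases hm : ∃ u, Finsupp.mapDomain f u = m
  · obtain ⟨u, rfl⟩ := hm
    rw [coeff_rename_mapDomain f hf]
    exact h u
  · rw [coeff_rename_eq_zero f F m (fun u hu => absurd ⟨u, hu⟩ hm)]
    exact K.zero_mem

private theorem lex_inj (n : ℕ) : Function.Injective (lex n) := by
  intro p q hpq
  have h1 : p.1 = q.1 := by
    funext i
    have h := congrFun hpq ⟨(i : ℕ), by omega⟩
    have hi : (i : ℕ) < n := i.2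
    simp only [lex, hi, dite_true] at h
    exact Fin.ext h
  have h2 : p.2 = q.2 := by
    funext i
    have h := congrFun hpq ⟨n + (i : ℕ), by omega⟩
    have hi : ¬ (n + (i : ℕ) < n) := by omega
    have hi' : n + (i : ℕ) - n < n := by omega
    have hi'' : (⟨n + (i : ℕ) - n, hi'⟩ : Fin n) = i := Fin.ext (by simp)
    simp only [lex, hi, hi', dite_true, dite_false] at h
    rw [hi''] at h
    exact Fin.ext h
  exact Prod.ext h1 h2

theorem tw_tower {A Φ : Orc} {K0 : Subfield ℂ} {a : Ix → ℂ} (h : Tw A Φ K0 a) :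
    ∃ K : ℕ → Subfield ℂ, Tower A Φ K fun _ => ∅ := by
  refine ⟨fun L => Subfield.closure ((K0 : Set ℂ) ∪ a '' {i | i.1 < L}), ?_⟩
  have hmem : ∀ (L : ℕ) (i : Ix), i.1 < L →
      a i ∈ Subfield.closure ((K0 : Set ℂ) ∪ a '' {i | i.1 < L}) := fun L i hi =>
    Subfield.subset_closure (Or.inr ⟨i, hi, rfl⟩)
  have hK0 : ∀ (L : ℕ) (x : ℂ), x ∈ K0 →
      x ∈ Subfield.closure ((K0 : Set ℂ) ∪ a '' {i | i.1 < L}) := fun L x hx =>
    Subfield.subset_closure (Or.inl hx)
  refine
    { mono := ?_
      coef := ?_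
      base := ?_
      lev0 := h.lev0
      lev1 := ?_
      lev4 := h.lev4
      lev2 := ?_ }
  · intro L
    apply Subfield.closure_mono
    apply Set.union_subset_union_right
    apply Set.image_mono
    intro i hi
    exact Nat.lt_succ_of_lt hi
  · intro L
    have hL : (∃ M, L = 3 * M) ∨ (∃ n, L = 6 * n + 1) ∨ (∃ n, L = 6 * n + 4) ∨ L % 3 = 2 := by
      have h0 : L % 6 = 0 ∨ L % 6 = 1 ∨ L % 6 = 2 ∨ L % 6 = 3 ∨ L % 6 = 4 ∨ L % 6 = 5 := by omega
      rcases h0 with h0 | h0 | h0 | h0 | h0 | h0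
      · exact Or.inl ⟨L / 3, by omega⟩
      · exact Or.inr (Or.inl ⟨L / 6, by omega⟩)
      · exact Or.inr (Or.inr (Or.inr (by omega)))
      · exact Or.inl ⟨L / 3, by omega⟩
      · exact Or.inr (Or.inr (Or.inl ⟨L / 6, by omega⟩))
      · exact Or.inr (Or.inr (Or.inr (by omega)))
    rcases hL with ⟨M, rfl⟩ | ⟨n, rfl⟩ | ⟨n, rfl⟩ | hL
    · rw [h.lev0 M]
      apply coefIn_rename
      · intro m
        exact hK0 _ _ (h.base M m)
      · exact Fin.castLE_injective _
    · rw [h.lev1 n]
      apply coefIn_of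
      apply Subring.sum_mem
      intro p _
      apply Subring.mul_mem
      · exact C_mem (hmem _ _ (Nat.lt_succ_self _))
      · unfold mono
        apply Subring.mul_mem
        · apply Subring.prod_mem
          intro i _
          exact Subring.pow_mem _ (X_mem _ _) _
        · apply Subring.prod_mem
          intro i _
          exact Subring.pow_mem _ (X_mem _ _) _
    · rw [h.lev4 n]
      intro m
      rw [coeff_zero]
      exact Subfield.zero_mem _
    · rw [h.lev2 L hL]
      apply coefIn_of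
      apply Subring.sum_mem
      intro p _
      apply Subring.mul_mem
      · exact C_mem (hmem _ _ (Nat.lt_succ_self _))
      · unfold bm
        apply Subring.prod_mem
        intro i _
        exact Subring.pow_mem _ (X_mem _ _) _
  · intro L m
    exact hK0 _ _ (h.base L m)
  · intro n
    refine ⟨fun p => a ⟨6 * n + 1, lex n p⟩, ?_, h.lev1 n⟩
    refine indep_over h.ind {i | i.1 < 6 * n + 1} (fun p : Mon n => (⟨6 * n + 1, lex n p⟩ : Ix))
      ?_ ?_
    · intro p q hpq
      exact lex_inj n (eq_of_heq (Sigma.mk.inj_iff.1 hpq).2)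
    · intro p hp
      exact lt_irrefl _ (show 6 * n + 1 < 6 * n + 1 from hp)
  · intro L hL
    have e := Fintype.equivFin (Box L)
    refine ⟨Fintype.card (Box L),
      fun k => bm L (e.symm k), fun k => a ⟨L, fun i => ((e.symm k) i : ℕ)⟩,
      ?_, ?_, ?_, ?_, ?_⟩
    · intro k
      apply coefIn_of
      unfold bm
      apply Subring.prod_mem
      intro i _
      exact Subring.pow_mem _ (X_mem _ _) _
    · refine indep_over h.ind {i | i.1 < L}
        (fun k => (⟨L, fun i => ((e.symm k) i : ℕ)⟩ : Ix)) ?_ ?_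
      · intro k l hkl
        have h1 : (fun i => ((e.symm k) i : ℕ)) = fun i => ((e.symm l) i : ℕ) :=
          eq_of_heq (Sigma.mk.inj_iff.1 hkl).2
        apply e.symm.injective
        funext i
        exact Fin.ext (congrFun h1 i)
      · intro p hp
        exact lt_irrefl _ (show L < L from hp)
    · rw [h.lev2 L hL]
      exact (Equiv.sum_comp e.symm fun m : Box L =>
        C (a ⟨L, fun i => (m i : ℕ)⟩) * bm L m).symm
    · intro k z j _ hy
      exact absurd hy (Set.notMem_empty _)
    · intro S hS _ G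
      obtain ⟨l, hl⟩ := box_jet S hS (fun _ => G)
      refine ⟨fun k => l (e.symm k), fun z hz j hj => ?_⟩
      rw [← hl z hz j hj, ← Equiv.sum_comp e.symm]

end VRJ
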