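import Pool.Agent.VRJ.TDef
import Pool.Agent.VRJ.Dli
import Pool.Agent.VRJ.TDk

/-!
# VRJ-TInd: independence over intermediate fields

## Plan
`dli_ix`: apply `dli` to the family `a` restricted to the finite support (`AlgebraicIndependent.comp`
with `Subtype.val_injective`).
`indep_over`: `f : ι → Ix` injective with values outside `S`: the family `a ∘ f` is algebraically
independent over the field generated by `K0` and `a '' S`. Either by Mathlib
(`AlgebraicIndependent.adjoin_of_disjoint` or similar for `Algebra.adjoin`, then pass to the fraction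
field, which is algebraic over the subalgebra: `AlgebraicIndependent.extendScalars...`), or by
differentials: `dd_alg`, `dK_closure`, `dli_ix` show that each member is transcendental over the field
generated by the other members and `S`, and then induction over the finite set `ι`.
-/

namespace VRJ

theorem dli_ix {K0 : Subfield ℂ} {a : Ix → ℂ} (h : AlgebraicIndependent K0 a) (c : Ix →₀ ℂ)
    (hc : (c.sum fun i b => b • dd (a i)) ∈ dK K0) : c = 0 := by
  classical
  have h1 : AlgebraicIndependent K0 (fun i : c.support => a i) :=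
    h.comp _ Subtype.val_injective
  have h2 : (∑ i : c.support, c i • dd (a i)) ∈ dK K0 := by
    have h3 : (∑ i : c.support, c i • dd (a i)) = c.sum fun i b => b • dd (a i) := by
      rw [Finsupp.sum]
      exact Finset.sum_coe_sort c.support fun i => c i • dd (a i)
    rw [h3]
    exact hc
  have h4 := dli h1 (fun i => c i) h2
  ext i
  by_contra hi
  exact hi (h4 ⟨i, Finsupp.mem_support_iff.2 hi⟩)

theorem indep_over {K0 : Subfield ℂ} {a : Ix → ℂ} (h : AlgebraicIndependent K0 a) (S : Set Ix)
    {ι : Type} [Fintype ι] (f : ι → Ix) (hf : Function.Injective f) (hS : ∀ i, f i ∉ S) :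
    AlgebraicIndependent (Subfield.closure ((K0 : Set ℂ) ∪ a '' S)) fun i => a (f i) := by
  have h1 : AlgebraicIndependent (Algebra.adjoin K0 (a '' S)) fun i : Set.range f => a i := by
    refine h.adjoin_of_disjoint (Set.disjoint_right.2 ?_)
    rintro _ ⟨i, rfl⟩
    exact hS i
  have h2 : AlgebraicIndependent (Algebra.adjoin K0 (a '' S)) fun i => a (f i) :=
    h1.comp (fun i : ι => (⟨f i, i, rfl⟩ : Set.range f)) fun i j hij =>
      hf (congrArg Subtype.val hij)
  have hle : ∀ x : Algebra.adjoin K0 (a '' S),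
      (x : ℂ) ∈ Subfield.closure ((K0 : Set ℂ) ∪ a '' S) := by
    rintro ⟨x, hx⟩
    refine Algebra.adjoin_induction ?_ ?_ ?_ ?_ hx
    · intro y hy
      exact Subfield.subset_closure (Or.inr hy)
    · intro r
      exact Subfield.subset_closure (Or.inl r.2)
    · intro y z _ _ hy hz
      exact add_mem hy hz
    · intro y z _ _ hy hz
      exact mul_mem hy hz
  let φ : Algebra.adjoin K0 (a '' S) →+* Subfield.closure ((K0 : Set ℂ) ∪ a '' S) :=
    (algebraMap (Algebra.adjoin K0 (a '' S)) ℂ).codRestrict _ hle
  letI : Algebra (Algebra.adjoin K0 (a '' S)) (Subfield.closure ((K0 : Set ℂ) ∪ a '' S)) :=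
    φ.toAlgebra
  haveI : IsScalarTower (Algebra.adjoin K0 (a '' S)) (Subfield.closure ((K0 : Set ℂ) ∪ a '' S)) ℂ :=
    IsScalarTower.of_algebraMap_eq fun x => rfl
  haveI : Algebra.IsAlgebraic (Algebra.adjoin K0 (a '' S))
      (Subfield.closure ((K0 : Set ℂ) ∪ a '' S)) := by
    refine ⟨fun z => ?_⟩
    obtain ⟨y, hy, w, hw, hyw⟩ := Subfield.mem_closure_iff.1 z.2
    have hsub : Subring.closure ((K0 : Set ℂ) ∪ a '' S) ≤
        (Algebra.adjoin K0 (a '' S)).toSubring := by
      rw [Subring.closure_le]
      rintro x (hx | hx)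
      · exact (Algebra.adjoin K0 (a '' S)).algebraMap_mem (⟨x, hx⟩ : K0)
      · exact Algebra.subset_adjoin hx
    have hz : z = φ ⟨y, hsub hy⟩ * (φ ⟨w, hsub hw⟩)⁻¹ := by
      apply Subtype.ext
      rw [← hyw, div_eq_mul_inv]
      rfl
    rw [hz]
    exact (isAlgebraic_algebraMap (A := Subfield.closure ((K0 : Set ℂ) ∪ a '' S))
      (⟨y, hsub hy⟩ : Algebra.adjoin K0 (a '' S))).mul
      (isAlgebraic_algebraMap (A := Subfield.closure ((K0 : Set ℂ) ∪ a '' S))
      (⟨w, hsub hw⟩ : Algebra.adjoin K0 (a '' S))).inv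
  exact h2.extendScalars _

end VRJ
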