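import Pool.Agent.VRJ.TStep
import Pool.Agent.VRJ.Sem

/-!
# VRJ-TRun: comparison of the runs

## Plan
As in `Pool/Agent/VRB/TRun.lean` (copy and adapt). `ask i j`: `k = (σ j).length`, `L = (σ i).length / (k + 1)`,
`z l r = (σ i).getD (l * (k + 1) + r) 0 ∈ E`, time `(σ i).length + k + 1 ≤ T`, `k ≤ R` by `hQ`; `step`.
`θ` commutes with `getD` (default `0`).
-/

namespace VRJ

private theorem trun_smap (θ : ℂ ≃+* ℂ) (σ : St) (i : ℕ) (l : List ℂ) :
    smap θ (upd σ i l) = upd (smap θ σ) i (l.map θ) := by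
  funext j
  unfold smap upd
  split_ifs <;> rfl

private theorem trun_mem {E : Subfield ℂ} {σ : St} (hσ : ∀ i, ∀ x ∈ σ i, x ∈ E) {i : ℕ}
    {l : List ℂ} (hl : ∀ x ∈ l, x ∈ E) : ∀ j, ∀ x ∈ upd σ i l j, x ∈ E := by
  intro j x hx
  unfold upd at hx
  split_ifs at hx
  · exact hl x hx
  · exact hσ j x hx

private theorem trun_bin_mem {E : Subfield ℂ} {op : ℂ → ℂ → ℂ}
    (hop : ∀ x y, x ∈ E → y ∈ E → op x y ∈ E) {l : List ℂ} (hl : ∀ x ∈ l, x ∈ E) :
    ∀ x ∈ bin op l, x ∈ E := by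
  match l with
  | [] => exact hl
  | [_] => exact hl
  | a :: b :: l =>
    intro x hx
    have hx' : x ∈ op a b :: l := hx
    rcases List.mem_cons.1 hx' with rfl | h
    · exact hop _ _ (hl a (by simp)) (hl b (by simp))
    · exact hl x (by simp [h])

private theorem trun_bin_map (θ : ℂ ≃+* ℂ) {op : ℂ → ℂ → ℂ}
    (hop : ∀ x y, θ (op x y) = op (θ x) (θ y)) (l : List ℂ) :
    (bin op l).map θ = bin op (l.map θ) := by
  match l with
  | [] => rfl
  | [_] => rfl
  | a :: b :: l =>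
    have h1 : bin op (a :: b :: l) = op a b :: l := rfl
    have h2 : bin op ((a :: b :: l).map θ) = op (θ a) (θ b) :: l.map θ := rfl
    rw [h1, h2, List.map_cons, hop]

private theorem trun_getD_mem {E : Subfield ℂ} {l : List ℂ} (hl : ∀ x ∈ l, x ∈ E) (m : ℕ) :
    l.getD m 0 ∈ E := by
  by_cases h : m < l.length
  · rw [List.getD_eq_getElem l 0 h]
    exact hl _ (List.getElem_mem h)
  · rw [List.getD_eq_default l 0 (not_lt.1 h)]
    exact E.zero_mem

private theorem trun_getD_map (θ : ℂ ≃+* ℂ) (l : List ℂ) (m : ℕ) :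
    (l.map θ).getD m 0 = θ (l.getD m 0) := by
  by_cases h : m < l.length
  · rw [List.getD_eq_getElem l 0 h, List.getD_eq_getElem (l.map θ) 0 (by simpa using h)]
    simp
  · rw [List.getD_eq_default l 0 (not_lt.1 h),
      List.getD_eq_default (l.map θ) 0 (by simpa using not_lt.1 h), map_zero]

private theorem trun_ans (Φ : Orc) (θ : ℂ ≃+* ℂ) (k : ℕ) (l : List ℂ) :
    ans Φ k (l.map θ) = jet (Φ (l.length / (k + 1))) k
      fun v r => θ (l.getD (v * (k + 1) + r) 0) := by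
  unfold ans
  have h1 : (l.map θ).length = l.length := List.length_map _
  have h2 : (fun (v : ℕ) (r : ℕ) => (l.map θ).getD (v * (k + 1) + r) 0) =
      fun v r => θ (l.getD (v * (k + 1) + r) 0) := by
    funext v r
    exact trun_getD_map θ l _
  have h3 : ∀ (m m' : ℕ) (_ : m = m') (f g : ℕ → ℕ → ℂ), f = g →
      jet (Φ (m / (k + 1))) k (fun v r => f v r) = jet (Φ (m' / (k + 1))) k (fun v r => g v r) := by
    intro m m' hm f g hfg
    subst hm hfg
    rfl
  exact h3 (l.map θ).length l.length h1 (fun v r => (l.map θ).getD (v * (k + 1) + r) 0)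
    (fun v r => θ (l.getD (v * (k + 1) + r) 0)) h2

private theorem trun_head (θ : ℂ ≃+* ℂ) (l : List ℂ) :
    (l.map θ).head? = some 0 ↔ l.head? = some 0 := by
  cases l with
  | nil => simp
  | cons a l => simp

theorem cmp_run {Φ : Orc} {F : Subfield ℂ} {a : Ix → ℂ} {n R T : ℕ} {ξ ω κ : ℂ}
    (hC : Cmp Φ F a n R T ξ ω κ) {p : Prog ℂ} {σ τ : St} {t : ℕ} (h : Run Φ p σ τ t)
    (hp : p.Cin F) {Q : Finset Qy} {E : Subfield ℂ} {θ : ℂ ≃+* ℂ}
    (hI : Inv Φ F a n R ξ ω κ Q E θ) (hσ : ∀ i, ∀ x ∈ σ i, x ∈ E) (hQ : Q.card + t + 2 ≤ R)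
    (ht : t ≤ T) :
    ∃ (Q' : Finset Qy) (E' : Subfield ℂ) (θ' : ℂ ≃+* ℂ), Inv Φ F a n R ξ ω κ Q' E' θ' ∧
      Q'.card ≤ Q.card + t ∧ (∀ i, ∀ x ∈ τ i, x ∈ E') ∧ Run Φ p (smap θ σ) (smap θ' τ) t := by
  induction h generalizing Q E θ with
  | push i c σ =>
    have hc : c ∈ (F : Set ℂ) := hp
    refine ⟨Q, E, θ, hI, Nat.le_add_right _ _, trun_mem hσ ?_, ?_⟩
    · intro x hx
      rcases List.mem_cons.1 hx with rfl | hx
      · exact hI.fld hc
      · exact hσ i x hx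
    · rw [trun_smap, List.map_cons, hI.fix c hc]
      exact Run.push i c (smap θ σ)
  | pop i σ =>
    refine ⟨Q, E, θ, hI, Nat.le_add_right _ _, trun_mem hσ ?_, ?_⟩
    · intro x hx
      exact hσ i x (List.mem_of_mem_tail hx)
    · rw [trun_smap, List.map_tail]
      exact Run.pop i (smap θ σ)
  | copy i j σ =>
    refine ⟨Q, E, θ, hI, Nat.le_add_right _ _, trun_mem hσ ?_, ?_⟩
    · intro x hx
      rcases List.mem_append.1 hx with hx | hx
      · exact hσ i x (List.mem_of_mem_take hx)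
      · exact hσ j x hx
    · rw [trun_smap, List.map_append, List.map_take]
      exact Run.copy i j (smap θ σ)
  | add i σ =>
    refine ⟨Q, E, θ, hI, Nat.le_add_right _ _, trun_mem hσ ?_, ?_⟩
    · exact trun_bin_mem (fun x y hx hy => E.add_mem hx hy) (hσ i)
    · rw [trun_smap, trun_bin_map θ (fun x y => map_add θ x y)]
      exact Run.add i (smap θ σ)
  | sub i σ =>
    refine ⟨Q, E, θ, hI, Nat.le_add_right _ _, trun_mem hσ ?_, ?_⟩
    · exact trun_bin_mem (fun x y hx hy => E.sub_mem hx hy) (hσ i)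
    · rw [trun_smap, trun_bin_map θ (fun x y => map_sub θ x y)]
      exact Run.sub i (smap θ σ)
  | mul i σ =>
    refine ⟨Q, E, θ, hI, Nat.le_add_right _ _, trun_mem hσ ?_, ?_⟩
    · exact trun_bin_mem (fun x y hx hy => E.mul_mem hx hy) (hσ i)
    · rw [trun_smap, trun_bin_map θ (fun x y => map_mul θ x y)]
      exact Run.mul i (smap θ σ)
  | div i σ =>
    refine ⟨Q, E, θ, hI, Nat.le_add_right _ _, trun_mem hσ ?_, ?_⟩
    · exact trun_bin_mem (fun x y hx hy => E.div_mem hx hy) (hσ i)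
    · rw [trun_smap, trun_bin_map θ (fun x y => map_div₀ θ x y)]
      exact Run.div i (smap θ σ)
  | ask i j σ =>
    have hdiv : (σ i).length / ((σ j).length + 1) ≤ (σ i).length := Nat.div_le_self _ _
    obtain ⟨Q', E', θ', hI', hcard, hE, hθ, hv, hv'⟩ :=
      step hC hI (L := (σ i).length / ((σ j).length + 1)) (k := (σ j).length) (by omega)
        (by omega) (fun v r => (σ i).getD (v * ((σ j).length + 1) + r) 0)
        (fun v r => trun_getD_mem (hσ i) _) (by omega)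
    refine ⟨Q', E', θ', hI', by omega, trun_mem (fun j x hx => hE (hσ j x hx)) ?_, ?_⟩
    · intro x hx
      rw [List.mem_singleton] at hx
      rw [hx]
      exact hv
    · have h1 : smap θ' σ = smap θ σ := by
        funext j
        exact List.map_congr_left fun x hx => hθ x (hσ j x hx)
      have h2 : θ' (ans Φ (σ j).length (σ i)) = ans Φ (σ j).length (smap θ σ i) := by
        have h3 : ans Φ (σ j).length (smap θ σ i) = _ := trun_ans Φ θ (σ j).length (σ i)
        rw [h3]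
        exact hv'
      rw [trun_smap, List.map_cons, List.map_nil, h1, h2]
      have h4 := Run.ask (Φ := Φ) i j (smap θ σ)
      have h5 : (smap θ σ i).length = (σ i).length := List.length_map _
      have h6 : (smap θ σ j).length = (σ j).length := List.length_map _
      rw [h5, h6] at h4
      exact h4
  | seq h1 h2 ih1 ih2 =>
    have hp1 := hp.1
    have hp2 := hp.2
    obtain ⟨Q1, E1, θ1, hI1, hc1, hσ1, r1⟩ := ih1 hp1 hI hσ (by omega) (by omega)
    obtain ⟨Q2, E2, θ2, hI2, hc2, hσ2, r2⟩ := ih2 hp2 hI1 hσ1 (by omega) (by omega)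
    exact ⟨Q2, E2, θ2, hI2, by omega, hσ2, Run.seq r1 r2⟩
  | ifz_true hc _ ih =>
    obtain ⟨Q1, E1, θ1, hI1, hc1, hσ1, r1⟩ := ih hp.1 hI hσ (by omega) (by omega)
    refine ⟨Q1, E1, θ1, hI1, by omega, hσ1, Run.ifz_true ?_ r1⟩
    exact (trun_head θ _).2 hc
  | ifz_false hc _ ih =>
    obtain ⟨Q1, E1, θ1, hI1, hc1, hσ1, r1⟩ := ih hp.2 hI hσ (by omega) (by omega)
    refine ⟨Q1, E1, θ1, hI1, by omega, hσ1, Run.ifz_false ?_ r1⟩
    exact fun h => hc ((trun_head θ _).1 h)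
  | ifn_true hc _ ih =>
    obtain ⟨Q1, E1, θ1, hI1, hc1, hσ1, r1⟩ := ih hp.1 hI hσ (by omega) (by omega)
    refine ⟨Q1, E1, θ1, hI1, by omega, hσ1, Run.ifn_true ?_ r1⟩
    exact List.map_eq_nil_iff.2 hc
  | ifn_false hc _ ih =>
    obtain ⟨Q1, E1, θ1, hI1, hc1, hσ1, r1⟩ := ih hp.2 hI hσ (by omega) (by omega)
    refine ⟨Q1, E1, θ1, hI1, by omega, hσ1, Run.ifn_false ?_ r1⟩
    exact fun h => hc (List.map_eq_nil_iff.1 h)
  | loop_nil hc =>
    exact ⟨Q, E, θ, hI, Nat.le_add_right _ _, hσ, Run.loop_nil (List.map_eq_nil_iff.2 hc)⟩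
  | loop_cons hc h1 h2 ih1 ih2 =>
    obtain ⟨Q1, E1, θ1, hI1, hc1, hσ1, r1⟩ := ih1 hp hI hσ (by omega) (by omega)
    obtain ⟨Q2, E2, θ2, hI2, hc2, hσ2, r2⟩ := ih2 hp hI1 hσ1 (by omega) (by omega)
    refine ⟨Q2, E2, θ2, hI2, by omega, hσ2, Run.loop_cons ?_ r1 r2⟩
    exact fun h => hc (List.map_eq_nil_iff.1 h)


end VRJ
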