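import Pool.Agent.VRJ.TJet
import Pool.Agent.VRJ.TDk
import Pool.Agent.VRJ.TAut

/-!
# VRJ-TStep: one query

## Plan
Compare with `Pool/Agent/VRB/TStep.lean`. Let `q = ⟨L, k, z⟩`, `k1 = kq (6 n + 2) κ`, `k2 = kq (6 n + 5) κ`.
Case `L` not one of the two levels: `Q' = Q`, `E' = E`, `θ' = θ` (`jet_mem`, `jet_theta`).
Case A: `fv q` is a complex combination of the `fv q'`, `q' ∈ Q`. By `dep_field` with coefficients `c'` in `E`. By `lin`
`jet (Φ L) k z = ∑ c' q' * jet (Φ q'.1) ..` is in `E`, and `fv (θ q) = ∑ θ (c' q') • fv (θ q')` (`fv_theta`), so by `lin` and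
`anT` `θ` maps it correctly. `Q' = Q`, `E' = E`, `θ' = θ`.
Case B: `fv q` is not such a combination. `v = jet (Φ L) k z`, `v' = jet (Φ L) k (θ z)`.
(1) `dd v - Dm a (fv q) ∈ dK E` (`val`). If `v` were algebraic over `E`, then `Dm a (fv q) ∈ dK E ≤ ...` (`dE`), so
`Dm a (fv q - ∑ c q' • fv q') - x • dd ξ ∈ dK F`, by `ind` `fv q = ∑ c q' • fv q'`: contradiction.
(2) `κ ∉ E.map θ`: otherwise `dd κ ∈ dK (E.map θ)`, by `kap` and `dE'`, `omg`:
`fv k1 = y • (r • fv k1 + fv k2) + ∑ c q' • fv (θ q')` (`ind` with `x = 0`). On the level `6 n + 5`: `sep` (base points of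
the `θ q'` differ from `pt κ`: `nk`) gives `y = 0`; on the level `6 n + 2`: `fv k1 - ∑ c q' • fv (θ q') = 0`, `sep` with
`y := 1`: contradiction. (3) So the base point of `θ q` is not `pt L κ` (`L ≥ 1`, coordinate `0` is in `E.map θ`).
(4) If `v'` were algebraic over `E.map θ` then `fv (θ q) = y • (r • fv k1 + fv k2) + ∑ c q' • fv (θ q')`; `sep` on the
level `6 n + 5` for `θ q` (if `L = 6 n + 5`) and the `θ q'` gives `y = 0`; so `fv (θ q) = ∑ c q' • fv (θ q')`, apply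
`θ⁻¹` (`fv_theta`): `fv q` is a combination of the `fv q'`: contradiction to case B.
(5) `aut_ext`: `θ'` with `θ' = θ` on `E`, `θ' v = v'`. `E'` = closure of `E ∪ {v}`, `Q' = insert q Q`. `dE`, `dE'`: as in VRB
(`qmap θ' q = qmap θ q` for all queries with coordinates in `E`).
-/

namespace VRJ

open MvPolynomial

private theorem tstep_mem {A : Submodule ℂ Om} {w y : Om} {P : Qy → Om} {S : Finset Qy}
    (h : y ∈ A ⊔ Submodule.span ℂ {w} ⊔ Submodule.span ℂ (P '' (S : Set Qy))) :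
    ∃ (x : ℂ) (c : Qy → ℂ), y - x • w - ∑ q ∈ S, c q • P q ∈ A := by
  obtain ⟨y1, h1, y2, h2, rfl⟩ := Submodule.mem_sup.1 h
  obtain ⟨y3, h3, y4, h4, rfl⟩ := Submodule.mem_sup.1 h1
  obtain ⟨x, rfl⟩ := Submodule.mem_span_singleton.1 h4
  obtain ⟨c, rfl⟩ := (Submodule.mem_span_image_finset_iff_exists_fun ℂ).1 h2
  classical
  refine ⟨x, fun q => if h : q ∈ S then c ⟨q, h⟩ else 0, ?_⟩
  have h5 : ∑ i, c i • P ↑i = ∑ q ∈ S, (if h : q ∈ S then c ⟨q, h⟩ else 0) • P q := by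
    rw [← Finset.sum_coe_sort S (fun q => (if h : q ∈ S then c ⟨q, h⟩ else 0) • P q)]
    refine Finset.sum_congr rfl fun i _ => ?_
    rw [dif_pos i.2]
  rw [h5]
  convert h3 using 1
  abel

private theorem tstep_qmap_symm (θ : ℂ ≃+* ℂ) (q : Qy) : qmap θ.symm (qmap θ q) = q := by
  obtain ⟨L, k, z⟩ := q
  have h2 : (fun v i => θ.symm (θ (z v i))) = z := by
    funext v i
    simp
  change (⟨L, k, fun v i => θ.symm (θ (z v i))⟩ : Qy) = ⟨L, k, z⟩
  rw [h2]

private theorem tstep_qmap_inj (θ : ℂ ≃+* ℂ) {p q : Qy} (h : qmap θ p = qmap θ q) : p = q := by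
  rw [← tstep_qmap_symm θ p, h, tstep_qmap_symm]

private theorem tstep_qmap_congr {θ θ' : ℂ ≃+* ℂ} {E : Subfield ℂ} (h : ∀ x ∈ E, θ' x = θ x)
    {q : Qy} (hq : ∀ v i, q.2.2 v i ∈ E) : qmap θ' q = qmap θ q := by
  obtain ⟨L, k, z⟩ := q
  have h2 : (fun v i => θ' (z v i)) = fun v i => θ (z v i) := by
    funext v i
    exact h _ (hq v i)
  change (⟨L, k, fun v i => θ' (z v i)⟩ : Qy) = ⟨L, k, fun v i => θ (z v i)⟩
  rw [h2]

private theorem tstep_pt {θ : ℂ ≃+* ℂ} {E : Subfield ℂ} {L : ℕ} {z : Fin L → ℕ → ℂ}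
    (hq : ∀ v i, z v i ∈ E) (hL : 0 < L) {κ : ℂ} (h : (fun v => θ (z v 0)) = pt L κ) :
    κ ∈ E.map (θ : ℂ →+* ℂ) := by
  have h3 := congrFun h ⟨0, hL⟩
  simp only [pt] at h3
  rw [if_pos trivial] at h3
  rw [← h3]
  exact Subfield.mem_map.2 ⟨z ⟨0, hL⟩ 0, hq _ _, rfl⟩

private theorem tstep_coef_mono {L : ℕ} {F E : Subfield ℂ} (hFE : F ≤ E)
    {G : MvPolynomial (Fin L) ℂ} (hG : CoefIn F G) : CoefIn E G := fun m => hFE (hG m)

private theorem tstep_map_closure {E : Subfield ℂ} {θ θ' : ℂ ≃+* ℂ} (h : ∀ x ∈ E, θ' x = θ x)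
    {v v' : ℂ} (hv : θ' v = v') :
    (Subfield.closure ((E : Set ℂ) ∪ {v})).map (θ' : ℂ →+* ℂ) =
      Subfield.closure (((E.map (θ : ℂ →+* ℂ) : Subfield ℂ) : Set ℂ) ∪ {v'}) := by
  rw [RingHom.map_field_closure, Set.image_union, Set.image_singleton]
  congr 2
  · rw [Subfield.coe_map]
    apply Set.image_congr
    intro x hx
    exact h x hx
  · have : (θ' : ℂ →+* ℂ) v = v' := hv
    rw [this]

/-- the differential of the answer for a new query -/
private theorem tstep_val {Φ : Orc} {F : Subfield ℂ} {a : Ix → ℂ} {n R T : ℕ} {ξ ω κ : ℂ}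
    (hC : Cmp Φ F a n R T ξ ω κ) {q : Qy} (hq : q.1 = 6 * n + 2 ∨ q.1 = 6 * n + 5)
    {K : Subfield ℂ} (hK : ∀ v i, q.2.2 v i ∈ K) :
    dd (jet (Φ q.1) q.2.1 q.2.2) - Dm a (fv q) ∈ dK K := by
  refine (Submodule.span_le.2 ?_) (hC.val q hq)
  rintro _ ⟨v, rfl⟩
  exact dd_mem (hK _ _)

/-- the support of a combination is in the two levels -/
private theorem tstep_supp {n : ℕ} {β : Ix →₀ ℂ}
    (h : ∀ i : Ix, i.1 ≠ 6 * n + 2 → i.1 ≠ 6 * n + 5 → β i = 0) :
    ∀ i ∈ β.support, i.1 = 6 * n + 2 ∨ i.1 = 6 * n + 5 := by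
  intro i hi
  by_contra hh
  push Not at hh
  exact (Finsupp.mem_support_iff.1 hi) (h i hh.1 hh.2)

private theorem tstep_fv_zero {q : Qy} {i : Ix} (h : i.1 ≠ q.1) : fv q i = 0 := by
  by_contra hh
  exact h (fv_level (Finsupp.mem_support_iff.2 hh))

private theorem tstep_fv_zero' {n : ℕ} {q : Qy} (hq : q.1 = 6 * n + 2 ∨ q.1 = 6 * n + 5) {i : Ix}
    (h1 : i.1 ≠ 6 * n + 2) (h2 : i.1 ≠ 6 * n + 5) : fv q i = 0 := by
  apply tstep_fv_zero
  rcases hq with hq | hq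
  · rwa [hq]
  · rwa [hq]

private theorem tstep_sum_zero {n : ℕ} {Q : Finset Qy} (f : Qy → Qy)
    (hQ : ∀ q ∈ Q, (f q).1 = 6 * n + 2 ∨ (f q).1 = 6 * n + 5) (c : Qy → ℂ) {i : Ix}
    (h1 : i.1 ≠ 6 * n + 2) (h2 : i.1 ≠ 6 * n + 5) : (∑ q ∈ Q, c q • fv (f q)) i = 0 := by
  rw [Finsupp.finsetSum_apply]
  refine Finset.sum_eq_zero fun q hq => ?_
  rw [Finsupp.smul_apply, tstep_fv_zero' (hQ q hq) h1 h2, smul_zero]

open Classical in
/-- separation for the images of the queries -/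
private theorem tstep_sep {Φ : Orc} {F : Subfield ℂ} {a : Ix → ℂ} {n R T : ℕ} {ξ ω κ : ℂ}
    (hC : Cmp Φ F a n R T ξ ω κ) {Q : Finset Qy} {θ : ℂ ≃+* ℂ} {L : ℕ}
    (hL : L = 6 * n + 2 ∨ L = 6 * n + 5) (c : Qy → ℂ) (y : ℂ) (hR : Q.card < R)
    (ho : ∀ q ∈ Q, q.2.1 ≤ R) (hn : ∀ q ∈ Q, (fun v => θ (q.2.2 v 0)) ≠ pt q.1 κ)
    (h : ∀ i : Ix, i.1 = L → (y • fv (kq L κ) + ∑ q ∈ Q, c q • fv (qmap θ q)) i = 0) : y = 0 := by
  refine hC.sep L hL (Q.image (qmap θ)) (fun p => c (qmap θ.symm p)) y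
    (lt_of_le_of_lt Finset.card_image_le hR) ?_ ?_
  · intro p hp _
    obtain ⟨q, hq, rfl⟩ := Finset.mem_image.1 hp
    exact ⟨ho q hq, hn q hq⟩
  · intro i hi
    rw [Finset.sum_image fun p _ q _ hpq => tstep_qmap_inj θ hpq]
    simp only [tstep_qmap_symm]
    exact h i hi

/-- case A -/
private theorem tstep_dep {Φ : Orc} {F : Subfield ℂ} {a : Ix → ℂ} {n R T : ℕ} {ξ ω κ : ℂ}
    (hC : Cmp Φ F a n R T ξ ω κ) {Q : Finset Qy} {E : Subfield ℂ} {θ : ℂ ≃+* ℂ}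
    (hI : Inv Φ F a n R ξ ω κ Q E θ) {q : Qy} (hlev : q.1 = 6 * n + 2 ∨ q.1 = 6 * n + 5)
    (hz : ∀ v i, q.2.2 v i ∈ E) (c : Qy → ℂ) (h : fv q = ∑ q' ∈ Q, c q' • fv q') :
    jet (Φ q.1) q.2.1 q.2.2 ∈ E ∧
      θ (jet (Φ q.1) q.2.1 q.2.2) = jet (Φ q.1) q.2.1 (qmap θ q).2.2 := by
  obtain ⟨c', hc', he⟩ := dep_field hz hI.coo c h
  have lin' : ∀ p : Qy, (p.1 = 6 * n + 2 ∨ p.1 = 6 * n + 5) →
      jet (Φ p.1) p.2.1 p.2.2 = Finsupp.linearCombination ℂ a (fv p) := by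
    intro p hp
    rw [hC.lin p hp, Finsupp.linearCombination_apply]
    rfl
  have he' : fv (qmap θ q) = ∑ q' ∈ Q, θ (c' q') • fv (qmap θ q') := by
    ext i
    rw [fv_theta, he, Finsupp.finsetSum_apply, Finsupp.finsetSum_apply, map_sum]
    refine Finset.sum_congr rfl fun q' _ => ?_
    rw [Finsupp.smul_apply, Finsupp.smul_apply, fv_theta, smul_eq_mul, smul_eq_mul, map_mul]
  have h1 : jet (Φ q.1) q.2.1 q.2.2 = ∑ q' ∈ Q, c' q' * jet (Φ q'.1) q'.2.1 q'.2.2 := by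
    rw [lin' q hlev, he, map_sum]
    refine Finset.sum_congr rfl fun q' hq' => ?_
    rw [map_smul, lin' q' (hI.lev q' hq'), smul_eq_mul]
  have h2 : jet (Φ q.1) q.2.1 (qmap θ q).2.2 =
      ∑ q' ∈ Q, θ (c' q') * jet (Φ q'.1) q'.2.1 (qmap θ q').2.2 := by
    have h3 := lin' (qmap θ q) hlev
    refine h3.trans ?_
    rw [he', map_sum]
    refine Finset.sum_congr rfl fun q' hq' => ?_
    have h4 := lin' (qmap θ q') (hI.lev q' hq')
    rw [map_smul, smul_eq_mul, ← h4]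
    rfl
  refine ⟨?_, ?_⟩
  · rw [h1]
    exact sum_mem fun q' hq' => mul_mem (hc' q' hq') (hI.anE q' hq')
  · rw [h1, h2, map_sum]
    refine Finset.sum_congr rfl fun q' hq' => ?_
    rw [map_mul, hI.anT q' hq']

/-- the source: a new query is not algebraic -/
private theorem tstep_src {Φ : Orc} {F : Subfield ℂ} {a : Ix → ℂ} {n R T : ℕ} {ξ ω κ : ℂ}
    (hC : Cmp Φ F a n R T ξ ω κ) {Q : Finset Qy} {E : Subfield ℂ} {θ : ℂ ≃+* ℂ}
    (hI : Inv Φ F a n R ξ ω κ Q E θ) {q : Qy} (hlev : q.1 = 6 * n + 2 ∨ q.1 = 6 * n + 5)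
    (hq : ∀ c : Qy → ℂ, fv q ≠ ∑ q' ∈ Q, c q' • fv q') : Dm a (fv q) ∉ dK E := by
  intro hmem
  obtain ⟨x, c, hc⟩ := tstep_mem (hI.dE hmem)
  have key := hC.ind (-x) (fv q - ∑ q' ∈ Q, c q' • fv q') (tstep_supp ?_) ?_
  · exact hq c (sub_eq_zero.1 key.2)
  · intro i h1 h2
    rw [Finsupp.sub_apply, tstep_fv_zero' hlev h1 h2,
      tstep_sum_zero (fun q => q) (fun q' hq' => hI.lev q' hq') c h1 h2, sub_zero]
  · rw [map_sub, map_sum]
    simp only [map_smul]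
    convert hc using 1
    rw [neg_smul]
    abel

/-- the target: `κ` is not in the image field -/
private theorem tstep_tgt {Φ : Orc} {F : Subfield ℂ} {a : Ix → ℂ} {n R T : ℕ} {ξ ω κ : ℂ}
    (hC : Cmp Φ F a n R T ξ ω κ) {Q : Finset Qy} {E : Subfield ℂ} {θ : ℂ ≃+* ℂ}
    (hI : Inv Φ F a n R ξ ω κ Q E θ) (hR : Q.card + 2 ≤ R) :
    κ ∉ E.map (θ : ℂ →+* ℂ) := by
  intro hκ
  obtain ⟨r, hr, hκr⟩ := hC.kap
  obtain ⟨s, hs⟩ := hC.omg
  have hm : Dm a (fv (kq (6 * n + 2) κ)) ∈ dK F ⊔ Submodule.span ℂ {dd ω} ⊔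
      Submodule.span ℂ ((fun q => Dm a (fv (qmap θ q))) '' (Q : Set Qy)) := by
    have h1 : Dm a (fv (kq (6 * n + 2) κ)) = r⁻¹ • dd κ := by
      rw [hκr, smul_smul, inv_mul_cancel₀ hr, one_smul]
    rw [h1]
    exact Submodule.smul_mem _ _ (hI.dE' (dd_mem hκ))
  obtain ⟨y, c, hc⟩ := tstep_mem hm
  have key := hC.ind 0 (fv (kq (6 * n + 2) κ) - y • (s • fv (kq (6 * n + 2) κ) +
    fv (kq (6 * n + 5) κ)) - ∑ q ∈ Q, c q • fv (qmap θ q)) (tstep_supp ?_) ?_
  · have hb := key.2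
    have hy : -y = 0 := by
      refine tstep_sep hC (θ := θ) (Or.inr rfl) (fun q => - c q) (-y) (by omega) hI.ord hI.nk ?_
      intro i hi
      have h0 := DFunLike.congr_fun hb i
      have h1 : fv (kq (6 * n + 2) κ) i = 0 := tstep_fv_zero (by
        change i.1 ≠ 6 * n + 2
        omega)
      simp only [Finsupp.sub_apply, Finsupp.smul_apply, Finsupp.add_apply, h1, smul_eq_mul,
        Finsupp.finsetSum_apply, Finsupp.zero_apply] at h0 ⊢
      simp only [neg_mul, Finset.sum_neg_distrib]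
      linear_combination h0
    have hy0 : y = 0 := neg_eq_zero.1 hy
    have h10 : (1 : ℂ) = 0 := by
      refine tstep_sep hC (θ := θ) (Or.inl rfl) (fun q => - c q) 1 (by omega) hI.ord hI.nk ?_
      intro i hi
      have h0 := DFunLike.congr_fun hb i
      rw [hy0] at h0
      simp only [Finsupp.sub_apply, Finsupp.smul_apply, Finsupp.add_apply, smul_eq_mul,
        Finsupp.finsetSum_apply, Finsupp.zero_apply] at h0 ⊢
      simp only [neg_mul, Finset.sum_neg_distrib]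
      linear_combination h0
    exact one_ne_zero h10
  · intro i h1 h2
    simp only [Finsupp.sub_apply, Finsupp.smul_apply, Finsupp.add_apply]
    rw [tstep_sum_zero (fun q => qmap θ q) (fun q' hq' => hI.lev q' hq') c h1 h2,
      tstep_fv_zero' (q := kq (6 * n + 2) κ) (Or.inl rfl) h1 h2,
      tstep_fv_zero' (q := kq (6 * n + 5) κ) (Or.inr rfl) h1 h2]
    simp
  · rw [zero_smul, zero_add, map_sub, map_sub, map_sum, map_smul, map_add, map_smul, ← hs]
    simp only [map_smul]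
    exact hc

/-- the target: the image of a new query is not algebraic -/
private theorem tstep_tgt2 {Φ : Orc} {F : Subfield ℂ} {a : Ix → ℂ} {n R T : ℕ} {ξ ω κ : ℂ}
    (hC : Cmp Φ F a n R T ξ ω κ) {Q : Finset Qy} {E : Subfield ℂ} {θ : ℂ ≃+* ℂ}
    (hI : Inv Φ F a n R ξ ω κ Q E θ) {q : Qy} (hlev : q.1 = 6 * n + 2 ∨ q.1 = 6 * n + 5)
    (hk : q.2.1 ≤ R) (hz : ∀ v i, q.2.2 v i ∈ E)
    (hq : ∀ c : Qy → ℂ, fv q ≠ ∑ q' ∈ Q, c q' • fv q') (hR : Q.card + 2 ≤ R) :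
    Dm a (fv (qmap θ q)) ∉ dK (E.map (θ : ℂ →+* ℂ)) := by
  classical
  intro hmem
  have hκ := tstep_tgt hC hI hR
  obtain ⟨s, hs⟩ := hC.omg
  have hqQ : q ∉ Q := by
    intro h
    apply hq (fun p => if p = q then 1 else 0)
    rw [Finset.sum_eq_single q]
    · rw [if_pos rfl, one_smul]
    · intro p _ hp
      rw [if_neg hp, zero_smul]
    · intro h'
      exact absurd h h'
  obtain ⟨y, c, hc⟩ := tstep_mem (hI.dE' hmem)
  have key := hC.ind 0 (fv (qmap θ q) - y • (s • fv (kq (6 * n + 2) κ) +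
    fv (kq (6 * n + 5) κ)) - ∑ q ∈ Q, c q • fv (qmap θ q)) (tstep_supp ?_) ?_
  · have hb := key.2
    have hy : -y = 0 := by
      refine tstep_sep hC (θ := θ) (Q := insert q Q) (Or.inr rfl)
        (fun p => if p = q then 1 else - c p) (-y) ?_ ?_ ?_ ?_
      · have := Finset.card_insert_le q Q
        omega
      · intro p hp
        rcases Finset.mem_insert.1 hp with rfl | hp
        · exact hk
        · exact hI.ord p hp
      · intro p hp
        rcases Finset.mem_insert.1 hp with rfl | hp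
        · intro h
          exact hκ (tstep_pt hz (by omega) h)
        · exact hI.nk p hp
      · intro i hi
        have h0 := DFunLike.congr_fun hb i
        have h1 : fv (kq (6 * n + 2) κ) i = 0 := tstep_fv_zero (by
          change i.1 ≠ 6 * n + 2
          omega)
        rw [Finset.sum_insert hqQ, if_pos rfl, one_smul]
        have h2 : ∑ p ∈ Q, (if p = q then (1 : ℂ) else - c p) • fv (qmap θ p) =
            - ∑ p ∈ Q, c p • fv (qmap θ p) := by
          rw [← Finset.sum_neg_distrib]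
          refine Finset.sum_congr rfl fun p hp => ?_
          rw [if_neg (fun h : p = q => hqQ (h ▸ hp)), neg_smul]
        rw [h2]
        simp only [Finsupp.sub_apply, Finsupp.smul_apply, Finsupp.add_apply, h1, smul_eq_mul,
          Finsupp.neg_apply, Finsupp.zero_apply] at h0 ⊢
        linear_combination h0
    have hy0 : y = 0 := neg_eq_zero.1 hy
    apply hq (fun p => θ.symm (c p))
    ext i
    have h0 := DFunLike.congr_fun hb i
    rw [hy0] at h0
    simp only [Finsupp.sub_apply, Finsupp.smul_apply, Finsupp.add_apply, smul_eq_mul,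
      Finsupp.finsetSum_apply, Finsupp.zero_apply, zero_mul, sub_zero, fv_theta] at h0 ⊢
    apply θ.injective
    rw [map_sum]
    simp only [map_mul, RingEquiv.apply_symm_apply]
    exact sub_eq_zero.1 h0
  · intro i h1 h2
    simp only [Finsupp.sub_apply, Finsupp.smul_apply, Finsupp.add_apply]
    rw [tstep_sum_zero (fun q => qmap θ q) (fun q' hq' => hI.lev q' hq') c h1 h2,
      tstep_fv_zero' (q := kq (6 * n + 2) κ) (Or.inl rfl) h1 h2,
      tstep_fv_zero' (q := kq (6 * n + 5) κ) (Or.inr rfl) h1 h2,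
      tstep_fv_zero' (q := qmap θ q) hlev h1 h2]
    simp
  · rw [zero_smul, zero_add, map_sub, map_sub, map_sum, map_smul, map_add, map_smul, ← hs]
    simp only [map_smul]
    exact hc

theorem step {Φ : Orc} {F : Subfield ℂ} {a : Ix → ℂ} {n R T : ℕ} {ξ ω κ : ℂ}
    (hC : Cmp Φ F a n R T ξ ω κ) {Q : Finset Qy} {E : Subfield ℂ} {θ : ℂ ≃+* ℂ}
    (hI : Inv Φ F a n R ξ ω κ Q E θ) {L k : ℕ} (hL : L ≤ T) (hk : k ≤ R) (z : Fin L → ℕ → ℂ)
    (hz : ∀ v i, z v i ∈ E) (hQ : Q.card + 2 ≤ R) :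
    ∃ (Q' : Finset Qy) (E' : Subfield ℂ) (θ' : ℂ ≃+* ℂ), Inv Φ F a n R ξ ω κ Q' E' θ' ∧
      Q'.card ≤ Q.card + 1 ∧ E ≤ E' ∧ (∀ x ∈ E, θ' x = θ x) ∧ jet (Φ L) k z ∈ E' ∧
      θ' (jet (Φ L) k z) = jet (Φ L) k fun v i => θ (z v i) := by
  classical
  by_cases hlev : L = 6 * n + 2 ∨ L = 6 * n + 5
  swap
  · have hco : CoefIn F (Φ L) := hC.low L hL (fun h => hlev (Or.inl h)) (fun h => hlev (Or.inr h))
    exact ⟨Q, E, θ, hI, by omega, le_rfl, fun _ _ => rfl,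
      jet_mem (tstep_coef_mono hI.fld hco) k z hz, jet_theta hI.fix hco k z⟩
  by_cases hq0 : ∃ c : Qy → ℂ, fv ⟨L, k, z⟩ = ∑ q' ∈ Q, c q' • fv q'
  · obtain ⟨c, hc⟩ := hq0
    obtain ⟨h1, h2⟩ := tstep_dep hC hI (q := ⟨L, k, z⟩) hlev hz c hc
    exact ⟨Q, E, θ, hI, by omega, le_rfl, fun _ _ => rfl, h1, h2⟩
  have hq : ∀ c : Qy → ℂ, fv ⟨L, k, z⟩ ≠ ∑ q' ∈ Q, c q' • fv q' := fun c h => hq0 ⟨c, h⟩
  have hz' : ∀ v i, (fun v i => θ (z v i)) v i ∈ E.map (θ : ℂ →+* ℂ) := fun v i =>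
    Subfield.mem_map.2 ⟨z v i, hz v i, rfl⟩
  have hd : dd (jet (Φ L) k z) - Dm a (fv ⟨L, k, z⟩) ∈ dK E :=
    tstep_val hC (q := ⟨L, k, z⟩) hlev hz
  have hd' : dd (jet (Φ L) k fun v i => θ (z v i)) - Dm a (fv (qmap θ ⟨L, k, z⟩)) ∈
      dK (E.map (θ : ℂ →+* ℂ)) := tstep_val hC (q := qmap θ ⟨L, k, z⟩) hlev hz'
  have hs := tstep_src hC hI (q := ⟨L, k, z⟩) hlev hq
  have ht := tstep_tgt2 hC hI (q := ⟨L, k, z⟩) hlev hk hz hq hQ
  have hκ := tstep_tgt hC hI hQ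
  have hv : Transcendental E (jet (Φ L) k z) := by
    apply trans_of
    intro h
    apply hs
    have := Submodule.sub_mem _ h hd
    simpa using this
  have hv' : Transcendental (E.map (θ : ℂ →+* ℂ)) (jet (Φ L) k fun v i => θ (z v i)) := by
    apply trans_of
    intro h
    apply ht
    have := Submodule.sub_mem _ h hd'
    simpa using this
  obtain ⟨θ', hθ', hθv⟩ := aut_ext θ hv hv'
  have hE : E ≤ Subfield.closure ((E : Set ℂ) ∪ {jet (Φ L) k z}) := fun x hx =>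
    Subfield.subset_closure (Or.inl hx)
  have hvE : jet (Φ L) k z ∈ Subfield.closure ((E : Set ℂ) ∪ {jet (Φ L) k z}) :=
    Subfield.subset_closure (Or.inr rfl)
  have hqe : qmap θ' ⟨L, k, z⟩ = qmap θ ⟨L, k, z⟩ := tstep_qmap_congr (q := ⟨L, k, z⟩) hθ' hz
  have hqe' : ∀ p ∈ Q, qmap θ' p = qmap θ p := fun p hp => tstep_qmap_congr hθ' (hI.coo p hp)
  have himg : (fun q => Dm a (fv (qmap θ' q))) '' ((insert (⟨L, k, z⟩ : Qy) Q : Finset Qy) : Set Qy) =
      insert (Dm a (fv (qmap θ ⟨L, k, z⟩))) ((fun q => Dm a (fv (qmap θ q))) '' (Q : Set Qy)) := by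
    rw [Finset.coe_insert, Set.image_insert_eq]
    have e1 : Dm a (fv (qmap θ' (⟨L, k, z⟩ : Qy))) = Dm a (fv (qmap θ (⟨L, k, z⟩ : Qy))) :=
      congrArg (fun q => Dm a (fv q)) hqe
    have e2 : (fun q => Dm a (fv (qmap θ' q))) '' (Q : Set Qy) =
        (fun q => Dm a (fv (qmap θ q))) '' (Q : Set Qy) :=
      Set.image_congr fun p hp => congrArg (fun q => Dm a (fv q)) (hqe' p hp)
    rw [e1, e2]
  refine ⟨insert ⟨L, k, z⟩ Q, Subfield.closure ((E : Set ℂ) ∪ {jet (Φ L) k z}), θ',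
    ⟨?_, ?_, ?_, ?_, ?_, ?_, ?_, ?_, ?_, ?_⟩, Finset.card_insert_le _ _, hE, hθ', hvE, hθv⟩
  · intro p hp
    rcases Finset.mem_insert.1 hp with rfl | hp
    · exact hlev
    · exact hI.lev p hp
  · intro p hp
    rcases Finset.mem_insert.1 hp with rfl | hp
    · exact hk
    · exact hI.ord p hp
  · exact hI.fld.trans hE
  · intro x hx
    rw [hθ' x (hI.fld hx)]
    exact hI.fix x hx
  · intro p hp
    rcases Finset.mem_insert.1 hp with rfl | hp
    · exact fun v i => hE (hz v i)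
    · exact fun v i => hE (hI.coo p hp v i)
  · intro p hp
    rcases Finset.mem_insert.1 hp with rfl | hp
    · exact hvE
    · exact hE (hI.anE p hp)
  · intro p hp
    rcases Finset.mem_insert.1 hp with rfl | hp
    · change θ' (jet (Φ L) k z) = jet (Φ L) k fun v i => θ' (z v i)
      rw [show (fun v i => θ' (z v i)) = fun v i => θ (z v i) from
        funext fun v => funext fun i => hθ' _ (hz v i)]
      exact hθv
    · change θ' (jet (Φ p.1) p.2.1 p.2.2) = jet (Φ p.1) p.2.1 fun v i => θ' (p.2.2 v i)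
      rw [show (fun v i => θ' (p.2.2 v i)) = fun v i => θ (p.2.2 v i) from
        funext fun v => funext fun i => hθ' _ (hI.coo p hp v i), hθ' _ (hI.anE p hp)]
      exact hI.anT p hp
  · rw [dK_closure, Set.image_singleton]
    have hmono : Submodule.span ℂ ((fun q => Dm a (fv q)) '' (Q : Set Qy)) ≤
        Submodule.span ℂ ((fun q => Dm a (fv q)) ''
          ((insert (⟨L, k, z⟩ : Qy) Q : Finset Qy) : Set Qy)) := by
      apply Submodule.span_mono
      apply Set.image_mono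
      rw [Finset.coe_insert]
      exact Set.subset_insert _ _
    have hle : dK E ≤ dK F ⊔ Submodule.span ℂ {dd ξ} ⊔
        Submodule.span ℂ ((fun q => Dm a (fv q)) ''
          ((insert (⟨L, k, z⟩ : Qy) Q : Finset Qy) : Set Qy)) :=
      hI.dE.trans (sup_le_sup_left hmono _)
    refine sup_le hle ?_
    rw [Submodule.span_singleton_le_iff_mem]
    have h1 : dd (jet (Φ L) k z) = (dd (jet (Φ L) k z) - Dm a (fv ⟨L, k, z⟩)) +
      Dm a (fv ⟨L, k, z⟩) := by abel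
    rw [h1]
    refine Submodule.add_mem _ (hle hd) ?_
    apply Submodule.mem_sup_right
    apply Submodule.subset_span
    exact ⟨⟨L, k, z⟩, by rw [Finset.coe_insert]; exact Set.mem_insert _ _, rfl⟩
  · rw [tstep_map_closure hθ' hθv, dK_closure, Set.image_singleton, himg]
    have hmono : Submodule.span ℂ ((fun q => Dm a (fv (qmap θ q))) '' (Q : Set Qy)) ≤
        Submodule.span ℂ (insert (Dm a (fv (qmap θ ⟨L, k, z⟩)))
          ((fun q => Dm a (fv (qmap θ q))) '' (Q : Set Qy))) := by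
      apply Submodule.span_mono
      exact Set.subset_insert _ _
    have hle : dK (E.map (θ : ℂ →+* ℂ)) ≤ dK F ⊔ Submodule.span ℂ {dd ω} ⊔
        Submodule.span ℂ (insert (Dm a (fv (qmap θ ⟨L, k, z⟩)))
          ((fun q => Dm a (fv (qmap θ q))) '' (Q : Set Qy))) :=
      hI.dE'.trans (sup_le_sup_left hmono _)
    refine sup_le hle ?_
    rw [Submodule.span_singleton_le_iff_mem]
    have h1 : dd (jet (Φ L) k fun v i => θ (z v i)) =
      (dd (jet (Φ L) k fun v i => θ (z v i)) - Dm a (fv (qmap θ ⟨L, k, z⟩))) +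
        Dm a (fv (qmap θ ⟨L, k, z⟩)) := by abel
    rw [h1]
    refine Submodule.add_mem _ (hle hd') ?_
    apply Submodule.mem_sup_right
    apply Submodule.subset_span
    exact Set.mem_insert _ _
  · intro p hp
    rcases Finset.mem_insert.1 hp with rfl | hp
    · intro h
      apply hκ
      refine tstep_pt (θ := θ) hz (by omega) ?_
      rw [← h]
      funext v
      exact (hθ' _ (hz v 0)).symm
    · have h1 : (fun v => θ' (p.2.2 v 0)) = fun v => θ (p.2.2 v 0) := by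
        funext v
        exact hθ' _ (hI.coo p hp v 0)
      rw [h1]
      exact hI.nk p hp

end VRJ
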